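import Mathlib

/-!
# MP_fc2a59_co (Jaeger), last step: a partition of the vertices into two induced trees gives a
partition of the edges into two trees

`split_of_trees`: a cubic graph with more than two vertices whose vertex set is the union of two
disjoint sets (`c v = true`, `c v = false`) which induce trees is the union of two edge-disjoint trees.
-/

set_option autoImplicit false

namespace Pool.Agent.JaegerFinal

open Finset

section gen

variable {V : Type} [Fintype V] [DecidableEq V] (G : SimpleGraph V) [DecidableRel G.Adj]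

/-- an element of the edge which is chosen by `own` -/
def TT (c : V → Bool) (own : Sym2 V → V) (b : Bool) : SimpleGraph V where
  Adj u v := G.Adj u v ∧ ((c u = b ∧ c v = b) ∨ (c u ≠ c v ∧ c (own s(u, v)) ≠ b))
  symm := ⟨by
    rintro u v ⟨h, h1⟩
    refine ⟨h.symm, ?_⟩
    rcases h1 with h1 | h1
    · exact Or.inl h1.symm
    · exact Or.inr ⟨h1.1.symm, by rw [Sym2.eq_swap]; exact h1.2⟩⟩
  loopless := ⟨fun u h => h.1.ne rfl⟩

/-- every vertex has a neighbour of its own colour -/
theorem exists_mono (h3 : ∀ v, G.degree v = 3) (hV : 2 < Fintype.card V) (c : V → Bool)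
    (h : ∀ b, (G.induce {v | c v = b}).IsTree) (v : V) : ∃ w, G.Adj v w ∧ c w = c v := by
  classical
  by_contra hcon
  push Not at hcon
  -- the class of `v` is `{v}`
  have hone : ∀ w, c w = c v → w = v := by
    intro w hw
    by_contra hne
    have hr := (h (c v)).1.preconnected ⟨v, rfl⟩ ⟨w, hw⟩
    obtain ⟨p⟩ := hr
    cases p with
    | nil => exact hne rfl
    | cons hadj p =>
      rename_i x
      exact hcon x.1 hadj x.2
  -- the other class
  let b := !(c v)
  have hb : ∀ w, c w = b ↔ w ≠ v := by
    intro w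
    constructor
    · rintro hw rfl
      simp [b] at hw
    · intro hw
      have : c w ≠ c v := fun h' => hw (hone w h')
      show c w = !(c v)
      cases h1 : c w <;> cases h2 : c v <;> simp_all
  have htree := h b
  have hE := htree.card_edgeFinset
  have hsum := (G.induce {w | c w = b}).sum_degrees_eq_twice_card_edges
  have hcardB : Fintype.card {w | c w = b} + 1 = Fintype.card V := by
    have h1 : Fintype.card {w | c w = b} = (univ.filter fun w => c w = b).card := by
      rw [Fintype.card_subtype]
      rfl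
    have h2 : (univ.filter fun w => c w = b) = univ.erase v := by
      ext w
      simp [hb]
    rw [h1, h2, card_erase_of_mem (mem_univ v), card_univ]
    omega
  -- degrees
  have hdeg : ∀ w : {w | c w = b}, 3 ≤ (G.induce {w | c w = b}).degree w +
      (if G.Adj w.1 v then 1 else 0) := by
    intro w
    have h1 : G.degree w.1 ≤ (G.induce {w | c w = b}).degree w + (if G.Adj w.1 v then 1 else 0) := by
      rw [← SimpleGraph.card_neighborFinset_eq_degree, ← SimpleGraph.card_neighborFinset_eq_degree]
      have h2 : G.neighborFinset w.1 ⊆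
          ((G.induce {w | c w = b}).neighborFinset w).image Subtype.val ∪
            (if G.Adj w.1 v then {v} else ∅) := by
        intro x hx
        rw [SimpleGraph.mem_neighborFinset] at hx
        rw [mem_union]
        by_cases hxv : x = v
        · right
          subst hxv
          rw [if_pos hx]
          exact mem_singleton_self _
        · left
          rw [mem_image]
          exact ⟨⟨x, (hb x).2 hxv⟩, by rw [SimpleGraph.mem_neighborFinset]; exact hx, rfl⟩
      refine (card_le_card h2).trans ((card_union_le _ _).trans ?_)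
      gcongr
      · exact card_image_le
      · split_ifs <;> simp
    rw [h3] at h1
    exact h1
  have hs : ∑ w : {w | c w = b}, (3 : ℕ) ≤ ∑ w : {w | c w = b},
      ((G.induce {w | c w = b}).degree w + (if G.Adj w.1 v then 1 else 0)) :=
    sum_le_sum fun w _ => hdeg w
  rw [sum_add_distrib, hsum] at hs
  have hs2 : ∑ w : {w | c w = b}, (if G.Adj w.1 v then 1 else 0) ≤ 3 := by
    rw [← card_filter, ← h3 v, ← SimpleGraph.card_neighborFinset_eq_degree]
    refine card_le_card_of_injOn (fun w => w.1) ?_ (fun x _ y _ hxy => Subtype.ext hxy)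
    intro x hx
    rw [Finset.coe_filter] at hx
    simp only [mem_univ, true_and] at hx
    rw [Finset.mem_coe, SimpleGraph.mem_neighborFinset]
    exact hx.symm
  simp only [sum_const, card_univ, smul_eq_mul] at hs
  omega

/-- the ownership function -/
theorem exists_own (h3 : ∀ v, G.degree v = 3) (c : V → Bool)
    (hm : ∀ v, ∃ w, G.Adj v w ∧ c w = c v) :
    ∃ own : Sym2 V → V, (∀ u v, G.Adj u v → c u ≠ c v → own s(u, v) ∈ s(u, v)) ∧
      ∀ u v w, G.Adj u v → c u ≠ c v → G.Adj u w → c u ≠ c w → own s(u, v) = u →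
        own s(u, w) = u → v = w := by
  classical
  let X := {e : Sym2 V // e ∈ G.edgeSet ∧ ∃ u v, e = s(u, v) ∧ c u ≠ c v}
  let t : X → Finset V := fun e => univ.filter fun v => v ∈ e.1
  have hall : ∀ s : Finset X, s.card ≤ (s.biUnion t).card := by
    intro s
    have hd := card_mul_le_card_mul (s := s) (t := s.biUnion t) (m := 2) (n := 2)
      (fun (e : X) (v : V) => v ∈ e.1) ?_ ?_
    · omega
    · rintro ⟨e, he, u, v, rfl, huv⟩ hes
      have hne : u ≠ v := fun h' => huv (by rw [h'])
      have h1 : ({u, v} : Finset V) ⊆ (s.biUnion t).bipartiteAbove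
          (fun (e : X) (v : V) => v ∈ e.1) ⟨s(u, v), he, u, v, rfl, huv⟩ := by
        intro x hx
        rw [mem_bipartiteAbove, mem_biUnion]
        have hx' : x ∈ s(u, v) := by
          rw [mem_insert, mem_singleton] at hx
          rw [Sym2.mem_iff]
          exact hx
        exact ⟨⟨_, hes, by simp only [t, mem_filter, mem_univ, true_and]; exact hx'⟩, hx'⟩
      calc 2 = ({u, v} : Finset V).card := (card_pair hne).symm
        _ ≤ _ := card_le_card h1
    · intro v _
      obtain ⟨w, hw, hcw⟩ := hm v
      -- the edges at `v` are the neighbours which are not `w`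
      have h1 : (s.bipartiteBelow (fun (e : X) (v : V) => v ∈ e.1) v).card ≤
          ((G.neighborFinset v).erase w).card := by
        refine card_le_card_of_injOn (fun e => if h : v ∈ e.1 then Sym2.Mem.other h else v) ?_ ?_
        · intro e he
          rw [Finset.mem_coe, mem_bipartiteBelow] at he
          obtain ⟨-, hv⟩ := he
          simp only [dif_pos hv]
          have hsp : s(v, Sym2.Mem.other hv) = e.1 := Sym2.other_spec hv
          rw [Finset.mem_coe, mem_erase, SimpleGraph.mem_neighborFinset]
          have hadj : G.Adj v (Sym2.Mem.other hv) := by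
            have := e.2.1
            rw [← hsp] at this
            exact this
          refine ⟨?_, hadj⟩
          intro heq
          obtain ⟨u', v', huv', hc'⟩ := e.2.2
          rw [← hsp, heq] at huv'
          rw [Sym2.eq_iff] at huv'
          rcases huv' with ⟨rfl, rfl⟩ | ⟨rfl, rfl⟩
          · exact hc' hcw.symm
          · exact hc' hcw
        · intro e he e' he' hee
          rw [Finset.mem_coe, mem_bipartiteBelow] at he he'
          simp only [dif_pos he.2, dif_pos he'.2] at hee
          have h1 := Sym2.other_spec he.2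
          have h2 := Sym2.other_spec he'.2
          apply Subtype.ext
          rw [← h1, ← h2, hee]
      rw [card_erase_of_mem (by rw [SimpleGraph.mem_neighborFinset]; exact hw),
        SimpleGraph.card_neighborFinset_eq_degree, h3] at h1
      exact h1
  obtain ⟨f, hinj, hf⟩ := (all_card_le_biUnion_card_iff_exists_injective t).1 hall
  have hX : ∀ u v, G.Adj u v → c u ≠ c v →
      s(u, v) ∈ G.edgeSet ∧ ∃ u' v', s(u, v) = s(u', v') ∧ c u' ≠ c v' :=
    fun u v h h' => ⟨h, u, v, rfl, h'⟩
  let own : Sym2 V → V := fun e =>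
    if h : e ∈ G.edgeSet ∧ ∃ u v, e = s(u, v) ∧ c u ≠ c v then f ⟨e, h⟩ else e.out.1
  have hown : ∀ u v (h : G.Adj u v) (h' : c u ≠ c v), own s(u, v) = f ⟨s(u, v), hX u v h h'⟩ := by
    intro u v h h'
    simp only [own]
    rw [dif_pos (hX u v h h')]
  refine ⟨own, ?_, ?_⟩
  · intro u v h h'
    rw [hown u v h h']
    have := hf ⟨s(u, v), hX u v h h'⟩
    simp only [t, mem_filter, mem_univ, true_and] at this
    exact this
  · intro u v w huv hc huw hc' h1 h2
    rw [hown u v huv hc] at h1
    rw [hown u w huw hc'] at h2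
    have h3 := congrArg Subtype.val (hinj (h1.trans h2.symm))
    simp only at h3
    rw [Sym2.eq_iff] at h3
    rcases h3 with ⟨_, h3⟩ | ⟨h3, h4⟩
    · exact h3
    · exact absurd (h4.symm) (huv.ne)

variable {G}

omit [Fintype V] [DecidableEq V] [DecidableRel G.Adj]

/-- a vertex outside the class `b` has at most one neighbour in `TT b` -/
theorem TT_out {c : V → Bool} {own : Sym2 V → V}
    (ho : ∀ u v, G.Adj u v → c u ≠ c v → own s(u, v) ∈ s(u, v))
    {b : Bool} {u v : V} (hu : c u ≠ b) (h : (TT G c own b).Adj u v) :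
    c v = b ∧ own s(u, v) = u := by
  obtain ⟨hadj, h1 | h1⟩ := h
  · exact absurd h1.1 hu
  · have hv : c v = b := by
      have := h1.1
      cases hcu : c u <;> cases hcv : c v <;> cases b <;> simp_all
    refine ⟨hv, ?_⟩
    have h2 := ho u v hadj h1.1
    rw [Sym2.mem_iff] at h2
    rcases h2 with h2 | h2
    · exact h2
    · rw [h2] at h1
      exact absurd hv h1.2

theorem TT_acyclic {c : V → Bool} {own : Sym2 V → V}
    (ho : ∀ u v, G.Adj u v → c u ≠ c v → own s(u, v) ∈ s(u, v))
    (hi : ∀ u v w, G.Adj u v → c u ≠ c v → G.Adj u w → c u ≠ c w → own s(u, v) = u →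
        own s(u, w) = u → v = w)
    (h : ∀ b, (G.induce {v | c v = b}).IsTree) (b : Bool) : (TT G c own b).IsAcyclic := by
  classical
  intro v p hp
  have hle : TT G c own b ≤ G := fun _ _ h => h.1
  -- all vertices of the cycle are in the class `b`
  have hall : ∀ x ∈ p.support, c x = b := by
    intro x hx
    by_contra hxb
    have h2 := hp.ncard_neighborSet_toSubgraph_eq_two hx
    rw [Set.ncard_eq_two] at h2
    obtain ⟨y, z, hyz, hset⟩ := h2
    have hy : p.toSubgraph.Adj x y := by
      have : y ∈ p.toSubgraph.neighborSet x := by rw [hset]; simp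
      exact this
    have hz : p.toSubgraph.Adj x z := by
      have : z ∈ p.toSubgraph.neighborSet x := by rw [hset]; simp
      exact this
    have hy' := hy.adj_sub
    have hz' := hz.adj_sub
    have h3 := TT_out ho hxb hy'
    have h4 := TT_out ho hxb hz'
    exact hyz (hi x y z hy'.1 (by rw [h3.1]; exact hxb) hz'.1 (by rw [h4.1]; exact hxb) h3.2 h4.2)
  have hp2 : (p.mapLe hle).IsCycle := hp.mapLe hle
  have hall2 : ∀ x ∈ (p.mapLe hle).support, x ∈ {v | c v = b} := by
    intro x hx
    rw [SimpleGraph.Walk.support_mapLe_eq_support] at hx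
    exact hall x hx
  refine (h b).2 ((p.mapLe hle).induce _ hall2) ?_
  have h5 : (((p.mapLe hle).induce _ hall2).map (SimpleGraph.Embedding.induce _).toHom).IsCycle := by
    rw [SimpleGraph.Walk.map_induce]
    exact hp2
  exact (SimpleGraph.Walk.isCycle_map_iff_of_injective (fun x y hxy => Subtype.ext hxy)).1 h5

theorem TT_conn {c : V → Bool} {own : Sym2 V → V}
    (ho : ∀ u v, G.Adj u v → c u ≠ c v → own s(u, v) ∈ s(u, v))
    (h : ∀ b, (G.induce {v | c v = b}).IsTree) (b : Bool) :
    ∀ u v, u ∈ (TT G c own b).support → v ∈ (TT G c own b).support →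
      (TT G c own b).Reachable u v := by
  have key : ∀ x y, c x = b → c y = b → (TT G c own b).Reachable x y := by
    intro x y hx hy
    let f : G.induce {v | c v = b} →g TT G c own b :=
      ⟨fun x => x.1, fun {x y} hxy => ⟨hxy, Or.inl ⟨x.2, y.2⟩⟩⟩
    exact ((h b).1.preconnected ⟨x, hx⟩ ⟨y, hy⟩).map f
  have key2 : ∀ x ∈ (TT G c own b).support, ∃ y, c y = b ∧ (TT G c own b).Reachable x y := by
    intro x hx
    by_cases hxb : c x = b
    · exact ⟨x, hxb, SimpleGraph.Reachable.refl x⟩
    · obtain ⟨y, hy⟩ := hx
      exact ⟨y, (TT_out ho hxb hy).1, hy.reachable⟩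
  intro u v hu hv
  obtain ⟨x, hx, hux⟩ := key2 u hu
  obtain ⟨y, hy, hvy⟩ := key2 v hv
  exact hux.trans ((key x y hx hy).trans hvy.symm)

end gen

variable {V : Type} [Fintype V] [DecidableEq V] (G : SimpleGraph V) [DecidableRel G.Adj]

/-- THE LAST STEP: two induced trees give two edge-disjoint trees. -/
theorem split_of_trees (h3 : ∀ v, G.degree v = 3) (hV : 2 < Fintype.card V) (c : V → Bool)
    (h : ∀ b, (G.induce {v | c v = b}).IsTree) :
    ∃ T₁ T₂ : SimpleGraph V,
      T₁ ⊔ T₂ = G ∧ Disjoint T₁ T₂ ∧
      T₁.IsAcyclic ∧ T₂.IsAcyclic ∧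
      (∀ u v, u ∈ T₁.support → v ∈ T₁.support → T₁.Reachable u v) ∧
      (∀ u v, u ∈ T₂.support → v ∈ T₂.support → T₂.Reachable u v) := by
  obtain ⟨own, ho, hi⟩ := exists_own G h3 c (exists_mono G h3 hV c h)
  refine ⟨TT G c own true, TT G c own false, ?_, ?_, TT_acyclic ho hi h true,
    TT_acyclic ho hi h false, TT_conn ho h true, TT_conn ho h false⟩
  · ext u v
    rw [SimpleGraph.sup_adj]
    constructor
    · rintro (h1 | h1)
      · exact h1.1
      · exact h1.1
    · intro hadj
      by_cases hc : c u = c v
      · cases hcv : c v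
        · exact Or.inr ⟨hadj, Or.inl ⟨by rw [hc, hcv], hcv⟩⟩
        · exact Or.inl ⟨hadj, Or.inl ⟨by rw [hc, hcv], hcv⟩⟩
      · cases hco : c (own s(u, v))
        · exact Or.inl ⟨hadj, Or.inr ⟨hc, by rw [hco]; simp⟩⟩
        · exact Or.inr ⟨hadj, Or.inr ⟨hc, by rw [hco]; simp⟩⟩
  · rw [disjoint_iff]
    ext u v
    rw [SimpleGraph.inf_adj, SimpleGraph.bot_adj, iff_false]
    rintro ⟨⟨_, h1 | h1⟩, ⟨_, h2 | h2⟩⟩
    · rw [h1.1] at h2
      exact absurd h2.1 (by simp)
    · exact h2.1 (h1.1.trans h1.2.symm)
    · exact h1.1 (h2.1.trans h2.2.symm)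
    · cases hco : c (own s(u, v))
      · exact h2.2 hco
      · exact h1.2 hco

end Pool.Agent.JaegerFinal
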