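import Mathlib

/-!
# Graph lemmas: cuts around acyclic sets, and acyclicity by counting
-/

set_option autoImplicit false
set_option linter.unusedSectionVars false
set_option linter.unusedVariables false

namespace Pool.Agent.MP_fc2a59_co.Sq

open Finset

section

variable {V : Type*} [Fintype V] [DecidableEq V] (G : SimpleGraph V) [DecidableRel G.Adj]

/-- ordered crossing pairs -/
def crs (W : Finset V) : Finset (V × V) :=
  (Finset.univ ×ˢ Finset.univ).filter (fun e : V × V => e.1 ∈ W ∧ e.2 ∉ W ∧ G.Adj e.1 e.2)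

/-- `W` contains a cycle -/
def HasCyc (W : Finset V) : Prop :=
  ∃ (v : V) (q : G.Walk v v), q.IsCycle ∧ ∀ w ∈ q.support, w ∈ W

variable {G}

lemma crs_card (W : Finset V) :
    (crs G W).card = ∑ v ∈ W, (univ.filter (fun w => w ∉ W ∧ G.Adj v w)).card := by
  classical
  rw [crs, Finset.card_eq_sum_card_fiberwise (f := Prod.fst) (t := W)]
  · apply sum_congr rfl
    intro v hv
    refine card_bij (fun e _ => e.2) ?_ ?_ ?_
    · intro e he
      simp only [mem_filter, mem_product, mem_univ, true_and] at he ⊢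
      obtain ⟨⟨h1, h2, h3⟩, h4⟩ := he
      exact ⟨h2, h4 ▸ h3⟩
    · intro e he e' he' h
      simp only [mem_filter, mem_product, mem_univ, true_and] at he he'
      exact Prod.ext (he.2.trans he'.2.symm) h
    · intro w hw
      simp only [mem_filter, mem_univ, true_and] at hw
      refine ⟨(v, w), ?_, rfl⟩
      simp only [mem_filter, mem_product, mem_univ, true_and]
      exact ⟨⟨hv, hw.1, hw.2⟩, trivial⟩
  · intro e he
    have he' := mem_coe.1 he
    simp only [mem_filter, mem_product, mem_univ, true_and] at he'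
    exact mem_coe.2 he'.1

lemma acyc_edges {W : Finset V} (hne : W.Nonempty) (hno : ¬ HasCyc G W) :
    ∑ v ∈ W, (univ.filter (fun w => w ∈ W ∧ G.Adj v w)).card + 2 ≤ 2 * W.card := by
  classical
  set H : SimpleGraph (W : Set V) := G.induce (W : Set V) with hH
  have hac : H.IsAcyclic := by
    intro v c hc
    apply hno
    let f : H →g G := ⟨Subtype.val, fun {a b} h => h⟩
    have hf : Function.Injective f := Subtype.val_injective
    refine ⟨f v, c.map f, hc.map hf, ?_⟩
    intro w hw
    rw [SimpleGraph.Walk.support_map, List.mem_map] at hw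
    obtain ⟨x, _, rfl⟩ := hw
    exact x.2
  have : Nonempty (W : Set V) := ⟨⟨hne.choose, hne.choose_spec⟩⟩
  obtain ⟨F, hF1, hF2, hF3⟩ := (SimpleGraph.connected_top (V := (W : Set V))).exists_isTree_le_of_le_of_isAcyclic
    le_top hac
  have h1 := hF3.card_edgeFinset
  have h2 : H.edgeFinset.card ≤ F.edgeFinset.card := card_le_card (by
    intro e he
    rw [SimpleGraph.mem_edgeFinset] at he ⊢
    exact SimpleGraph.edgeSet_mono hF1 he)
  have h3 := H.sum_degrees_eq_twice_card_edges
  have h4 : Fintype.card (W : Set V) = W.card := by simp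
  have h5 : ∑ v ∈ W, (univ.filter (fun w => w ∈ W ∧ G.Adj v w)).card = ∑ v : (W : Set V), H.degree v := by
    rw [← Finset.sum_coe_sort W]
    refine Fintype.sum_congr _ _ ?_
    intro v
    rw [← SimpleGraph.card_neighborFinset_eq_degree]
    symm
    refine card_bij (fun w _ => w.1) ?_ ?_ ?_
    · intro w hw
      rw [SimpleGraph.mem_neighborFinset] at hw
      simp only [mem_filter, mem_univ, true_and]
      exact ⟨w.2, hw⟩
    · intro w _ w' _ h
      exact Subtype.ext h
    · intro w hw
      simp only [mem_filter, mem_univ, true_and] at hw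
      refine ⟨⟨w, hw.1⟩, ?_, rfl⟩
      rw [SimpleGraph.mem_neighborFinset]
      exact hw.2
  rw [h5, h3]
  omega

lemma acyc_cut (hdeg : ∀ v, G.degree v = 3) {W : Finset V} (hne : W.Nonempty)
    (hno : ¬ HasCyc G W) : W.card + 2 ≤ (crs G W).card := by
  classical
  have h1 := acyc_edges hne hno
  have h2 : ∑ v ∈ W, (univ.filter (fun w => w ∈ W ∧ G.Adj v w)).card
      + ∑ v ∈ W, (univ.filter (fun w => w ∉ W ∧ G.Adj v w)).card = 3 * W.card := by
    rw [← sum_add_distrib, mul_comm, ← smul_eq_mul, ← sum_const]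
    apply sum_congr rfl
    intro v _
    rw [← hdeg v, ← SimpleGraph.card_neighborFinset_eq_degree, ← card_union_of_disjoint]
    · congr 1
      ext w
      simp only [mem_union, mem_filter, mem_univ, true_and, SimpleGraph.mem_neighborFinset]
      tauto
    · rw [disjoint_left]
      intro w hw hw'
      simp only [mem_filter, mem_univ, true_and] at hw hw'
      exact hw'.1 hw.1
  rw [crs_card]
  omega

lemma crs_compl (W : Finset V) : (crs G Wᶜ).card = (crs G W).card := by
  classical
  refine card_bij (fun e _ => (e.2, e.1)) ?_ ?_ ?_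
  · intro e he
    simp only [crs, mem_filter, mem_product, mem_univ, true_and, mem_compl, not_not] at he ⊢
    exact ⟨he.2.1, he.1, he.2.2.symm⟩
  · intro e _ e' _ h
    simp only [Prod.mk.injEq] at h
    exact Prod.ext h.2 h.1
  · intro e he
    refine ⟨(e.2, e.1), ?_, rfl⟩
    simp only [crs, mem_filter, mem_product, mem_univ, true_and, mem_compl, not_not] at he ⊢
    exact ⟨he.2.1, he.1, he.2.2.symm⟩

/-- a four-cycle -/
lemma hasCyc_of_square {W : Finset V} {a b c d : V} (h1 : G.Adj a b) (h2 : G.Adj b c)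
    (h3 : G.Adj c d) (h4 : G.Adj d a) (hac : a ≠ c) (hbd : b ≠ d) (ha : a ∈ W) (hb : b ∈ W)
    (hc : c ∈ W) (hd : d ∈ W) : HasCyc G W := by
  refine ⟨a, SimpleGraph.Walk.cons h1 (SimpleGraph.Walk.cons h2 (SimpleGraph.Walk.cons h3
    (SimpleGraph.Walk.cons h4 SimpleGraph.Walk.nil))), ?_, ?_⟩
  · rw [SimpleGraph.Walk.cons_isCycle_iff]
    have e1 := h1.ne
    have e2 := h2.ne
    have e3 := h3.ne
    have e4 := h4.ne
    refine ⟨?_, ?_⟩
    · simp only [SimpleGraph.Walk.cons_isPath_iff, SimpleGraph.Walk.support_cons,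
        SimpleGraph.Walk.support_nil, List.mem_cons, List.not_mem_nil, or_false, not_or,
        SimpleGraph.Walk.IsPath.nil, true_and]
      exact ⟨⟨e4, e3, hac.symm⟩, e2, hbd, e1.symm⟩
    · simp only [SimpleGraph.Walk.edges_cons, SimpleGraph.Walk.edges_nil, List.mem_cons,
        List.not_mem_nil, or_false, not_or, Sym2.eq_iff, Sym2.mk]
      refine ⟨⟨fun h => e1 h.1, fun h => hac h.1⟩, ⟨fun h => hac h.1, fun h => e4 h.1.symm⟩,
        ⟨fun h => e1 h.2.symm, fun h => hbd h.2⟩⟩
  · intro w hw
    simp only [SimpleGraph.Walk.support_cons, SimpleGraph.Walk.support_nil, List.mem_cons,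
      List.not_mem_nil, or_false] at hw
    rcases hw with rfl | rfl | rfl | rfl | rfl <;> assumption

end

end Pool.Agent.MP_fc2a59_co.Sq
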