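import Mathlib

/-!
# Acyclicity by counting
-/

set_option autoImplicit false
set_option linter.unusedSectionVars false
set_option linter.unusedVariables false

namespace Pool.Agent.MP_fc2a59_co.Sq

open Finset

section

variable {V : Type*} [Fintype V] [DecidableEq V]

open Classical in
/-- number of vertices touched by `T` -/
noncomputable def suppF (T : SimpleGraph V) : Finset V := univ.filter (fun v => v ∈ T.support)

/-- join all untouched vertices to `r` -/
def starExt (T : SimpleGraph V) (r : V) : SimpleGraph V where
  Adj v w := T.Adj v w ∨ (v = r ∧ w ∉ T.support ∧ w ≠ r) ∨ (w = r ∧ v ∉ T.support ∧ v ≠ r)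
  symm := ⟨by
    rintro v w (h | h | h)
    · exact Or.inl h.symm
    · exact Or.inr (Or.inr h)
    · exact Or.inr (Or.inl h)⟩
  loopless := ⟨by
    rintro v (h | h | h)
    · exact T.loopless.irrefl v h
    · exact h.2.2 h.1
    · exact h.2.2 h.1⟩

lemma starExt_connected (T : SimpleGraph V) (r : V) (hr : r ∈ T.support)
    (hconn : ∀ u v, u ∈ T.support → v ∈ T.support → T.Reachable u v) :
    (starExt T r).Connected := by
  have hle : T ≤ starExt T r := fun v w h => Or.inl h
  have h1 : ∀ v, (starExt T r).Reachable r v := by
    intro v
    by_cases hv : v ∈ T.support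
    · exact (hconn r v hr hv).mono hle
    · refine SimpleGraph.Adj.reachable (Or.inr (Or.inl ⟨rfl, hv, ?_⟩))
      rintro rfl; exact hv hr
  haveI : Nonempty V := ⟨r⟩
  exact SimpleGraph.Connected.mk (fun u v => (h1 u).symm.trans (h1 v))

open Classical in
lemma starExt_card (T : SimpleGraph V) (r : V) (hr : r ∈ T.support) :
    (starExt T r).edgeFinset.card + (suppF T).card ≤ T.edgeFinset.card + Fintype.card V := by
  have hsub : (starExt T r).edgeFinset ⊆ T.edgeFinset ∪ ((suppF T)ᶜ).image (fun v => s(r, v)) := by
    intro e he
    rw [SimpleGraph.mem_edgeFinset] at he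
    induction e using Sym2.ind with
    | _ v w =>
      rw [SimpleGraph.mem_edgeSet] at he
      rw [mem_union]
      rcases he with h | h | h
      · left; rw [SimpleGraph.mem_edgeFinset, SimpleGraph.mem_edgeSet]; exact h
      · right
        rw [mem_image]
        refine ⟨w, ?_, by rw [h.1]⟩
        simp only [mem_compl, suppF, mem_filter, mem_univ, true_and]
        exact h.2.1
      · right
        rw [mem_image]
        refine ⟨v, ?_, by rw [h.1]; exact Sym2.eq_swap⟩
        simp only [mem_compl, suppF, mem_filter, mem_univ, true_and]
        exact h.2.1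
  have h1 := card_le_card hsub
  have h2 := card_union_le T.edgeFinset (((suppF T)ᶜ).image (fun v => s(r, v)))
  have h3 : (((suppF T)ᶜ).image (fun v => s(r, v))).card ≤ ((suppF T)ᶜ).card := card_image_le
  have h4 := card_compl_add_card (suppF T)
  omega

open Classical in
/-- two edge-disjoint connected graphs covering `G` whose supports are large enough are trees -/
theorem acyclic_of_count (G : SimpleGraph V) (T : Bool → SimpleGraph V)
    (hsup : T true ⊔ T false = G) (hdis : Disjoint (T true) (T false))
    (hne : ∀ c, (T c).support.Nonempty)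
    (hconn : ∀ c u v, u ∈ (T c).support → v ∈ (T c).support → (T c).Reachable u v)
    (hcount : G.edgeFinset.card + 2 ≤ (suppF (T true)).card + (suppF (T false)).card) :
    ∀ c, (T c).IsAcyclic := by
  have hE : (T true).edgeFinset.card + (T false).edgeFinset.card = G.edgeFinset.card := by
    rw [← card_union_of_disjoint]
    · congr 1
      ext e
      rw [mem_union, SimpleGraph.mem_edgeFinset, SimpleGraph.mem_edgeFinset, SimpleGraph.mem_edgeFinset,
        ← hsup]
      simp [SimpleGraph.edgeSet_sup]
    · rw [Finset.disjoint_left]
      intro e he he'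
      rw [SimpleGraph.mem_edgeFinset] at he he'
      have := SimpleGraph.disjoint_edgeSet.2 hdis
      exact Set.disjoint_left.1 this he he'
  have key : ∀ c, ∃ r, (starExt (T c) r).Connected ∧
      (starExt (T c) r).edgeFinset.card + (suppF (T c)).card ≤ (T c).edgeFinset.card + Fintype.card V ∧
      Fintype.card V ≤ (starExt (T c) r).edgeFinset.card + 1 := by
    intro c
    obtain ⟨r, hr⟩ := hne c
    have h1 := starExt_connected (T c) r hr (hconn c)
    refine ⟨r, h1, starExt_card (T c) r hr, ?_⟩
    have h2 := h1.card_vert_le_card_edgeSet_add_one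
    rw [Nat.card_eq_fintype_card, Nat.card_eq_fintype_card, ← SimpleGraph.edgeFinset_card] at h2
    exact h2
  obtain ⟨rt, at1, at2, at3⟩ := key true
  obtain ⟨rf, af1, af2, af3⟩ := key false
  have fin : ∀ c r, (starExt (T c) r).Connected →
      (starExt (T c) r).edgeFinset.card + 1 = Fintype.card V → (T c).IsAcyclic := by
    intro c r h1 h2
    have h3 : (starExt (T c) r).IsTree := by
      rw [SimpleGraph.isTree_iff_connected_and_card]
      refine ⟨h1, ?_⟩
      rw [Nat.card_eq_fintype_card, Nat.card_eq_fintype_card, ← SimpleGraph.edgeFinset_card]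
      exact h2
    exact h3.isAcyclic.anti (fun v w h => Or.inl h)
  intro c
  cases c
  · exact fin false rf af1 (by omega)
  · exact fin true rt at1 (by omega)

end

end Pool.Agent.MP_fc2a59_co.Sq
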