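import Pool.Agent.Lib.MP_fc2a59_co.SqBlk
import Pool.Agent.Lib.MP_fc2a59_co.SqCount

/-!
# Assembly: from colours of the real edges to two edge-disjoint trees
-/

set_option autoImplicit false
set_option linter.unusedSectionVars false
set_option linter.unusedVariables false

namespace Pool.Agent.MP_fc2a59_co.Sq

open Finset

/-- colours of the internal edges; `p`, `q` are the colours of the edges (or long rails) `01`, `12`;
opposite ones have different colours -/
def ecT (J p q : Bool) : Fin 6 → Fin 6 → Bool :=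
  match J with
  | false => ![![false, p, false, !q, false, false], ![p, false, q, false, false, false],
      ![false, q, false, !p, false, false], ![!q, false, !p, false, false, false],
      ![false, false, false, false, false, false], ![false, false, false, false, false, false]]
  | true => ![![false, p, false, false, !q, false], ![p, false, false, false, false, q],
      ![false, false, false, !p, false, q], ![false, false, !p, false, !q, false],
      ![!q, false, false, !q, false, true], ![false, q, q, false, true, false]]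

lemma ecT_symm : ∀ J p q a b, ecT J p q a b = ecT J p q b a := by decide

/-- the position has an internal edge of colour `c` -/
def actI (J p q c : Bool) (a : Fin 6) : Bool := decide (∃ b, nbT J a b = true ∧ ecT J p q a b = c)

lemma actI_iff {J p q c : Bool} {a : Fin 6} :
    actI J p q c a = true ↔ ∃ b, nbT J a b = true ∧ ecT J p q a b = c := by
  simp [actI]

/-- the root of the colour `c` -/
def rt (p q c : Bool) : Fin 6 := if p = q then (if c = p then 1 else 3) else (if c = p then 0 else 2)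

lemma to_root : ∀ J p q c a, actI J p q c a = true → a = rt p q c ∨
    ∃ b, (nbT J a b = true ∧ ecT J p q a b = c) ∧
      (b = rt p q c ∨ ∃ b', (nbT J b b' = true ∧ ecT J p q b b' = c) ∧ b' = rt p q c) := by decide

lemma both_card : ∀ J p q, (univ.filter (fun a => vl J a = true)).card ≤
    2 * (univ.filter (fun a => (actI J p q true a && actI J p q false a) = true)).card := by decide

lemma act_vl {J p q c : Bool} {a : Fin 6} (h : actI J p q c a = true) : vl J a = true := by
  obtain ⟨b, hb, _⟩ := actI_iff.1 h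
  exact (nbT_vl _ _ _ hb).1

section

variable {V ι : Type*} [Fintype V] [DecidableEq V] {G : SimpleGraph V} [DecidableRel G.Adj]
variable {ψ : ι → Fin 6 → V} {J : ι → Bool}

/-- what is needed for the assembly -/
structure Asm (G : SimpleGraph V) [DecidableRel G.Adj] (ψ : ι → Fin 6 → V) (J : ι → Bool)
    (X : Finset V) (p q : ι → Bool) (rc : V → V → Bool) : Prop where
  blk : Blk G ψ J
  rsym : ∀ v w, rc v w = rc w v
  loc : ∀ i (a : Fin 6), a.val < 4 → ψ i a ∉ X → ∀ w, G.Adj (ψ i a) w → ¬ Itn ψ J (ψ i a) w →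
    actI (J i) (p i) (q i) (rc (ψ i a) w) a = true
  spc : ∀ x ∈ X, ∃ i, ∃ a : Fin 6, ∃ w, a.val < 4 ∧ x = ψ i a ∧ G.Adj x w ∧ ¬ Itn ψ J x w ∧
    ¬ Cv ψ J w ∧ actI (J i) (p i) (q i) (rc x w) a = false
  span : ∀ c (S : Set (ι ⊕ V)), (∃ v, nd ψ J v ∈ S) → (∃ v, nd ψ J v ∉ S) →
    ∃ v w, G.Adj v w ∧ ¬ Itn ψ J v w ∧ v ∉ X ∧ w ∉ X ∧ nd ψ J v ∈ S ∧ nd ψ J w ∉ S ∧ rc v w = c

open Classical in
/-- colours of internal edges -/
noncomputable def ic (ψ : ι → Fin 6 → V) (J : ι → Bool) (p q : ι → Bool) (v w : V) : Bool :=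
  decide (∃ i a b, nbT (J i) a b = true ∧ v = ψ i a ∧ w = ψ i b ∧
    ecT (J i) (p i) (q i) a b = true)

open Classical in
/-- colours of edges -/
noncomputable def ec (ψ : ι → Fin 6 → V) (J : ι → Bool) (p q : ι → Bool) (rc : V → V → Bool)
    (v w : V) : Bool :=
  if Itn ψ J v w then ic ψ J p q v w else rc v w

variable {X : Finset V} {p q : ι → Bool} {rc : V → V → Bool}

lemma ic_symm (v w : V) : ic ψ J p q v w = ic ψ J p q w v := by
  unfold ic
  congr 1
  apply propext
  constructor
  · rintro ⟨i, a, b, h1, h2, h3, h4⟩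
    exact ⟨i, b, a, by rw [nbT_symm]; exact h1, h3, h2, by rw [ecT_symm]; exact h4⟩
  · rintro ⟨i, a, b, h1, h2, h3, h4⟩
    exact ⟨i, b, a, by rw [nbT_symm]; exact h1, h3, h2, by rw [ecT_symm]; exact h4⟩

lemma Blk.ic_eq (h : Blk G ψ J) {i : ι} {a b : Fin 6} (hab : nbT (J i) a b = true) :
    ic ψ J p q (ψ i a) (ψ i b) = ecT (J i) (p i) (q i) a b := by
  classical
  unfold ic
  rw [Bool.eq_iff_iff, decide_eq_true_iff]
  constructor
  · rintro ⟨j, a', b', h1, h2, h3, h4⟩
    obtain ⟨rfl, rfl⟩ := h.inj i j a a' (nbT_vl _ _ _ hab).1 (nbT_vl _ _ _ h1).1 h2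
    obtain ⟨_, rfl⟩ := h.inj i i b b' (nbT_vl _ _ _ hab).2 (nbT_vl _ _ _ h1).2 h3
    exact h4
  · intro h4
    exact ⟨i, a, b, hab, rfl, rfl, h4⟩

lemma ec_symm (hr : ∀ v w, rc v w = rc w v) (v w : V) : ec ψ J p q rc v w = ec ψ J p q rc w v := by
  unfold ec
  by_cases h : Itn ψ J v w
  · rw [if_pos h, if_pos h.symm, ic_symm]
  · rw [if_neg h, if_neg (fun h' => h h'.symm), hr]

lemma Blk.ec_int (h : Blk G ψ J) {i : ι} {a b : Fin 6} (hab : nbT (J i) a b = true) :
    ec ψ J p q rc (ψ i a) (ψ i b) = ecT (J i) (p i) (q i) a b := by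
  unfold ec
  rw [if_pos ⟨i, a, b, hab, rfl, rfl⟩, h.ic_eq hab]

lemma ec_real {v w : V} (h : ¬ Itn ψ J v w) : ec ψ J p q rc v w = rc v w := by
  unfold ec
  rw [if_neg h]

/-- the two graphs -/
def TT (h : Asm G ψ J X p q rc) (c : Bool) : SimpleGraph V where
  Adj v w := G.Adj v w ∧ ec ψ J p q rc v w = c
  symm := ⟨by
    rintro v w ⟨h1, h2⟩
    exact ⟨h1.symm, by rw [ec_symm h.rsym]; exact h2⟩⟩
  loopless := ⟨fun v h => h.1.ne rfl⟩

namespace Asm

variable (h : Asm G ψ J X p q rc)

include h in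
lemma adj_int {c : Bool} {i : ι} {a b : Fin 6} (hab : nbT (J i) a b = true)
    (hc : ecT (J i) (p i) (q i) a b = c) : (TT h c).Adj (ψ i a) (ψ i b) :=
  ⟨h.blk.adj i a b hab, by rw [h.blk.ec_int hab]; exact hc⟩

lemma adj_real {c : Bool} {v w : V} (h1 : G.Adj v w) (h2 : ¬ Itn ψ J v w) (h3 : rc v w = c) :
    (TT h c).Adj v w := ⟨h1, by rw [ec_real h2]; exact h3⟩

lemma reach_root {c : Bool} {i : ι} {a : Fin 6} (ha : actI (J i) (p i) (q i) c a = true) :
    (TT h c).Reachable (ψ i a) (ψ i (rt (p i) (q i) c)) := by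
  rcases to_root _ _ _ _ _ ha with e | ⟨b, ⟨h1, h2⟩, e | ⟨b', ⟨h3, h4⟩, e⟩⟩
  · rw [e]
  · rw [← e]
    exact (h.adj_int h1 h2).reachable
  · rw [← e]
    exact (h.adj_int h1 h2).reachable.trans (h.adj_int h3 h4).reachable

/-- active vertices -/
def Act (ψ : ι → Fin 6 → V) (J p q : ι → Bool) (c : Bool) (v : V) : Prop :=
  ¬ Cv ψ J v ∨ ∃ i a, v = ψ i a ∧ actI (J i) (p i) (q i) c a = true

lemma same_node {c : Bool} {v w : V} (hv : Act ψ J p q c v) (hw : Act ψ J p q c w)
    (hn : nd ψ J v = nd ψ J w) : (TT h c).Reachable v w := by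
  rcases hv with hv | ⟨i, a, rfl, ha⟩
  · rw [nd_unc hv] at hn
    have := (h.blk.nd_inr.1 hn.symm).1
    rw [this]
  · rw [h.blk.nd_pos (act_vl ha)] at hn
    rcases hw with hw | ⟨j, b, rfl, hb⟩
    · rw [nd_unc hw] at hn
      cases hn
    · rw [h.blk.nd_pos (act_vl hb)] at hn
      obtain rfl := Sum.inl_injective hn
      exact (h.reach_root ha).trans (h.reach_root hb).symm

include h in
lemma act_of_real {c : Bool} {v w : V} (h1 : G.Adj v w) (h2 : ¬ Itn ψ J v w) (h3 : rc v w = c)
    (hX : v ∉ X) : Act ψ J p q c v := by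
  by_cases hv : Cv ψ J v
  · obtain ⟨i, a, ha, rfl⟩ := hv
    right
    refine ⟨i, a, rfl, ?_⟩
    rw [← h3]
    refine h.loc i a ?_ hX w h1 h2
    by_contra hcon
    exact h2 (h.blk.no_outer ha hcon h1)
  · exact Or.inl hv

lemma reach_act {c : Bool} {v w : V} (hv : Act ψ J p q c v) (hw : Act ψ J p q c w) :
    (TT h c).Reachable v w := by
  let S : Set (ι ⊕ V) := {k | ∃ x, Act ψ J p q c x ∧ nd ψ J x = k ∧ (TT h c).Reachable v x}
  have hvS : nd ψ J v ∈ S := ⟨v, hv, rfl, SimpleGraph.Reachable.refl _⟩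
  have hall : nd ψ J w ∈ S := by
    by_contra hcon
    obtain ⟨x, y, h1, h2, h3, h4, h5, h6, h7⟩ := h.span c S ⟨v, hvS⟩ ⟨w, hcon⟩
    apply h6
    obtain ⟨x', hx', hn, hr⟩ := h5
    have ax := h.act_of_real h1 h2 h7 h3
    have h8 : rc y x = c := by rw [h.rsym]; exact h7
    have ay := h.act_of_real h1.symm (fun e => h2 e.symm) h8 h4
    exact ⟨y, ay, rfl, (hr.trans (h.same_node hx' ax hn)).trans (h.adj_real h1 h2 h7).reachable⟩
  obtain ⟨x, hx, hn, hr⟩ := hall
  exact hr.trans (h.same_node hx hw hn)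

/-- every vertex of the support is active or adjacent to an active vertex -/
lemma near_act {c : Bool} {v : V} (hv : v ∈ (TT h c).support) :
    ∃ w, Act ψ J p q c w ∧ (TT h c).Reachable v w := by
  obtain ⟨w, hw1, hw2⟩ := (SimpleGraph.mem_support _).1 hv
  by_cases hc : Cv ψ J v
  · obtain ⟨i, a, ha, rfl⟩ := hc
    by_cases hi : Itn ψ J (ψ i a) w
    · obtain ⟨b, hb, rfl⟩ := (h.blk.itn_iff ha).1 hi
      refine ⟨_, Or.inr ⟨i, a, rfl, ?_⟩, SimpleGraph.Reachable.refl _⟩
      rw [actI_iff]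
      exact ⟨b, hb, by rw [← h.blk.ec_int hb]; exact hw2⟩
    · rw [ec_real hi] at hw2
      by_cases hX : ψ i a ∈ X
      · obtain ⟨j, b, y, h1, h2, h3, h4, h5, h6⟩ := h.spc _ hX
        obtain ⟨o, ho⟩ := h.blk.outer
        have ha4 : a.val < 4 := by
          by_contra hcon
          exact hi (h.blk.no_outer ha hcon hw1)
        have e1 := (ho i a ha4).2 w hw1 hi
        have e2 := (ho i a ha4).2 y h3 h4
        refine ⟨w, Or.inl ?_, (h.adj_real hw1 hi hw2).reachable⟩
        rw [e1, ← e2]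
        exact h5
      · exact ⟨_, h.act_of_real hw1 hi hw2 hX, SimpleGraph.Reachable.refl _⟩
  · exact ⟨v, Or.inl hc, SimpleGraph.Reachable.refl _⟩

lemma conn {c : Bool} {v w : V} (hv : v ∈ (TT h c).support) (hw : w ∈ (TT h c).support) :
    (TT h c).Reachable v w := by
  obtain ⟨v', h1, h2⟩ := h.near_act hv
  obtain ⟨w', h3, h4⟩ := h.near_act hw
  exact (h2.trans (h.reach_act h1 h3)).trans h4.symm

lemma supp_of_act {c : Bool} {i : ι} {a : Fin 6} (ha : actI (J i) (p i) (q i) c a = true) :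
    ψ i a ∈ (TT h c).support := by
  obtain ⟨b, h1, h2⟩ := actI_iff.1 ha
  exact (SimpleGraph.mem_support _).2 ⟨_, h.adj_int h1 h2⟩

lemma supp_of_unc {c : Bool} {u u' : V} (hu : ¬ Cv ψ J u) (hne : u' ≠ u) :
    u ∈ (TT h c).support := by
  have h1 : nd ψ J u ∈ ({nd ψ J u} : Set (ι ⊕ V)) := rfl
  have h2 : nd ψ J u' ∉ ({nd ψ J u} : Set (ι ⊕ V)) := by
    intro e
    have e' : nd ψ J u' = nd ψ J u := e
    rw [nd_unc hu] at e'
    exact hne (h.blk.nd_inr.1 e').1
  obtain ⟨x, y, a1, a2, a3, a4, a5, a6, a7⟩ := h.span c _ ⟨u, h1⟩ ⟨u', h2⟩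
  have e' : nd ψ J x = nd ψ J u := a5
  rw [nd_unc hu] at e'
  have := (h.blk.nd_inr.1 e').1
  subst this
  exact (SimpleGraph.mem_support _).2 ⟨y, h.adj_real a1 a2 a7⟩

lemma supp_X {c : Bool} {x : V} (hx : x ∈ X) : x ∈ (TT h c).support := by
  obtain ⟨i, a, w, h1, rfl, h3, h4, h5, h6⟩ := h.spc _ hx
  by_cases hc : rc (ψ i a) w = c
  · exact (SimpleGraph.mem_support _).2 ⟨w, h.adj_real h3 h4 hc⟩
  · have hex : ∀ (J p q c d : Bool) (a : Fin 6), a.val < 4 → actI J p q c a = false → c ≠ d →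
        actI J p q d a = true := by decide
    exact h.supp_of_act (hex _ _ _ _ _ a h1 h6 hc)

open Classical in
lemma count [Fintype ι] [DecidableEq ι]
    (h1 : 2 ≤ (univ.filter (fun u => ¬ Cv ψ J u)).card)
    (h2 : 4 ≤ (univ.filter (fun u => ¬ Cv ψ J u)).card + 2 * X.card) :
    Fintype.card V + 4 ≤ 2 * (suppF (TT h true) ∩ suppF (TT h false)).card := by
  set U := univ.filter (fun u => ¬ Cv ψ J u) with hU
  set Pv : Finset (ι × Fin 6) := univ.filter (fun x => vl (J x.1) x.2 = true) with hPv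
  set Pb : Finset (ι × Fin 6) := univ.filter (fun x => (actI (J x.1) (p x.1) (q x.1) true x.2 &&
    actI (J x.1) (p x.1) (q x.1) false x.2) = true) with hPb
  have hsum : ∀ (Q : ι → Fin 6 → Bool), (univ.filter (fun x : ι × Fin 6 => Q x.1 x.2 = true)).card =
      ∑ i, (univ.filter (fun a => Q i a = true)).card := by
    intro Q
    rw [card_filter, Fintype.sum_prod_type]
    exact sum_congr rfl fun i _ => by rw [card_filter]
  have e1 : Pv.card ≤ 2 * Pb.card := by
    rw [hPv, hPb, hsum (fun i a => vl (J i) a), hsum (fun i a =>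
      actI (J i) (p i) (q i) true a && actI (J i) (p i) (q i) false a), mul_sum]
    exact sum_le_sum fun i _ => both_card (J i) (p i) (q i)
  have hPb' : ∀ x ∈ Pb, actI (J x.1) (p x.1) (q x.1) true x.2 = true ∧
      actI (J x.1) (p x.1) (q x.1) false x.2 = true := by
    intro x hx
    rw [hPb, mem_filter, Bool.and_eq_true] at hx
    exact hx.2
  have injv : Set.InjOn (fun x : ι × Fin 6 => ψ x.1 x.2) (Pv : Set (ι × Fin 6)) := by
    intro x hx y hy hxy
    have hx' := (mem_filter.1 (mem_coe.1 hx)).2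
    have hy' := (mem_filter.1 (mem_coe.1 hy)).2
    obtain ⟨a1, a2⟩ := h.blk.inj _ _ _ _ hx' hy' hxy
    exact Prod.ext a1 a2
  have hsub : Pb ⊆ Pv := by
    intro x hx
    have hx' := hPb' x hx
    rw [hPv, mem_filter]
    exact ⟨mem_univ _, act_vl hx'.1⟩
  have e2 : Fintype.card V = U.card + Pv.card := by
    rw [← card_image_of_injOn injv, ← card_union_of_disjoint, ← card_univ]
    · congr 1
      ext v
      simp only [mem_univ, true_iff, mem_union, mem_image, hU, mem_filter, true_and, hPv, Prod.exists]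
      by_cases hv : Cv ψ J v
      · right
        obtain ⟨i, a, ha, rfl⟩ := hv
        exact ⟨i, a, ha, rfl⟩
      · exact Or.inl hv
    · rw [disjoint_left]
      intro v hv hv'
      rw [hU, mem_filter] at hv
      obtain ⟨x, hx, rfl⟩ := mem_image.1 hv'
      rw [hPv, mem_filter] at hx
      exact hv.2 ⟨x.1, x.2, hx.2, rfl⟩
  have e3 : U.card + Pb.card + X.card ≤ (suppF (TT h true) ∩ suppF (TT h false)).card := by
    have c1 : (U ∪ Pb.image (fun x : ι × Fin 6 => ψ x.1 x.2)).card = U.card + Pb.card := by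
      rw [card_union_of_disjoint, card_image_of_injOn (injv.mono (by exact_mod_cast hsub))]
      rw [disjoint_left]
      intro v hv hv'
      rw [hU, mem_filter] at hv
      obtain ⟨x, hx, rfl⟩ := mem_image.1 hv'
      have := hsub hx
      rw [hPv, mem_filter] at this
      exact hv.2 ⟨x.1, x.2, this.2, rfl⟩
    have c2 : ((U ∪ Pb.image (fun x : ι × Fin 6 => ψ x.1 x.2)) ∪ X).card = U.card + Pb.card + X.card := by
      rw [card_union_of_disjoint, c1]
      rw [disjoint_left]
      intro v hv hvX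
      obtain ⟨i, a, w, b1, rfl, b3, b4, b5, b6⟩ := h.spc _ hvX
      rcases mem_union.1 hv with hv | hv
      · rw [hU, mem_filter] at hv
        exact hv.2 ⟨i, a, vl_cn _ _ b1, rfl⟩
      · obtain ⟨x, hx, hxe⟩ := mem_image.1 hv
        have hx' := hsub hx
        rw [hPv, mem_filter] at hx'
        obtain ⟨d1, d2⟩ := h.blk.inj _ _ _ _ hx'.2 (vl_cn _ _ b1) hxe
        have hx2 := hPb' x hx
        rw [d1, d2] at hx2
        cases hr : rc (ψ i a) w
        · rw [hr, hx2.2] at b6
          exact absurd b6 (by simp)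
        · rw [hr, hx2.1] at b6
          exact absurd b6 (by simp)
    rw [← c2]
    apply card_le_card
    intro v hv
    have hmem : ∀ c, v ∈ suppF (TT h c) := by
      intro c
      unfold suppF
      rw [mem_filter]
      refine ⟨mem_univ _, ?_⟩
      rcases mem_union.1 hv with hv | hv
      · rcases mem_union.1 hv with hv | hv
        · have hv' := hv
          rw [hU, mem_filter] at hv'
          obtain ⟨u', hu', hne⟩ := exists_mem_ne (by omega : 1 < U.card) v
          exact h.supp_of_unc hv'.2 hne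
        · obtain ⟨x, hx, rfl⟩ := mem_image.1 hv
          have hx2 := hPb' x hx
          cases c
          · exact h.supp_of_act hx2.2
          · exact h.supp_of_act hx2.1
      · exact h.supp_X hv
    exact mem_inter.2 ⟨hmem _, hmem _⟩
  omega

include h in
open Classical in
/-- the conclusion -/
theorem final [Fintype ι] [DecidableEq ι]
    (h1 : 2 ≤ (univ.filter (fun u => ¬ Cv ψ J u)).card)
    (h2 : 4 ≤ (univ.filter (fun u => ¬ Cv ψ J u)).card + 2 * X.card) :
    ∃ T₁ T₂ : SimpleGraph V,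
      T₁ ⊔ T₂ = G ∧ Disjoint T₁ T₂ ∧
      T₁.IsAcyclic ∧ T₂.IsAcyclic ∧
      (∀ u v, u ∈ T₁.support → v ∈ T₁.support → T₁.Reachable u v) ∧
      (∀ u v, u ∈ T₂.support → v ∈ T₂.support → T₂.Reachable u v) := by
  classical
  have hsup : TT h true ⊔ TT h false = G := by
    ext v w
    rw [SimpleGraph.sup_adj]
    constructor
    · rintro (h' | h') <;> exact h'.1
    · intro h'
      cases hc : ec ψ J p q rc v w
      · exact Or.inr ⟨h', hc⟩
      · exact Or.inl ⟨h', hc⟩
  have hdis : Disjoint (TT h true) (TT h false) := by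
    rw [disjoint_iff]
    ext v w
    rw [SimpleGraph.inf_adj, SimpleGraph.bot_adj, iff_false]
    rintro ⟨⟨_, a⟩, ⟨_, b⟩⟩
    rw [a] at b
    cases b
  have hne : ∀ c, (TT h c).support.Nonempty := by
    intro c
    obtain ⟨u, hu⟩ := card_pos.1 (by omega : 0 < (univ.filter (fun u => ¬ Cv ψ J u)).card)
    obtain ⟨u', hu', hne⟩ := exists_mem_ne (by omega : 1 < (univ.filter (fun u => ¬ Cv ψ J u)).card) u
    exact ⟨u, h.supp_of_unc (mem_filter.1 hu).2 hne⟩
  have hconn : ∀ c u v, u ∈ (TT h c).support → v ∈ (TT h c).support → (TT h c).Reachable u v :=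
    fun c u v hu hv => h.conn hu hv
  have hcnt := h.count h1 h2
  have hun : suppF (TT h true) ∪ suppF (TT h false) = univ := by
    ext v
    simp only [mem_union, mem_univ, iff_true]
    have hd := h.blk.deg v
    have : 0 < (G.neighborFinset v).card := by
      rw [SimpleGraph.card_neighborFinset_eq_degree, hd]; omega
    obtain ⟨w, hw⟩ := card_pos.1 this
    rw [SimpleGraph.mem_neighborFinset] at hw
    unfold suppF
    rw [mem_filter, mem_filter]
    cases hc : ec ψ J p q rc v w
    · exact Or.inr ⟨mem_univ _, (SimpleGraph.mem_support _).2 ⟨w, hw, hc⟩⟩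
    · exact Or.inl ⟨mem_univ _, (SimpleGraph.mem_support _).2 ⟨w, hw, hc⟩⟩
  have hcard := card_union_add_card_inter (suppF (TT h true)) (suppF (TT h false))
  rw [hun, card_univ] at hcard
  have hE := G.sum_degrees_eq_twice_card_edges
  have hE2 : ∑ v : V, G.degree v = 3 * Fintype.card V := by
    rw [sum_congr rfl fun v _ => h.blk.deg v]
    simp [mul_comm]
  have hcount : G.edgeFinset.card + 2 ≤ (suppF (TT h true)).card + (suppF (TT h false)).card := by
    omega
  have e : ∀ (i1 i2 : Fintype G.edgeSet),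
      (@SimpleGraph.edgeFinset V G i1).card = (@SimpleGraph.edgeFinset V G i2).card := by
    intro i1 i2
    have hi := Subsingleton.elim i1 i2
    subst hi
    rfl
  have hac := acyclic_of_count G (fun c => TT h c) hsup hdis hne hconn
    (le_trans (le_of_eq (congrArg (· + 2) (e _ _))) hcount)
  exact ⟨TT h true, TT h false, hsup, hdis, hac true, hac false, hconn true, hconn false⟩

end Asm

end

end Pool.Agent.MP_fc2a59_co.Sq
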