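import Pool.Agent.Lib.MP_fc2a59_co.SqSol
import Pool.Agent.Lib.MP_fc2a59_co.SqAcyc

/-!
# The four-regular structure of a cubic graph with disjoint squares and 2x3 ladders
-/

set_option autoImplicit false
set_option linter.unusedSectionVars false
set_option linter.unusedVariables false

namespace Pool.Agent.MP_fc2a59_co.Sq

open Finset

/-- fixed-point free involution on a set of even size -/
lemma inv_exists {α : Type*} [DecidableEq α] (T : Finset α) (hT : Even T.card) :
    ∃ g : α → α, ∀ a ∈ T, g a ∈ T ∧ g (g a) = a ∧ g a ≠ a := by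
  classical
  let e := T.equivFin
  refine ⟨fun a => if h : a ∈ T then (e.symm (Fin.rev (e ⟨a, h⟩))).1 else a, ?_⟩
  intro a ha
  have h1 : (e.symm (Fin.rev (e ⟨a, ha⟩))).1 ∈ T := (e.symm (Fin.rev (e ⟨a, ha⟩))).2
  refine ⟨?_, ?_, ?_⟩
  · simp only [dif_pos ha]; exact h1
  · simp only [dif_pos ha, dif_pos h1]
    have : (⟨(e.symm (Fin.rev (e ⟨a, ha⟩))).1, h1⟩ : {x // x ∈ T}) = e.symm (Fin.rev (e ⟨a, ha⟩)) :=
      Subtype.ext rfl
    rw [this, Equiv.apply_symm_apply, Fin.rev_rev, Equiv.symm_apply_apply]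
  · simp only [dif_pos ha]
    intro hcon
    have h2 : e.symm (Fin.rev (e ⟨a, ha⟩)) = ⟨a, ha⟩ := Subtype.ext hcon
    have h3 : Fin.rev (e ⟨a, ha⟩) = e ⟨a, ha⟩ := by
      have := congrArg e h2
      rwa [Equiv.apply_symm_apply] at this
    have h4 := congrArg Fin.val h3
    rw [Fin.val_rev] at h4
    have h5 := (e ⟨a, ha⟩).isLt
    obtain ⟨k, hk⟩ := hT
    omega

/-- valid positions of a block -/
def vl (J : Bool) (a : Fin 6) : Bool := J || decide (a.val < 4)

/-- internal edges of a block: the square `0123`, or the ladder with the rungs `01`, `23`, `45` and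
the rails `1-5-2`, `3-4-0` -/
def nbT (J : Bool) : Fin 6 → Fin 6 → Bool :=
  match J with
  | false => ![![false, true, false, true, false, false], ![true, false, true, false, false, false],
      ![false, true, false, true, false, false], ![true, false, true, false, false, false],
      ![false, false, false, false, false, false], ![false, false, false, false, false, false]]
  | true => ![![false, true, false, false, true, false], ![true, false, false, false, false, true],
      ![false, false, false, true, false, true], ![false, false, true, false, true, false],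
      ![true, false, false, true, false, true], ![false, true, true, false, true, false]]

lemma nbT_symm : ∀ J a b, nbT J a b = nbT J b a := by decide
lemma nbT_vl : ∀ J a b, nbT J a b = true → vl J a = true ∧ vl J b = true := by decide
lemma nbT_card : ∀ J a, vl J a = true → (univ.filter (fun b => nbT J a b = true)).card =
    if a.val < 4 then 2 else 3 := by decide
lemma vl_cn : ∀ (J : Bool) (a : Fin 6), a.val < 4 → vl J a = true := by decide

section

variable {V ι : Type*}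

/-- disjoint squares and ladders in a cubic graph -/
structure Blk [Fintype V] [DecidableEq V] (G : SimpleGraph V) [DecidableRel G.Adj]
    (ψ : ι → Fin 6 → V) (J : ι → Bool) : Prop where
  deg : ∀ v, G.degree v = 3
  inj : ∀ i j a b, vl (J i) a = true → vl (J j) b = true → ψ i a = ψ j b → i = j ∧ a = b
  adj : ∀ i a b, nbT (J i) a b = true → G.Adj (ψ i a) (ψ i b)

/-- internal pairs -/
def Itn (ψ : ι → Fin 6 → V) (J : ι → Bool) (v w : V) : Prop :=
  ∃ i a b, nbT (J i) a b = true ∧ v = ψ i a ∧ w = ψ i b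

lemma Itn.symm {ψ : ι → Fin 6 → V} {J : ι → Bool} {v w : V} (h : Itn ψ J v w) : Itn ψ J w v := by
  obtain ⟨i, a, b, h1, h2, h3⟩ := h
  exact ⟨i, b, a, by rw [nbT_symm]; exact h1, h3, h2⟩

/-- covered vertices -/
def Cv (ψ : ι → Fin 6 → V) (J : ι → Bool) (v : V) : Prop := ∃ i a, vl (J i) a = true ∧ v = ψ i a

open Classical in
/-- the node of a vertex -/
noncomputable def nd (ψ : ι → Fin 6 → V) (J : ι → Bool) (v : V) : ι ⊕ V :=
  if h : Cv ψ J v then Sum.inl h.choose else Sum.inr v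

variable [Fintype V] [DecidableEq V] {G : SimpleGraph V} [DecidableRel G.Adj]
variable {ψ : ι → Fin 6 → V} {J : ι → Bool}

lemma Blk.itn_iff (h : Blk G ψ J) {i : ι} {a : Fin 6} (ha : vl (J i) a = true) {w : V} :
    Itn ψ J (ψ i a) w ↔ ∃ b, nbT (J i) a b = true ∧ w = ψ i b := by
  constructor
  · rintro ⟨j, a', b, h1, h2, h3⟩
    obtain ⟨rfl, rfl⟩ := h.inj i j a a' ha (nbT_vl _ _ _ h1).1 h2
    exact ⟨b, h1, h3⟩
  · rintro ⟨b, h1, h2⟩
    exact ⟨i, a, b, h1, rfl, h2⟩

lemma Itn.cv {v w : V} (h : Itn ψ J v w) : Cv ψ J v := by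
  obtain ⟨i, a, b, h1, h2, h3⟩ := h
  exact ⟨i, a, (nbT_vl _ _ _ h1).1, h2⟩

lemma Itn.cv' {v w : V} (h : Itn ψ J v w) : Cv ψ J w := h.symm.cv

lemma Blk.nd_pos (h : Blk G ψ J) {i : ι} {a : Fin 6} (ha : vl (J i) a = true) :
    nd ψ J (ψ i a) = Sum.inl i := by
  have hc : Cv ψ J (ψ i a) := ⟨i, a, ha, rfl⟩
  rw [nd, dif_pos hc]
  obtain ⟨b, hb, hb'⟩ := hc.choose_spec
  exact congrArg Sum.inl (h.inj _ _ _ _ ha hb hb').1.symm

lemma nd_unc {v : V} (hv : ¬ Cv ψ J v) : nd ψ J v = Sum.inr v := by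
  rw [nd, dif_neg hv]

lemma Blk.nd_inl (h : Blk G ψ J) {v : V} {i : ι} :
    nd ψ J v = Sum.inl i ↔ ∃ a, vl (J i) a = true ∧ v = ψ i a := by
  constructor
  · intro e
    by_cases hv : Cv ψ J v
    · obtain ⟨j, a, ha, rfl⟩ := hv
      rw [h.nd_pos ha] at e
      obtain rfl := Sum.inl_injective e
      exact ⟨a, ha, rfl⟩
    · rw [nd_unc hv] at e
      cases e
  · rintro ⟨a, ha, rfl⟩
    exact h.nd_pos ha

lemma Blk.nd_inr (h : Blk G ψ J) {v u : V} : nd ψ J v = Sum.inr u ↔ v = u ∧ ¬ Cv ψ J v := by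
  constructor
  · intro e
    by_cases hv : Cv ψ J v
    · obtain ⟨j, a, ha, rfl⟩ := hv
      rw [h.nd_pos ha] at e
      cases e
    · rw [nd_unc hv] at e
      exact ⟨Sum.inr_injective e, hv⟩
  · rintro ⟨rfl, hv⟩
    exact nd_unc hv

lemma Blk.nd_itn (h : Blk G ψ J) {v w : V} (hs : Itn ψ J v w) : nd ψ J v = nd ψ J w := by
  obtain ⟨i, a, b, h1, rfl, rfl⟩ := hs
  rw [h.nd_pos (nbT_vl _ _ _ h1).1, h.nd_pos (nbT_vl _ _ _ h1).2]

lemma Blk.nbImg_card (h : Blk G ψ J) {i : ι} {a : Fin 6} (ha : vl (J i) a = true) :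
    ((univ.filter (fun b => nbT (J i) a b = true)).image (ψ i)).card = if a.val < 4 then 2 else 3 := by
  rw [card_image_of_injOn, nbT_card _ _ ha]
  intro b hb b' hb' e
  have h1 := (mem_filter.1 (mem_coe.1 hb)).2
  have h2 := (mem_filter.1 (mem_coe.1 hb')).2
  exact (h.inj i i b b' (nbT_vl _ _ _ h1).2 (nbT_vl _ _ _ h2).2 e).2

lemma Blk.nbImg_sub (h : Blk G ψ J) {i : ι} {a : Fin 6} :
    (univ.filter (fun b => nbT (J i) a b = true)).image (ψ i) ⊆ G.neighborFinset (ψ i a) := by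
  intro w hw
  obtain ⟨b, hb, rfl⟩ := mem_image.1 hw
  rw [SimpleGraph.mem_neighborFinset]
  exact h.adj i a b (mem_filter.1 hb).2

lemma Blk.mem_nbImg (h : Blk G ψ J) {i : ι} {a : Fin 6} (ha : vl (J i) a = true) {w : V} :
    w ∈ (univ.filter (fun b => nbT (J i) a b = true)).image (ψ i) ↔ Itn ψ J (ψ i a) w := by
  rw [h.itn_iff ha, mem_image]
  constructor
  · rintro ⟨b, hb, rfl⟩
    exact ⟨b, (mem_filter.1 hb).2, rfl⟩
  · rintro ⟨b, hb, rfl⟩
    exact ⟨b, mem_filter.2 ⟨mem_univ _, hb⟩, rfl⟩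

/-- existence of the outer neighbour of a corner -/
lemma Blk.outer (h : Blk G ψ J) : ∃ o : ι → Fin 6 → V, ∀ i (a : Fin 6), a.val < 4 →
    (G.Adj (ψ i a) (o i a) ∧ ¬ Itn ψ J (ψ i a) (o i a)) ∧
      ∀ w, G.Adj (ψ i a) w → ¬ Itn ψ J (ψ i a) w → w = o i a := by
  have key : ∀ i (a : Fin 6), ∃ x, a.val < 4 → (G.Adj (ψ i a) x ∧ ¬ Itn ψ J (ψ i a) x) ∧
      ∀ w, G.Adj (ψ i a) w → ¬ Itn ψ J (ψ i a) w → w = x := by
    intro i a
    by_cases ha : a.val < 4
    · have hv := vl_cn (J i) a ha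
      have h2 : (G.neighborFinset (ψ i a) \
          (univ.filter (fun b => nbT (J i) a b = true)).image (ψ i)).card = 1 := by
        rw [card_sdiff_of_subset h.nbImg_sub, SimpleGraph.card_neighborFinset_eq_degree, h.deg,
          h.nbImg_card hv, if_pos ha]
      obtain ⟨x, hx⟩ := card_eq_one.1 h2
      have hx' : ∀ w, (G.Adj (ψ i a) w ∧ ¬ Itn ψ J (ψ i a) w) ↔ w = x := by
        intro w
        rw [← mem_singleton, ← hx, mem_sdiff, SimpleGraph.mem_neighborFinset, h.mem_nbImg hv]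
      exact ⟨x, fun _ => ⟨(hx' x).2 rfl, fun w h1 h2 => (hx' w).1 ⟨h1, h2⟩⟩⟩
    · exact ⟨ψ i a, fun h => absurd h ha⟩
  choose o ho using key
  exact ⟨o, ho⟩

lemma Blk.no_outer (h : Blk G ψ J) {i : ι} {a : Fin 6} (hv : vl (J i) a = true) (ha : ¬ a.val < 4)
    {w : V} (hw : G.Adj (ψ i a) w) : Itn ψ J (ψ i a) w := by
  rw [← h.mem_nbImg hv]
  rw [eq_of_subset_of_card_le h.nbImg_sub, SimpleGraph.mem_neighborFinset]
  · exact hw
  · rw [SimpleGraph.card_neighborFinset_eq_degree, h.deg, h.nbImg_card hv, if_neg ha]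

variable (G ψ J) in
/-- darts: real darts and one dangling dart at every uncovered vertex -/
abbrev Dr := {p : V × V // G.Adj p.1 p.2 ∧ ¬ Itn ψ J p.1 p.2} ⊕ {u : V // ¬ Cv ψ J u}

noncomputable instance : Fintype (Dr G ψ J) := Fintype.ofFinite _
noncomputable instance : DecidableEq (Dr G ψ J) := Classical.decEq _

/-- the vertex of a dart -/
def fst (d : Dr G ψ J) : V := Sum.elim (fun p => p.1.1) (fun u => u.1) d

/-- the node of a dart -/
noncomputable def nu (d : Dr G ψ J) : ι ⊕ V := nd ψ J (fst d)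

variable [DecidableEq ι]

variable (ψ J) in
/-- all nodes -/
noncomputable def PP : Finset (ι ⊕ V) := univ.image (nd ψ J)

lemma nd_mem_PP (v : V) : nd ψ J v ∈ PP ψ J := mem_image_of_mem _ (mem_univ v)

/-- a real dart -/
def od (v w : V) (h : G.Adj v w ∧ ¬ Itn ψ J v w) : Dr G ψ J := Sum.inl ⟨(v, w), h⟩

lemma fst_od {v w : V} (h : G.Adj v w ∧ ¬ Itn ψ J v w) : fst (od v w h) = v := rfl

/-- edge involution -/
def tau (μ : V → V) (hμ : ∀ u, ¬ Cv ψ J u → ¬ Cv ψ J (μ u)) : Dr G ψ J → Dr G ψ J :=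
  Sum.elim (fun p => Sum.inl ⟨(p.1.2, p.1.1), ⟨p.2.1.symm, fun h => p.2.2 h.symm⟩⟩)
    (fun u => Sum.inr ⟨μ u.1, hμ u.1 u.2⟩)

section dart

variable {μ : V → V} {hμ : ∀ u, ¬ Cv ψ J u → ¬ Cv ψ J (μ u)}

lemma tau_od {v w : V} (h : G.Adj v w ∧ ¬ Itn ψ J v w) :
    tau μ hμ (od v w h) = od w v ⟨h.1.symm, fun h' => h.2 h'.symm⟩ := rfl

lemma tau_inr (u : {u : V // ¬ Cv ψ J u}) :
    tau μ hμ (Sum.inr u) = (Sum.inr ⟨μ u.1, hμ u.1 u.2⟩ : Dr G ψ J) := rfl

lemma tau_tau (hμ2 : ∀ u, ¬ Cv ψ J u → μ (μ u) = u) (d : Dr G ψ J) :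
    tau μ hμ (tau μ hμ d) = d := by
  rcases d with p | u
  · rfl
  · rw [tau_inr, tau_inr]
    congr 1
    exact Subtype.ext (hμ2 u.1 u.2)

lemma fst_tau_ne (hμ3 : ∀ u, ¬ Cv ψ J u → μ u ≠ u) (d : Dr G ψ J) :
    fst (tau μ hμ d) ≠ fst d := by
  rcases d with p | u
  · exact p.2.1.ne.symm
  · exact hμ3 u.1 u.2

lemma dart_unique {o : ι → Fin 6 → V}
    (ho : ∀ i (a : Fin 6), a.val < 4 →
      (G.Adj (ψ i a) (o i a) ∧ ¬ Itn ψ J (ψ i a) (o i a)) ∧
        ∀ w, G.Adj (ψ i a) w → ¬ Itn ψ J (ψ i a) w → w = o i a)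
    {d : Dr G ψ J} {i : ι} {a : Fin 6} (ha : a.val < 4) (hd : fst d = ψ i a) :
    d = od (ψ i a) (o i a) (ho i a ha).1 := by
  rcases d with p | u
  · obtain ⟨⟨v, w⟩, h1, h2⟩ := p
    have : v = ψ i a := hd
    subst this
    have := (ho i a ha).2 w h1 h2
    subst this
    rfl
  · exfalso
    apply u.2
    have : u.1 = ψ i a := hd
    exact ⟨i, a, vl_cn _ _ ha, this⟩

lemma Blk.corner_of_dart (h : Blk G ψ J) {d : Dr G ψ J} {i : ι} (hd : nu d = Sum.inl i) :
    ∃ a : Fin 6, a.val < 4 ∧ fst d = ψ i a := by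
  obtain ⟨a, ha, ha'⟩ := h.nd_inl.1 hd
  refine ⟨a, ?_, ha'⟩
  by_contra hcon
  rcases d with p | u
  · obtain ⟨⟨v, w⟩, h1, h2⟩ := p
    have : v = ψ i a := ha'
    subst this
    exact h2 (h.no_outer ha hcon h1)
  · apply u.2
    have : u.1 = ψ i a := ha'
    exact ⟨i, a, ha, this⟩

lemma Blk.fiber_inl (h : Blk G ψ J) (i : ι) :
    (univ.filter (fun d : Dr G ψ J => nu d = Sum.inl i)).card = 4 := by
  classical
  obtain ⟨o, ho⟩ := h.outer
  let F : {a : Fin 6 // a.val < 4} → Dr G ψ J := fun a => od (ψ i a.1) (o i a.1) (ho i a.1 a.2).1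
  have e1 : univ.filter (fun d : Dr G ψ J => nu d = Sum.inl i) = univ.image F := by
    ext d
    simp only [mem_filter, mem_univ, true_and, mem_image]
    constructor
    · intro hd
      obtain ⟨a, ha, ha'⟩ := h.corner_of_dart hd
      exact ⟨⟨a, ha⟩, (dart_unique ho ha ha').symm⟩
    · rintro ⟨a, rfl⟩
      exact h.nd_pos (vl_cn _ _ a.2)
  rw [e1, card_image_of_injective]
  · decide
  · intro a a' haa
    have h1 := congrArg fst haa
    simp only [F, fst_od] at h1
    exact Subtype.ext (h.inj _ _ _ _ (vl_cn _ _ a.2) (vl_cn _ _ a'.2) h1).2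

lemma Blk.fiber_inr (h : Blk G ψ J) {u : V} (hu : ¬ Cv ψ J u) :
    (univ.filter (fun d : Dr G ψ J => fst d = u)).card = 4 := by
  classical
  have hs : ∀ w : {w // w ∈ G.neighborFinset u}, G.Adj u w.1 ∧ ¬ Itn ψ J u w.1 := fun w =>
    ⟨(SimpleGraph.mem_neighborFinset _ _ _).1 w.2, fun hc => hu hc.cv⟩
  have e1 : univ.filter (fun d : Dr G ψ J => fst d = u) =
      insert (Sum.inr ⟨u, hu⟩) ((G.neighborFinset u).attach.image (fun w => od u w.1 (hs w))) := by
    ext d
    simp only [mem_filter, mem_univ, true_and, mem_insert, mem_image, mem_attach]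
    constructor
    · intro hd
      rcases d with p | x
      · right
        obtain ⟨⟨a, b⟩, h1, h2⟩ := p
        have : a = u := hd
        subst this
        exact ⟨⟨b, (SimpleGraph.mem_neighborFinset _ _ _).2 h1⟩, rfl⟩
      · left
        congr 1
        exact Subtype.ext hd
    · rintro (rfl | ⟨w, rfl⟩)
      · rfl
      · rfl
  rw [e1, card_insert_of_notMem, card_image_of_injective, card_attach,
    SimpleGraph.card_neighborFinset_eq_degree, h.deg u]
  · intro w w' hww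
    have h1 : (⟨(u, w.1), hs w⟩ : {p : V × V // G.Adj p.1 p.2 ∧ ¬ Itn ψ J p.1 p.2}) = ⟨(u, w'.1), hs w'⟩ :=
      Sum.inl_injective hww
    have h2 := congrArg (fun p => p.1.2) h1
    exact Subtype.ext h2
  · intro hcon
    rw [mem_image] at hcon
    obtain ⟨w, _, hw⟩ := hcon
    cases hw

lemma Blk.fiber_node (h : Blk G ψ J) (v : V) :
    (univ.filter (fun d : Dr G ψ J => nu d = nd ψ J v)).card = 4 := by
  by_cases hv : Cv ψ J v
  · obtain ⟨i, a, ha, rfl⟩ := hv
    rw [h.nd_pos ha]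
    exact h.fiber_inl i
  · rw [← h.fiber_inr hv]
    congr 1
    ext d
    simp only [mem_filter, mem_univ, true_and, nu]
    rw [nd_unc hv, h.nd_inr]
    constructor
    · exact fun e => e.1
    · intro e; exact ⟨e, e ▸ hv⟩

lemma Blk.alone (h : Blk G ψ J) {v : V} (hv : Cv ψ J v) : ∃ w, w ≠ v ∧ nd ψ J w = nd ψ J v := by
  obtain ⟨i, a, ha, rfl⟩ := hv
  have hex : ∀ (j : Bool) (a : Fin 6), vl j a = true → ∃ b, nbT j a b = true := by decide
  obtain ⟨b, hb⟩ := hex _ _ ha
  refine ⟨ψ i b, (h.adj i a b hb).ne.symm, ?_⟩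
  rw [h.nd_pos (nbT_vl _ _ _ hb).2, h.nd_pos ha]

lemma Blk.conn_aux (h : Blk G ψ J) (hμ2 : ∀ u, ¬ Cv ψ J u → μ (μ u) = u)
    (hμ3 : ∀ u, ¬ Cv ψ J u → μ u ≠ u)
    (hcyc : ∀ S : Finset V, HasCyc G S → HasCyc G Sᶜ → 4 ≤ (crs G S).card)
    (S : Finset (ι ⊕ V)) (hS : S ⊆ PP ψ J) (hne : S.Nonempty) (hprop : S ≠ PP ψ J) :
    4 ≤ (cut (nu (G := G) (ψ := ψ) (J := J)) (tau μ hμ) S).card := by
  classical
  set W : Finset V := univ.filter (fun v => nd ψ J v ∈ S) with hW
  have memW : ∀ v, v ∈ W ↔ nd ψ J v ∈ S := fun v => by simp [hW]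
  have hle : (crs G W).card ≤ (cut (nu (G := G) (ψ := ψ) (J := J)) (tau μ hμ) S).card := by
    have hs : ∀ e : {e // e ∈ crs G W}, G.Adj e.1.1 e.1.2 ∧ ¬ Itn ψ J e.1.1 e.1.2 := by
      intro e
      have he := e.2
      simp only [crs, mem_filter, mem_product, mem_univ, true_and] at he
      refine ⟨he.2.2, fun hsq => ?_⟩
      have h1 := (memW _).1 he.1
      have h2 := mt (memW _).2 he.2.1
      exact h2 (h.nd_itn hsq ▸ h1)
    rw [← card_attach]
    refine card_le_card_of_injOn (fun e => od e.1.1 e.1.2 (hs e)) ?_ ?_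
    · intro e _
      have he := e.2
      simp only [crs, mem_filter, mem_product, mem_univ, true_and] at he
      rw [mem_coe, mem_cut]
      exact ⟨(memW _).1 he.1, mt (memW _).2 he.2.1⟩
    · intro e _ e' _ hee
      have h1 := Sum.inl_injective hee
      have h2 := congrArg (fun p => p.1) h1
      exact Subtype.ext h2
  have hWne : W.Nonempty := by
    obtain ⟨k, hk⟩ := hne
    obtain ⟨v, _, rfl⟩ := mem_image.1 (hS hk)
    exact ⟨v, (memW v).2 hk⟩
  have hWc : Wᶜ.Nonempty := by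
    by_contra hcon
    rw [not_nonempty_iff_eq_empty, compl_eq_empty_iff] at hcon
    apply hprop
    apply Subset.antisymm hS
    intro k hk
    obtain ⟨v, _, rfl⟩ := mem_image.1 hk
    exact (memW v).1 (by rw [hcon]; exact mem_univ v)
  -- a vertex outside `U` is never alone
  have alone : ∀ v, Cv ψ J v → ∃ w, w ≠ v ∧ (v ∈ W ↔ w ∈ W) := by
    intro v hv
    obtain ⟨w, hw, hw'⟩ := h.alone hv
    exact ⟨w, hw, by rw [memW, memW, hw']⟩
  by_cases h1 : HasCyc G W
  · by_cases h2 : HasCyc G Wᶜ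
    · exact (hcyc W h1 h2).trans hle
    · have h3 := acyc_cut h.deg hWc h2
      rw [crs_compl] at h3
      by_cases h4 : 2 ≤ (Wᶜ).card
      · omega
      · have h5 : (Wᶜ).card = 1 := by
          have := card_pos.2 hWc; omega
        obtain ⟨u, hu⟩ := card_eq_one.1 h5
        have hu' : ∀ v, v ∉ W ↔ v = u := by
          intro v; rw [← mem_compl, hu, mem_singleton]
        have huU : ¬ Cv ψ J u := by
          intro hcon
          obtain ⟨w, a1, a2⟩ := alone u hcon
          have : u ∉ W := (hu' u).2 rfl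
          rw [a2] at this
          exact a1 ((hu' _).1 this)
        rw [← h.fiber_inr huU]
        refine card_le_card_of_injOn (tau μ hμ) ?_ ?_
        · intro d hd
          have hd' : fst d = u := by simpa using hd
          rw [mem_coe, mem_cut, tau_tau hμ2]
          refine ⟨?_, ?_⟩
          · apply (memW _).1
            by_contra hcon
            have := (hu' _).1 hcon
            exact fst_tau_ne (hμ := hμ) hμ3 d (this.trans hd'.symm)
          · have : u ∉ W := (hu' u).2 rfl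
            rw [memW] at this
            unfold nu
            rw [hd']; exact this
        · intro d _ d' _ hdd
          rw [← tau_tau (hμ := hμ) hμ2 d, hdd, tau_tau hμ2]
  · have h3 := acyc_cut h.deg hWne h1
    by_cases h4 : 2 ≤ W.card
    · omega
    · have h5 : W.card = 1 := by
        have := card_pos.2 hWne; omega
      obtain ⟨u, hu⟩ := card_eq_one.1 h5
      have hu' : ∀ v, v ∈ W ↔ v = u := by
        intro v; rw [hu, mem_singleton]
      have huU : ¬ Cv ψ J u := by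
        intro hcon
        obtain ⟨w, a1, a2⟩ := alone u hcon
        have : u ∈ W := (hu' u).2 rfl
        rw [a2] at this
        exact a1 ((hu' _).1 this)
      rw [← h.fiber_inr huU]
      apply card_le_card
      intro d hd
      have hd' : fst d = u := by simpa using hd
      rw [mem_cut]
      refine ⟨?_, ?_⟩
      · have : u ∈ W := (hu' u).2 rfl
        rw [memW] at this
        unfold nu
        rw [hd']; exact this
      · intro hcon
        have h6 : fst (tau μ hμ d) ∈ W := (memW _).2 hcon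
        have := (hu' _).1 h6
        exact fst_tau_ne (hμ := hμ) hμ3 d (this.trans hd'.symm)

theorem st_blk (h : Blk G ψ J) (hμ2 : ∀ u, ¬ Cv ψ J u → μ (μ u) = u)
    (hμ3 : ∀ u, ¬ Cv ψ J u → μ u ≠ u)
    (hcyc : ∀ S : Finset V, HasCyc G S → HasCyc G Sᶜ → 4 ≤ (crs G S).card) :
    St (nu (G := G) (ψ := ψ) (J := J)) (PP ψ J) (tau μ hμ) where
  four := by
    intro k hk
    obtain ⟨v, _, rfl⟩ := mem_image.1 hk
    exact h.fiber_node v
  act := fun d _ => nd_mem_PP _
  inv := fun d _ => tau_tau hμ2 d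
  fpf := fun d _ e => fst_tau_ne (hμ := hμ) hμ3 d (by rw [e])
  conn := h.conn_aux hμ2 hμ3 hcyc

/-- opposite corner -/
def op : Fin 6 → Fin 6 := ![2, 3, 0, 1, 4, 5]

lemma op_cn : ∀ a : Fin 6, a.val < 4 → (op a).val < 4 ∧ op (op a) = a ∧ op a ≠ a := by decide

/-- the pairing: opposite corners of a block, something arbitrary at the uncovered vertices -/
theorem pairing_blk (h : Blk G ψ J) : ∃ π : Dr G ψ J → Dr G ψ J,
    Pairing (nu (G := G) (ψ := ψ) (J := J)) π ∧
      ∀ d i (a : Fin 6), a.val < 4 → fst d = ψ i a → fst (π d) = ψ i (op a) := by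
  classical
  obtain ⟨o, ho⟩ := h.outer
  have hg : ∀ k : ι ⊕ V, ∃ g : Dr G ψ J → Dr G ψ J, ∀ d, nu d = k →
      nu (g d) = k ∧ g (g d) = d ∧ g d ≠ d ∧
        ∀ i (a : Fin 6), a.val < 4 → fst d = ψ i a → fst (g d) = ψ i (op a) := by
    rintro (i | u)
    · -- block
      have key : ∀ d : Dr G ψ J, ∃ d' : Dr G ψ J, nu d = Sum.inl i → ∀ (a : Fin 6) (ha : a.val < 4),
          fst d = ψ i a → d' = od (ψ i (op a)) (o i (op a)) (ho i _ (op_cn _ ha).1).1 := by
        intro d
        by_cases hd : nu d = Sum.inl i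
        · obtain ⟨a, ha, hda⟩ := h.corner_of_dart hd
          refine ⟨od (ψ i (op a)) (o i (op a)) (ho i _ (op_cn _ ha).1).1, fun _ b hb hdb => ?_⟩
          have h2 := (h.inj i i _ _ (vl_cn _ _ ha) (vl_cn _ _ hb) (hda.symm.trans hdb)).2
          subst h2
          rfl
        · exact ⟨d, fun h' => absurd h' hd⟩
      choose g hg using key
      refine ⟨g, fun d hd => ?_⟩
      obtain ⟨a, ha, hda⟩ := h.corner_of_dart hd
      have e1 := hg d hd a ha hda
      have n1 : nu (g d) = Sum.inl i := by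
        rw [e1]
        unfold nu
        rw [fst_od]
        exact h.nd_pos (vl_cn _ _ (op_cn _ ha).1)
      have f1 : fst (g d) = ψ i (op a) := by rw [e1, fst_od]
      refine ⟨n1, ?_, ?_, ?_⟩
      · rw [hg (g d) n1 (op a) (op_cn _ ha).1 f1]
        symm
        refine dart_unique ho (op_cn _ (op_cn _ ha).1).1 ?_
        rw [(op_cn _ ha).2.1]; exact hda
      · intro e
        have h3 := congrArg fst e
        rw [f1, hda] at h3
        exact (op_cn _ ha).2.2 (h.inj i i _ _ (vl_cn _ _ (op_cn _ ha).1) (vl_cn _ _ ha) h3).2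
      · intro j b hb hdb
        rw [f1]
        obtain ⟨rfl, rfl⟩ := h.inj i j a b (vl_cn _ _ ha) (vl_cn _ _ hb) (hda.symm.trans hdb)
        rfl
    · by_cases hu : Cv ψ J u
      · refine ⟨id, fun d hd => ?_⟩
        obtain ⟨h1, h2⟩ := h.nd_inr.1 hd
        exact absurd (h1 ▸ hu) h2
      · obtain ⟨g, hg⟩ := inv_exists (univ.filter (fun d : Dr G ψ J => fst d = u))
          (by rw [h.fiber_inr hu]; decide)
        refine ⟨g, fun d hd => ?_⟩
        have hd' : fst d = u := (h.nd_inr.1 hd).1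
        have := hg d (by simpa using hd')
        simp only [mem_filter, mem_univ, true_and] at this
        refine ⟨?_, this.2.1, this.2.2, ?_⟩
        · unfold nu
          rw [this.1]
          exact nd_unc hu
        · intro i a ha hda
          exfalso
          apply hu
          rw [← hd', hda]
          exact ⟨i, a, vl_cn _ _ ha, rfl⟩
  choose g hg using hg
  refine ⟨fun d => g (nu d) d, ⟨?_, ?_, ?_⟩, ?_⟩
  · intro d
    have h1 := hg (nu d) d rfl
    show g (nu (g (nu d) d)) (g (nu d) d) = d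
    rw [h1.1]
    exact h1.2.1
  · intro d
    exact (hg (nu d) d rfl).2.2.1
  · intro d
    exact (hg (nu d) d rfl).1
  · intro d i a ha hda
    exact (hg (nu d) d rfl).2.2.2 i a ha hda

end dart

end

end Pool.Agent.MP_fc2a59_co.Sq
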