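import Pool.Agent.Lib.MP_fc2a59_co.Jg.MkCfg

/-!
# The vertices on 4-cycles are divided into squares and 2x3 ladders (no covering hypothesis)
-/

set_option autoImplicit false
set_option linter.unusedSectionVars false

namespace Pool.Agent.MP_fc2a59_co.Sq

open Finset Pool.Jg

/-- squares and 2x3 ladders which cover all vertices lying on 4-cycles -/
structure CfgP {V : Type} (G : SimpleGraph V) {ι : Type} (g : ι → Fin 4 → V) (J : ι → Prop)
    (q q' : ι → V) : Prop where
  inj : ∀ i j k l, g i k = g j l → i = j ∧ k = l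
  cov : ∀ v, OnC4 G v → (∃ i k, v = g i k) ∨ ∃ i, J i ∧ (v = q i ∨ v = q' i)
  qc : ∀ i, J i → ∀ j k, q i ≠ g j k
  q'c : ∀ i, J i → ∀ j k, q' i ≠ g j k
  qq' : ∀ i j, J i → J j → q i ≠ q' j
  qi : ∀ i j, J i → J j → q i = q j → i = j
  q'i : ∀ i j, J i → J j → q' i = q' j → i = j
  sq : ∀ i, ¬ J i → ∀ k, G.Adj (g i k) (g i (k + 1))
  l1 : ∀ i, J i → G.Adj (g i 3) (q i)
  l2 : ∀ i, J i → G.Adj (q i) (g i 0)
  l3 : ∀ i, J i → G.Adj (g i 0) (g i 1)
  l4 : ∀ i, J i → G.Adj (g i 1) (q' i)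
  l5 : ∀ i, J i → G.Adj (q' i) (g i 2)
  l6 : ∀ i, J i → G.Adj (g i 2) (g i 3)
  l7 : ∀ i, J i → G.Adj (q i) (q' i)

variable {V : Type} [Fintype V] [DecidableEq V] {G : SimpleGraph V} [DecidableRel G.Adj]
variable {ι : Type} [Fintype ι] {f o : ι → Fin 4 → V}

/-- the configuration of a maximum family -/
theorem cfgP_of_MF (h : MF G f o) :
    ∃ (g : ι → Fin 4 → V) (J : ι → Prop) (q q' : ι → V), CfgP G g J q q' := by
  classical
  let A : Set ι := {i | ∃ k, Att G f o i k}
  let κ : ι → Fin 4 := fun i => if hi : ∃ k, Att G f o i k then hi.choose else 0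
  have hκ : ∀ i ∈ A, Att G f o i (κ i) := by
    intro i hi
    have hi' : ∃ k, Att G f o i k := hi
    simp only [κ, dif_pos hi']
    exact hi'.choose_spec
  let e : ι → Sym2 V := fun i => s(o i (κ i), o i (κ i + 1))
  obtain ⟨J, hJA, hJ⟩ := Set.exists_subset_bijOn A e
  have hJκ : ∀ i ∈ J, Att G f o i (κ i) := fun i hi => hκ i (hJA hi)
  have hg := newG_case hJκ
  have cov' : ∀ i k, i ∉ J → newG f o J κ i k = f i (κ i + k) := by
    intro i k hi
    rcases hg i k with h' | h'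
    · exact h'.1
    · exact absurd h'.2.1 hi
  have cov2 : ∀ i, newG f o J κ i 2 = f i (κ i + 2) := fun i => rfl
  have cov3 : ∀ i, newG f o J κ i 3 = f i (κ i + 3) := fun i => rfl
  have un0 : ∀ i, i ∈ J → newG f o J κ i 0 = o i (κ i) := fun i hi => by simp [newG, hi]
  have un1 : ∀ i, i ∈ J → newG f o J κ i 1 = o i (κ i + 1) := fun i hi => by simp [newG, hi]
  refine ⟨newG f o J κ, fun i => i ∈ J, fun i => f i (κ i), fun i => f i (κ i + 1), ?_⟩
  constructor
  · -- inj
    intro i j k l hkl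
    rcases hg i k with ⟨h1, h1'⟩ | ⟨h1, h1', h1'', h1'''⟩ <;>
      rcases hg j l with ⟨h2, h2'⟩ | ⟨h2, h2', h2'', h2'''⟩
    · rw [h1, h2] at hkl
      obtain ⟨rfl, h3⟩ := h.fam.inj _ _ _ _ hkl
      exact ⟨rfl, add_left_cancel h3⟩
    · exact absurd (hkl.symm.trans h1) (h2''' _ _)
    · exact absurd (hkl.trans h2) (h1''' _ _)
    · have a1 := hJκ i h1'
      have a2 := hJκ j h2'
      have hv : ∃ v', (newG f o J κ i k = o i (κ i) ∧ v' = o i (κ i + 1)) ∨
          (newG f o J κ i k = o i (κ i + 1) ∧ v' = o i (κ i)) := by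
        rcases h1'' with rfl | rfl
        · exact ⟨_, Or.inl ⟨un0 i h1', rfl⟩⟩
        · exact ⟨_, Or.inr ⟨un1 i h1', rfl⟩⟩
      have hw : ∃ v', (newG f o J κ i k = o j (κ j) ∧ v' = o j (κ j + 1)) ∨
          (newG f o J κ i k = o j (κ j + 1) ∧ v' = o j (κ j)) := by
        rw [hkl]
        rcases h2'' with rfl | rfl
        · exact ⟨_, Or.inl ⟨un0 j h2', rfl⟩⟩
        · exact ⟨_, Or.inr ⟨un1 j h2', rfl⟩⟩
      obtain ⟨v', hv⟩ := hv
      obtain ⟨w', hw⟩ := hw
      have hvw := h.att_partner a1 a2 hv hw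
      have hee : e i = e j := by
        have e1 : e i = s(newG f o J κ i k, v') := by
          rcases hv with ⟨x1, x2⟩ | ⟨x1, x2⟩ <;> rw [x1, x2]
          exact Sym2.eq_swap
        have e2 : e j = s(newG f o J κ i k, w') := by
          rcases hw with ⟨x1, x2⟩ | ⟨x1, x2⟩ <;> rw [x1, x2]
          exact Sym2.eq_swap
        rw [e1, e2, hvw]
      have hij := hJ.injOn h1' h2' hee
      subst hij
      rw [h1, h2] at hkl
      exact ⟨rfl, add_left_cancel (h.o_inj i hkl)⟩
  · -- cov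
    intro v h4
    by_cases hv : Un f v
    · left
      obtain ⟨i, k, hatt, hvk⟩ := h.unc hv h4
      have hiA : i ∈ A := ⟨k, hatt⟩
      have hk := h.att_unique hatt (hκ i hiA)
      subst hk
      have hei : e i ∈ e '' A := ⟨i, hiA, rfl⟩
      rw [← hJ.image_eq] at hei
      obtain ⟨j, hj, hje⟩ := hei
      have hvj : v ∈ e j := by
        rw [hje]
        simp only [e, Sym2.mem_iff]
        exact hvk
      simp only [e, Sym2.mem_iff] at hvj
      rcases hvj with hvj | hvj
      · exact ⟨j, 0, by rw [un0 j hj, hvj]⟩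
      · exact ⟨j, 1, by rw [un1 j hj, hvj]⟩
    · unfold Un at hv
      push Not at hv
      obtain ⟨i, m, rfl⟩ := hv
      have hm : κ i + (m - κ i) = m := by abel
      by_cases hi : i ∈ J
      · rcases fcases (κ i) m with h' | h' | h' | h'
        · right; exact ⟨i, hi, Or.inl (by rw [h'])⟩
        · right; exact ⟨i, hi, Or.inr (by rw [h'])⟩
        · left; exact ⟨i, 2, by rw [cov2, h']⟩
        · left; exact ⟨i, 3, by rw [cov3, h']⟩
      · left
        exact ⟨i, m - κ i, by rw [cov' i _ hi, hm]⟩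
  · -- qc
    intro i hi j k h'
    rcases hg j k with ⟨h2, h2'⟩ | ⟨h2, h2', h2'', h2'''⟩
    · rw [h2] at h'
      obtain ⟨rfl, h4⟩ := h.fam.inj _ _ _ _ h'
      have h5 : k = 0 := by
        have : κ i + k = κ i + 0 := by rw [← h4, add_zero]
        exact add_left_cancel this
      rcases h2' with h6 | h6 | h6
      · exact h6 hi
      · rw [h5] at h6; exact absurd h6 (by decide)
      · rw [h5] at h6; exact absurd h6 (by decide)
    · exact h2''' _ _ h'.symm
  · -- q'c
    intro i hi j k h'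
    rcases hg j k with ⟨h2, h2'⟩ | ⟨h2, h2', h2'', h2'''⟩
    · rw [h2] at h'
      obtain ⟨rfl, h4⟩ := h.fam.inj _ _ _ _ h'
      have h5 : k = 1 := by
        have : κ i + k = κ i + 1 := by rw [← h4]
        exact add_left_cancel this
      rcases h2' with h6 | h6 | h6
      · exact h6 hi
      · rw [h5] at h6; exact absurd h6 (by decide)
      · rw [h5] at h6; exact absurd h6 (by decide)
    · exact h2''' _ _ h'.symm
  · -- qq'
    intro i j _ _ h'
    obtain ⟨rfl, h4⟩ := h.fam.inj _ _ _ _ h'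
    exact fne1 _ h4
  · intro i j _ _ h'
    exact (h.fam.inj _ _ _ _ h').1
  · intro i j _ _ h'
    exact (h.fam.inj _ _ _ _ h').1
  · -- sq
    intro i hi k
    rw [cov' i k hi, cov' i (k + 1) hi]
    have := h.a1 i (κ i + k)
    rw [add_assoc] at this
    exact this
  · -- l1
    intro i _
    rw [cov3]
    exact (h.a3 i _).symm
  · intro i hi
    rw [un0 i hi]
    exact h.oa i _
  · intro i hi
    rw [un0 i hi, un1 i hi]
    exact (hJκ i hi).2.2
  · intro i hi
    rw [un1 i hi]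
    exact (h.oa i _).symm
  · intro i hi
    rw [cov2]
    have := h.a1 i (κ i + 1)
    rw [f11] at this
    exact this
  · intro i hi
    rw [cov2, cov3]
    have := h.a1 i (κ i + 2)
    rw [f21] at this
    exact this
  · intro i hi
    exact h.a1 i _


/-- THE STRUCTURE THEOREM -/
theorem exists_cfgP (h3 : ∀ v, G.degree v = 3) (hc : CutHyp G) (h8 : 8 ≤ Fintype.card V) :
    ∃ (ι : Type) (_ : Fintype ι) (g : ι → Fin 4 → V) (J : ι → Prop) (q q' : ι → V),
      CfgP G g J q q' := by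
  obtain ⟨m, ⟨ι, hι, rfl, f, hf⟩, hmax⟩ := exists_max_fam G
  have ht : ∀ i k, ∃ y, y ≠ f i (k + 1) ∧ y ≠ f i (k + 3) ∧ G.Adj (f i k) y ∧
      ∀ w, G.Adj (f i k) w → w = f i (k + 1) ∨ w = f i (k + 3) ∨ w = y := by
    intro i k
    refine exists_third h3 ?_ (hf.adj i k) ?_
    · intro h'
      exact fne13 k (hf.inj _ _ _ _ h').2
    · have := hf.adj i (k + 3)
      rw [f31] at this
      exact this.symm
  choose o ho using ht
  have hMF : MF G f o := ⟨h3, hc, h8, hf, hmax, fun i k => (ho i k).1, fun i k => (ho i k).2.1,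
    fun i k => (ho i k).2.2.1, fun i k w => (ho i k).2.2.2 w⟩
  obtain ⟨g, J, q, q', hC⟩ := cfgP_of_MF hMF
  exact ⟨ι, hι, g, J, q, q', hC⟩

end Pool.Agent.MP_fc2a59_co.Sq
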