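import Mathlib

/-!
# Four-regular dart structures, cuts, and the splitting lemma

Darts `D`, nodes `N`, `ν : D → N` the node of a dart, `τ : D → D` the edge involution, `P` the set of
active nodes.
-/

set_option autoImplicit false
set_option linter.unusedSectionVars false
set_option linter.unusedVariables false

namespace Pool.Agent.MP_fc2a59_co.Sq

open Finset

section

variable {D N : Type*} [Fintype D] [DecidableEq D] [DecidableEq N]

/-- the darts leaving a set of nodes -/
def cut (ν : D → N) (τ : D → D) (S : Finset N) : Finset D :=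
  univ.filter (fun d => ν d ∈ S ∧ ν (τ d) ∉ S)

lemma mem_cut {ν : D → N} {τ : D → D} {S : Finset N} {d : D} :
    d ∈ cut ν τ S ↔ ν d ∈ S ∧ ν (τ d) ∉ S := by
  simp [cut]

/-- `τ` is a fixed-point free involution on the darts of `P`, every node has four darts, and the
graph is 4-edge-connected. -/
structure St (ν : D → N) (P : Finset N) (τ : D → D) : Prop where
  four : ∀ v ∈ P, (univ.filter (fun d => ν d = v)).card = 4
  act : ∀ d, ν d ∈ P → ν (τ d) ∈ P
  inv : ∀ d, ν d ∈ P → τ (τ d) = d
  fpf : ∀ d, ν d ∈ P → τ d ≠ d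
  conn : ∀ S ⊆ P, S.Nonempty → S ≠ P → 4 ≤ (cut ν τ S).card

/-- a finite set with a fixed-point free involution has even cardinality -/
lemma even_card_of_fpf {α : Type*} [DecidableEq α] (T : Finset α) (g : α → α)
    (h1 : ∀ a ∈ T, g a ∈ T) (h2 : ∀ a ∈ T, g (g a) = a) (h3 : ∀ a ∈ T, g a ≠ a) :
    Even T.card := by
  have h : ∑ a ∈ T, (1 : ZMod 2) = 0 := by
    refine Finset.sum_involution (fun a _ => g a) ?_ ?_ ?_ ?_
    · intro a ha; decide
    · intro a ha _; exact h3 a ha
    · intro a ha; exact h1 a ha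
    · intro a ha; exact h2 a ha
  have h' : ((T.card : ℕ) : ZMod 2) = 0 := by simpa using h
  exact (ZMod.natCast_eq_zero_iff_even).1 h'

lemma cut_even {ν : D → N} {P : Finset N} {τ : D → D} 
    (four : ∀ v ∈ P, (univ.filter (fun d => ν d = v)).card = 4)
    (inv : ∀ d, ν d ∈ P → τ (τ d) = d)
    (fpf : ∀ d, ν d ∈ P → τ d ≠ d) (S : Finset N) (hS : S ⊆ P) :
    Even (cut ν τ S).card := by
  classical
  have hA : (univ.filter (fun d => ν d ∈ S)).card = 4 * S.card := by
    rw [Finset.card_eq_sum_card_fiberwise (f := ν) (t := S)]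
    · rw [Finset.sum_congr rfl (g := fun _ => 4)]
      · simp [mul_comm]
      · intro v hv
        rw [← four v (hS hv)]
        congr 1
        ext d
        simp only [mem_filter, mem_univ, true_and]
        constructor
        · rintro ⟨_, h⟩; exact h
        · intro h; exact ⟨h ▸ hv, h⟩
    · intro d hd
      simpa using hd
  have hB : (univ.filter (fun d => ν d ∈ S)) =
      cut ν τ S ∪ univ.filter (fun d => ν d ∈ S ∧ ν (τ d) ∈ S) := by
    ext d
    simp only [mem_filter, mem_univ, true_and, mem_union, mem_cut]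
    tauto
  have hC : Disjoint (cut ν τ S) (univ.filter (fun d => ν d ∈ S ∧ ν (τ d) ∈ S)) := by
    rw [Finset.disjoint_left]
    intro d hd hd'
    simp only [mem_filter, mem_univ, true_and, mem_cut] at hd hd'
    exact hd.2 hd'.2
  have hE : Even (univ.filter (fun d => ν d ∈ S ∧ ν (τ d) ∈ S)).card := by
    refine even_card_of_fpf _ τ ?_ ?_ ?_
    · intro a ha
      simp only [mem_filter, mem_univ, true_and] at ha ⊢
      rw [inv a (hS ha.1)]
      exact ⟨ha.2, ha.1⟩
    · intro a ha
      simp only [mem_filter, mem_univ, true_and] at ha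
      exact inv a (hS ha.1)
    · intro a ha
      simp only [mem_filter, mem_univ, true_and] at ha
      exact fpf a (hS ha.1)
  have hsum : (cut ν τ S).card + (univ.filter (fun d => ν d ∈ S ∧ ν (τ d) ∈ S)).card = 4 * S.card := by
    rw [← Finset.card_union_of_disjoint hC, ← hB, hA]
  obtain ⟨k, hk⟩ := hE
  rw [Nat.even_iff]
  omega

/-- the four darts of a node -/
structure Four (ν : D → N) (q : N) (s a b c : D) : Prop where
  hs : ν s = q
  ha : ν a = q
  hb : ν b = q
  hc : ν c = q
  sa : s ≠ a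
  sb : s ≠ b
  sc : s ≠ c
  ab : a ≠ b
  ac : a ≠ c
  bc : b ≠ c
  all : ∀ d, ν d = q → d = s ∨ d = a ∨ d = b ∨ d = c

lemma Four.mk' {ν : D → N} {q : N} {s a b c : D}
    (h4 : (univ.filter (fun d => ν d = q)).card = 4)
    (hs : ν s = q) (ha : ν a = q) (hb : ν b = q) (hc : ν c = q)
    (sa : s ≠ a) (sb : s ≠ b) (sc : s ≠ c) (ab : a ≠ b) (ac : a ≠ c) (bc : b ≠ c) :
    Four ν q s a b c := by
  refine ⟨hs, ha, hb, hc, sa, sb, sc, ab, ac, bc, ?_⟩
  have hsub : ({s, a, b, c} : Finset D) ⊆ univ.filter (fun d => ν d = q) := by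
    intro d hd
    simp only [mem_insert, mem_singleton] at hd
    simp only [mem_filter, mem_univ, true_and]
    rcases hd with rfl | rfl | rfl | rfl <;> assumption
  have hcard : ({s, a, b, c} : Finset D).card = 4 := by
    rw [card_insert_of_notMem, card_insert_of_notMem, card_insert_of_notMem, card_singleton]
    · simpa using bc
    · simp [ab, ac]
    · simp [sa, sb, sc]
  have heq : ({s, a, b, c} : Finset D) = univ.filter (fun d => ν d = q) :=
    Finset.eq_of_subset_of_card_le hsub (by rw [h4, hcard])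
  intro d hd
  have : d ∈ ({s, a, b, c} : Finset D) := by
    rw [heq]; simpa using hd
  simpa using this

lemma Four.swap_ab {ν : D → N} {q : N} {s a b c : D} (h : Four ν q s a b c) :
    Four ν q s b a c :=
  ⟨h.hs, h.hb, h.ha, h.hc, h.sb, h.sa, h.sc, h.ab.symm, h.bc, h.ac, by
    intro d hd; rcases h.all d hd with h | h | h | h <;> tauto⟩

lemma Four.swap_bc {ν : D → N} {q : N} {s a b c : D} (h : Four ν q s a b c) :
    Four ν q s a c b :=
  ⟨h.hs, h.ha, h.hc, h.hb, h.sa, h.sc, h.sb, h.ac, h.ab, h.bc.symm, by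
    intro d hd; rcases h.all d hd with h | h | h | h <;> tauto⟩

/-- no loops when there are at least two nodes -/
lemma St.noloop {ν : D → N} {P : Finset N} {τ : D → D} (h : St ν P τ) (h2 : 2 ≤ P.card)
    {d : D} (hd : ν d ∈ P) : ν (τ d) ≠ ν d := by
  have hS : ({ν d} : Finset N) ≠ P := by
    intro hcon
    rw [← hcon] at h2
    simp at h2
  have h1 := h.conn {ν d} (by simpa using hd) (by simp) hS
  have h3 : cut ν τ {ν d} ⊆ univ.filter (fun e => ν e = ν d) := by
    intro e he
    rw [mem_cut] at he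
    simp only [mem_filter, mem_univ, true_and]
    simpa using he.1
  have h4 := h.four _ hd
  have h5 : cut ν τ {ν d} = univ.filter (fun e => ν e = ν d) :=
    Finset.eq_of_subset_of_card_le h3 (by omega)
  have h6 : d ∈ cut ν τ {ν d} := by rw [h5]; simp
  rw [mem_cut] at h6
  simpa using h6.2

/-- splitting the node of `s, a, b, c` along the pairing `{s,a}, {b,c}` -/
def split (τ : D → D) (s a b c : D) : D → D := fun d =>
  if d = τ s then τ a else if d = τ a then τ s else if d = τ b then τ c else if d = τ c then τ b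
  else τ d

/-- data for a splitting -/
structure Spl (ν : D → N) (P : Finset N) (τ : D → D) (q : N) (s a b c : D) : Prop where
  st : St ν P τ
  two : 2 ≤ P.card
  hq : q ∈ P
  four : Four ν q s a b c

section spl

variable {ν : D → N} {P : Finset N} {τ : D → D} {q : N} {s a b c : D}

lemma Spl.swap_ab (h : Spl ν P τ q s a b c) : Spl ν P τ q s b a c := ⟨h.st, h.two, h.hq, h.four.swap_ab⟩
lemma Spl.swap_bc (h : Spl ν P τ q s a b c) : Spl ν P τ q s a c b := ⟨h.st, h.two, h.hq, h.four.swap_bc⟩

lemma Spl.inj (h : Spl ν P τ q s a b c) {d e : D} (hd : ν d ∈ P) (he : ν e ∈ P) (hde : τ d = τ e) :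
    d = e := by
  rw [← h.st.inv d hd, ← h.st.inv e he, hde]

lemma Spl.far (h : Spl ν P τ q s a b c) {d : D} (hd : ν d = q) : ν (τ d) ∈ P.erase q := by
  have hdP : ν d ∈ P := hd ▸ h.hq
  have h1 := h.st.noloop h.two hdP
  rw [hd] at h1
  exact mem_erase.2 ⟨h1, h.st.act d hdP⟩

lemma Spl.near (h : Spl ν P τ q s a b c) {d : D} (hd : ν d ∈ P) (hd' : ν (τ d) = q) :
    d = τ s ∨ d = τ a ∨ d = τ b ∨ d = τ c := by
  have h1 := h.four.all _ hd'
  have h2 := h.st.inv d hd
  rcases h1 with h1 | h1 | h1 | h1 <;> rw [h1] at h2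
  · left; exact h2.symm
  · right; left; exact h2.symm
  · right; right; left; exact h2.symm
  · right; right; right; exact h2.symm

lemma Spl.fs (h : Spl ν P τ q s a b c) : ν (τ s) ∈ P.erase q := h.far h.four.hs
lemma Spl.fa (h : Spl ν P τ q s a b c) : ν (τ a) ∈ P.erase q := h.far h.four.ha
lemma Spl.fb (h : Spl ν P τ q s a b c) : ν (τ b) ∈ P.erase q := h.far h.four.hb
lemma Spl.fc (h : Spl ν P τ q s a b c) : ν (τ c) ∈ P.erase q := h.far h.four.hc

lemma Spl.ms (h : Spl ν P τ q s a b c) : ν s ∈ P := by rw [h.four.hs]; exact h.hq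
lemma Spl.ma (h : Spl ν P τ q s a b c) : ν a ∈ P := by rw [h.four.ha]; exact h.hq
lemma Spl.mb (h : Spl ν P τ q s a b c) : ν b ∈ P := by rw [h.four.hb]; exact h.hq
lemma Spl.mc (h : Spl ν P τ q s a b c) : ν c ∈ P := by rw [h.four.hc]; exact h.hq

lemma Spl.tsa (h : Spl ν P τ q s a b c) : τ s ≠ τ a := fun e => h.four.sa (h.inj h.ms h.ma e)
lemma Spl.tsb (h : Spl ν P τ q s a b c) : τ s ≠ τ b := fun e => h.four.sb (h.inj h.ms h.mb e)
lemma Spl.tsc (h : Spl ν P τ q s a b c) : τ s ≠ τ c := fun e => h.four.sc (h.inj h.ms h.mc e)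
lemma Spl.tab (h : Spl ν P τ q s a b c) : τ a ≠ τ b := fun e => h.four.ab (h.inj h.ma h.mb e)
lemma Spl.tac (h : Spl ν P τ q s a b c) : τ a ≠ τ c := fun e => h.four.ac (h.inj h.ma h.mc e)
lemma Spl.tbc (h : Spl ν P τ q s a b c) : τ b ≠ τ c := fun e => h.four.bc (h.inj h.mb h.mc e)

lemma split_s (τ : D → D) (s a b c : D) : split τ s a b c (τ s) = τ a := by simp [split]

lemma Spl.split_a (h : Spl ν P τ q s a b c) : split τ s a b c (τ a) = τ s := by
  simp [split, h.tsa.symm]

lemma Spl.split_b (h : Spl ν P τ q s a b c) : split τ s a b c (τ b) = τ c := by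
  simp [split, h.tsb.symm, h.tab.symm]

lemma Spl.split_c (h : Spl ν P τ q s a b c) : split τ s a b c (τ c) = τ b := by
  simp [split, h.tsc.symm, h.tac.symm, h.tbc.symm]

lemma split_else {τ : D → D} {s a b c d : D} (h1 : d ≠ τ s) (h2 : d ≠ τ a) (h3 : d ≠ τ b)
    (h4 : d ≠ τ c) : split τ s a b c d = τ d := by
  simp [split, h1, h2, h3, h4]

/-- an active dart of the split structure is either one of the four far darts or generic -/
lemma Spl.split_act (h : Spl ν P τ q s a b c) {d : D} (hd : ν d ∈ P.erase q) :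
    ν (split τ s a b c d) ∈ P.erase q := by
  by_cases h1 : d = τ s
  · subst h1; rw [split_s]; exact h.fa
  by_cases h2 : d = τ a
  · subst h2; rw [h.split_a]; exact h.fs
  by_cases h3 : d = τ b
  · subst h3; rw [h.split_b]; exact h.fc
  by_cases h4 : d = τ c
  · subst h4; rw [h.split_c]; exact h.fb
  rw [split_else h1 h2 h3 h4]
  have hdP := (mem_erase.1 hd).2
  refine mem_erase.2 ⟨?_, h.st.act d hdP⟩
  intro hcon
  rcases h.near hdP hcon with h | h | h | h <;> contradiction

lemma Spl.split_inv (h : Spl ν P τ q s a b c) {d : D} (hd : ν d ∈ P.erase q) :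
    split τ s a b c (split τ s a b c d) = d := by
  by_cases h1 : d = τ s
  · subst h1; rw [split_s, h.split_a]
  by_cases h2 : d = τ a
  · subst h2; rw [h.split_a, split_s]
  by_cases h3 : d = τ b
  · subst h3; rw [h.split_b, h.split_c]
  by_cases h4 : d = τ c
  · subst h4; rw [h.split_c, h.split_b]
  have hdP := (mem_erase.1 hd).2
  have hdq := (mem_erase.1 hd).1
  rw [split_else h1 h2 h3 h4]
  have key : ∀ w, ν w = q → τ d ≠ τ w := by
    intro w hw e
    have := h.inj hdP (hw ▸ h.hq) e
    exact hdq (this ▸ hw)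
  rw [split_else (key s h.four.hs) (key a h.four.ha) (key b h.four.hb) (key c h.four.hc)]
  exact h.st.inv d hdP

lemma Spl.split_fpf (h : Spl ν P τ q s a b c) {d : D} (hd : ν d ∈ P.erase q) :
    split τ s a b c d ≠ d := by
  by_cases h1 : d = τ s
  · subst h1; rw [split_s]; exact h.tsa.symm
  by_cases h2 : d = τ a
  · subst h2; rw [h.split_a]; exact h.tsa
  by_cases h3 : d = τ b
  · subst h3; rw [h.split_b]; exact h.tbc.symm
  by_cases h4 : d = τ c
  · subst h4; rw [h.split_c]; exact h.tbc
  rw [split_else h1 h2 h3 h4]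
  exact h.st.fpf d (mem_erase.1 hd).2

/-- the split structure satisfies everything as soon as it is 4-edge-connected -/
lemma Spl.mkSt (h : Spl ν P τ q s a b c)
    (hc : ∀ S ⊆ P.erase q, S.Nonempty → S ≠ P.erase q → 4 ≤ (cut ν (split τ s a b c) S).card) :
    St ν (P.erase q) (split τ s a b c) where
  four := fun v hv => h.st.four v (mem_erase.1 hv).2
  act := fun _ hd => h.split_act hd
  inv := fun _ hd => h.split_inv hd
  fpf := fun _ hd => h.split_fpf hd
  conn := hc

/-- comparison of cuts: removing a node that is split -/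
lemma Spl.cut_le (h : Spl ν P τ q s a b c) (S : Finset N) (hS : S ⊆ P.erase q) :
    (cut ν τ S).card ≤ (cut ν (split τ s a b c) S).card
      + (if ν (τ s) ∈ S ∧ ν (τ a) ∈ S then 2 else 0)
      + (if ν (τ b) ∈ S ∧ ν (τ c) ∈ S then 2 else 0) := by
  classical
  set A : Finset D := if ν (τ s) ∈ S ∧ ν (τ a) ∈ S then {τ s, τ a} else ∅ with hA
  set B : Finset D := if ν (τ b) ∈ S ∧ ν (τ c) ∈ S then {τ b, τ c} else ∅ with hB
  have hAc : A.card ≤ (if ν (τ s) ∈ S ∧ ν (τ a) ∈ S then 2 else 0) := by
    rw [hA]; split_ifs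
    · exact card_le_two
    · simp
  have hBc : B.card ≤ (if ν (τ b) ∈ S ∧ ν (τ c) ∈ S then 2 else 0) := by
    rw [hB]; split_ifs
    · exact card_le_two
    · simp
  have hsub : cut ν τ S ⊆ (cut ν (split τ s a b c) S ∪ A) ∪ B := by
    intro d hd
    rw [mem_cut] at hd
    simp only [mem_union, mem_cut]
    by_cases h1 : d = τ s
    · subst h1
      by_cases hx : ν (τ a) ∈ S
      · left; right; rw [hA, if_pos ⟨hd.1, hx⟩]; simp
      · left; left; rw [split_s]; exact ⟨hd.1, hx⟩
    by_cases h2 : d = τ a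
    · subst h2
      by_cases hx : ν (τ s) ∈ S
      · left; right; rw [hA, if_pos ⟨hx, hd.1⟩]; simp
      · left; left; rw [h.split_a]; exact ⟨hd.1, hx⟩
    by_cases h3 : d = τ b
    · subst h3
      by_cases hx : ν (τ c) ∈ S
      · right; rw [hB, if_pos ⟨hd.1, hx⟩]; simp
      · left; left; rw [h.split_b]; exact ⟨hd.1, hx⟩
    by_cases h4 : d = τ c
    · subst h4
      by_cases hx : ν (τ b) ∈ S
      · right; rw [hB, if_pos ⟨hx, hd.1⟩]; simp
      · left; left; rw [h.split_c]; exact ⟨hd.1, hx⟩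
    left; left
    rw [split_else h1 h2 h3 h4]
    exact hd
  calc (cut ν τ S).card ≤ ((cut ν (split τ s a b c) S ∪ A) ∪ B).card := card_le_card hsub
    _ ≤ (cut ν (split τ s a b c) S ∪ A).card + B.card := card_union_le _ _
    _ ≤ (cut ν (split τ s a b c) S).card + A.card + B.card := by
        have := card_union_le (cut ν (split τ s a b c) S) A
        omega
    _ ≤ _ := by omega

/-- adding the node `q` to `S`; `J` darts of `q` go to `S` -/
lemma Spl.cut_insert (h : Spl ν P τ q s a b c) (S : Finset N) (hS : S ⊆ P.erase q) (J : Finset D)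
    (hJ : ∀ w ∈ J, ν w = q ∧ ν (τ w) ∈ S) :
    (cut ν τ (insert q S)).card + 2 * J.card ≤ (cut ν τ S).card + 4 := by
  classical
  set K : Finset D := (univ.filter (fun d => ν d = q)) \ J with hK
  have hqS : q ∉ S := fun hq => (mem_erase.1 (hS hq)).1 rfl
  have hJsub : J ⊆ univ.filter (fun d => ν d = q) := by
    intro w hw; simpa using (hJ w hw).1
  have hKc : K.card = 4 - J.card := by
    rw [hK, card_sdiff_of_subset hJsub, h.st.four q h.hq]
  have hJ4 : J.card ≤ 4 := by
    rw [← h.st.four q h.hq]; exact card_le_card hJsub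
  have hJimg : (J.image τ).card = J.card := by
    apply card_image_of_injOn
    intro x hx y hy hxy
    have hx' := (hJ x hx).1
    have hy' := (hJ y hy).1
    exact h.inj (hx' ▸ h.hq) (hy' ▸ h.hq) hxy
  have hdisj : Disjoint (cut ν τ (insert q S)) (J.image τ) := by
    rw [disjoint_left]
    intro d hd hd'
    obtain ⟨w, hw, rfl⟩ := mem_image.1 hd'
    rw [mem_cut] at hd
    have hw1 := (hJ w hw).1
    rw [h.st.inv w (hw1 ▸ h.hq), hw1] at hd
    exact hd.2 (mem_insert_self _ _)
  have hsub : cut ν τ (insert q S) ∪ J.image τ ⊆ cut ν τ S ∪ K := by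
    intro d hd
    rcases mem_union.1 hd with hd | hd
    · rw [mem_cut] at hd
      rcases mem_insert.1 hd.1 with h1 | h1
      · apply mem_union_right
        rw [hK, mem_sdiff]
        refine ⟨by simpa using h1, ?_⟩
        intro hdJ
        exact hd.2 (mem_insert_of_mem (hJ d hdJ).2)
      · apply mem_union_left
        rw [mem_cut]
        exact ⟨h1, fun hc => hd.2 (mem_insert_of_mem hc)⟩
    · obtain ⟨w, hw, rfl⟩ := mem_image.1 hd
      apply mem_union_left
      rw [mem_cut, h.st.inv w ((hJ w hw).1 ▸ h.hq), (hJ w hw).1]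
      exact ⟨(hJ w hw).2, hqS⟩
  have h1 : (cut ν τ (insert q S)).card + J.card ≤ (cut ν τ S).card + K.card := by
    rw [← hJimg, ← card_union_of_disjoint hdisj]
    exact (card_le_card hsub).trans (card_union_le _ _)
  omega

lemma cut_compl {ν : D → N} {P : Finset N} {τ : D → D} (h : St ν P τ) (T : Finset N) (hT : T ⊆ P) :
    (cut ν τ (P \ T)).card ≤ (cut ν τ T).card := by
  classical
  refine card_le_card_of_injOn τ ?_ ?_
  · intro d hd
    have hd' := mem_cut.1 hd
    rw [mem_sdiff] at hd'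
    have hdP := hd'.1.1
    simp only [mem_coe]
    rw [mem_cut, h.inv d hdP]
    refine ⟨?_, hd'.1.2⟩
    by_contra hcon
    exact hd'.2 (mem_sdiff.2 ⟨h.act d hdP, hcon⟩)
  · intro d hd e he hde
    have hd' := (mem_sdiff.1 (mem_cut.1 hd).1).1
    have he' := (mem_sdiff.1 (mem_cut.1 he).1).1
    rw [← h.inv d hd', ← h.inv e he', hde]

lemma cut_submod (ν : D → N) (τ : D → D) (S T : Finset N) :
    (cut ν τ (S ∩ T)).card + (cut ν τ (S ∪ T)).card ≤ (cut ν τ S).card + (cut ν τ T).card := by
  classical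
  have key : ∀ R : Finset N, (cut ν τ R).card = ∑ d : D, (if ν d ∈ R ∧ ν (τ d) ∉ R then 1 else 0) := by
    intro R
    rw [cut, card_filter]
  rw [key, key, key, key, ← sum_add_distrib, ← sum_add_distrib]
  apply sum_le_sum
  intro d _
  simp only [mem_inter, mem_union]
  by_cases h1 : ν d ∈ S <;> by_cases h2 : ν d ∈ T <;> by_cases h3 : ν (τ d) ∈ S <;>
    by_cases h4 : ν (τ d) ∈ T <;> simp [h1, h2, h3, h4]

/-- a bad splitting gives a tight set containing exactly the far ends of `s` and `a` -/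
lemma Spl.tight (h : Spl ν P τ q s a b c) (S : Finset N) (hS : S ⊆ P.erase q) (hne : S.Nonempty)
    (hprop : S ≠ P.erase q) (hcut : (cut ν (split τ s a b c) S).card < 4) :
    ∃ T ⊆ P.erase q, (cut ν τ T).card ≤ 4 ∧ ν (τ s) ∈ T ∧ ν (τ a) ∈ T ∧ ν (τ b) ∉ T ∧ ν (τ c) ∉ T := by
  classical
  have hev : Even (cut ν (split τ s a b c) S).card :=
    cut_even (P := P.erase q) (fun v hv => h.st.four v (mem_erase.1 hv).2)
      (fun d hd => h.split_inv hd) (fun d hd => h.split_fpf hd) S hS
  have hle2 : (cut ν (split τ s a b c) S).card ≤ 2 := by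
    obtain ⟨k, hk⟩ := hev; omega
  have hSP : S ⊆ P := hS.trans (erase_subset _ _)
  have hSneP : S ≠ P := by
    rintro rfl
    exact (mem_erase.1 (hS h.hq)).1 rfl
  have h4 := h.st.conn S hSP hne hSneP
  have hins : insert q S ≠ P := by
    intro hcon
    apply hprop
    rw [← hcon, erase_insert]
    intro hq; exact (mem_erase.1 (hS hq)).1 rfl
  have h5 := h.st.conn (insert q S) (insert_subset h.hq hSP) (insert_nonempty _ _) hins
  have hcl := h.cut_le S hS
  have card3 : ∀ x y z : D, x ≠ y → x ≠ z → y ≠ z → ({x, y, z} : Finset D).card = 3 := by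
    intro x y z h1 h2 h3
    rw [card_insert_of_notMem, card_insert_of_notMem, card_singleton]
    · simpa using h3
    · simp [h1, h2]
  have three : ∀ x y z : D, x ≠ y → x ≠ z → y ≠ z → ν x = q → ν y = q → ν z = q →
      ν (τ x) ∈ S → ν (τ y) ∈ S → ν (τ z) ∈ S → (cut ν τ S).card ≤ 4 → False := by
    intro x y z h1 h2 h3 h4' h5' h6 h7 h8 h9 h10
    have := h.cut_insert S hS {x, y, z} (by
      intro w hw
      simp only [mem_insert, mem_singleton] at hw
      rcases hw with rfl | rfl | rfl
      · exact ⟨h4', h7⟩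
      · exact ⟨h5', h8⟩
      · exact ⟨h6, h9⟩)
    rw [card3 x y z h1 h2 h3] at this
    omega
  by_cases hA : ν (τ s) ∈ S ∧ ν (τ a) ∈ S
  · by_cases hB : ν (τ b) ∈ S ∧ ν (τ c) ∈ S
    · exfalso
      rw [if_pos hA, if_pos hB] at hcl
      have := h.cut_insert S hS {s, a, b, c} (by
        intro w hw
        simp only [mem_insert, mem_singleton] at hw
        rcases hw with rfl | rfl | rfl | rfl
        · exact ⟨h.four.hs, hA.1⟩
        · exact ⟨h.four.ha, hA.2⟩
        · exact ⟨h.four.hb, hB.1⟩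
        · exact ⟨h.four.hc, hB.2⟩)
      have hc4 : ({s, a, b, c} : Finset D).card = 4 := by
        rw [card_insert_of_notMem, card3 _ _ _ h.four.ab h.four.ac h.four.bc]
        simp [h.four.sa, h.four.sb, h.four.sc]
      rw [hc4] at this
      omega
    · rw [if_pos hA, if_neg hB] at hcl
      refine ⟨S, hS, by omega, hA.1, hA.2, ?_, ?_⟩
      · intro hb
        exact three s a b h.four.sa h.four.sb h.four.ab h.four.hs h.four.ha h.four.hb hA.1 hA.2 hb
          (by omega)
      · intro hc
        exact three s a c h.four.sa h.four.sc h.four.ac h.four.hs h.four.ha h.four.hc hA.1 hA.2 hc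
          (by omega)
  · by_cases hB : ν (τ b) ∈ S ∧ ν (τ c) ∈ S
    · rw [if_neg hA, if_pos hB] at hcl
      have hns : ν (τ s) ∉ S := fun hs =>
        three b c s h.four.bc h.four.sb.symm h.four.sc.symm h.four.hb h.four.hc h.four.hs hB.1 hB.2 hs
          (by omega)
      have hna : ν (τ a) ∉ S := fun hs =>
        three b c a h.four.bc h.four.ab.symm h.four.ac.symm h.four.hb h.four.hc h.four.ha hB.1 hB.2 hs
          (by omega)
      have hTsub : P.erase q \ S ⊆ P.erase q := sdiff_subset
      have hTeq : P.erase q \ S = P \ insert q S := by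
        ext v
        simp only [mem_sdiff, mem_erase, mem_insert]
        tauto
      have h6 := cut_compl h.st (insert q S) (insert_subset h.hq hSP)
      have h7 := h.cut_insert S hS {b, c} (by
        intro w hw
        simp only [mem_insert, mem_singleton] at hw
        rcases hw with rfl | rfl
        · exact ⟨h.four.hb, hB.1⟩
        · exact ⟨h.four.hc, hB.2⟩)
      rw [card_pair h.four.bc] at h7
      refine ⟨P.erase q \ S, hTsub, ?_, ?_, ?_, ?_, ?_⟩
      · rw [hTeq]; omega
      · exact mem_sdiff.2 ⟨h.fs, hns⟩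
      · exact mem_sdiff.2 ⟨h.fa, hna⟩
      · intro hcon; exact (mem_sdiff.1 hcon).2 hB.1
      · intro hcon; exact (mem_sdiff.1 hcon).2 hB.2
    · exfalso
      rw [if_neg hA, if_neg hB] at hcl
      omega

/-- **splitting lemma**: of two different pairings at least one keeps 4-edge-connectivity -/
lemma Spl.good (h : Spl ν P τ q s a b c) :
    St ν (P.erase q) (split τ s a b c) ∨ St ν (P.erase q) (split τ s b a c) := by
  classical
  by_contra hcon
  push Not at hcon
  have h' := h.swap_ab
  have e1 : ∃ S ⊆ P.erase q, S.Nonempty ∧ S ≠ P.erase q ∧ (cut ν (split τ s a b c) S).card < 4 := by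
    by_contra h1
    push Not at h1
    exact hcon.1 (h.mkSt (fun S a b c => h1 S a b c))
  have e2 : ∃ S ⊆ P.erase q, S.Nonempty ∧ S ≠ P.erase q ∧ (cut ν (split τ s b a c) S).card < 4 := by
    by_contra h1
    push Not at h1
    exact hcon.2 (h'.mkSt (fun S a b c => h1 S a b c))
  obtain ⟨S1, a1, b1, c1, d1⟩ := e1
  obtain ⟨S2, a2, b2, c2, d2⟩ := e2
  obtain ⟨T1, t1, u1, s1, aa1, bb1, cc1⟩ := h.tight S1 a1 b1 c1 d1
  obtain ⟨T2, t2, u2, s2, bb2, aa2, cc2⟩ := h'.tight S2 a2 b2 c2 d2
  have hsub := cut_submod ν τ T1 T2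
  have hqT : q ∉ T1 := fun hq => (mem_erase.1 (t1 hq)).1 rfl
  have hI := h.st.conn (T1 ∩ T2) ((inter_subset_left.trans t1).trans (erase_subset _ _))
    ⟨ν (τ s), mem_inter.2 ⟨s1, s2⟩⟩ (by
      intro hc
      have : q ∈ T1 ∩ T2 := by rw [hc]; exact h.hq
      exact hqT (mem_inter.1 this).1)
  have hU : T1 ∪ T2 ⊆ P.erase q := union_subset t1 t2
  have h3 := h.cut_insert (T1 ∪ T2) hU {s, a, b} (by
    intro w hw
    simp only [mem_insert, mem_singleton] at hw
    rcases hw with rfl | rfl | rfl
    · exact ⟨h.four.hs, mem_union_left _ s1⟩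
    · exact ⟨h.four.ha, mem_union_left _ aa1⟩
    · exact ⟨h.four.hb, mem_union_right _ bb2⟩)
  have hc3 : ({s, a, b} : Finset D).card = 3 := by
    rw [card_insert_of_notMem, card_insert_of_notMem, card_singleton]
    · simpa using h.four.ab
    · simp [h.four.sa, h.four.sb]
  rw [hc3] at h3
  have h4 := h.st.conn (insert q (T1 ∪ T2)) (insert_subset h.hq (hU.trans (erase_subset _ _)))
    (insert_nonempty _ _) (by
      intro hc
      have hm : ν (τ c) ∈ insert q (T1 ∪ T2) := by
        rw [hc]; exact (mem_erase.1 h.fc).2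
      rcases mem_insert.1 hm with hm | hm
      · exact (mem_erase.1 h.fc).1 hm
      · rcases mem_union.1 hm with hm | hm
        · exact cc1 hm
        · exact cc2 hm)
  omega

end spl

end

end Pool.Agent.MP_fc2a59_co.Sq
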