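import Pool.Agent.Lib.MP_fc2a59_co.SqFin

/-!
# Two or four uncovered vertices
-/

set_option autoImplicit false
set_option linter.unusedSectionVars false
set_option linter.unusedVariables false

namespace Pool.Agent.MP_fc2a59_co.Sq

open Finset

section

variable {V ι : Type*} [Fintype V] [DecidableEq V] {G : SimpleGraph V} [DecidableRel G.Adj]
variable {ψ : ι → Fin 6 → V} {J : ι → Bool} [DecidableEq ι]
variable {π : Dr G ψ J → Dr G ψ J} {μ : V → V} {hμ : ∀ u, ¬ Cv ψ J u → ¬ Cv ψ J (μ u)}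

lemma inl_mem_PP (h : Blk G ψ J) (i : ι) : (Sum.inl i : ι ⊕ V) ∈ PP ψ J := by
  have := nd_mem_PP (ψ := ψ) (J := J) (ψ i 0)
  rw [h.nd_pos (vl_cn _ _ (by decide))] at this
  exact this

lemma span_block (h : Blk G ψ J) {s f : Dr G ψ J} {κ : Dr G ψ J → Bool}
    (hsol : Sol nu π (PP ψ J) (tau μ hμ) s f κ) (hP : ∃ v, ¬ Cv ψ J v) (i : ι) (c : Bool) :
    ∃ d, nu d = Sum.inl i ∧ κ d = c ∧ d ≠ s := by
  obtain ⟨u, hu⟩ := hP
  obtain ⟨d, h1, _, h3, h4, _⟩ := hsol.span c {Sum.inl i} (by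
    intro k hk
    rw [mem_singleton] at hk
    rw [hk]; exact inl_mem_PP h i) ⟨_, mem_singleton_self _⟩ (by
    intro e
    have := nd_mem_PP (ψ := ψ) (J := J) u
    rw [← e, mem_singleton, nd_unc hu] at this
    cases this)
  exact ⟨d, mem_singleton.1 h1, h3, h4⟩

lemma span_set (h : Blk G ψ J) {s f : Dr G ψ J} {κ : Dr G ψ J → Bool}
    (hsol : Sol nu π (PP ψ J) (tau μ hμ) s f κ) (c : Bool) (S : Set (ι ⊕ V))
    (h1 : ∃ v, nd ψ J v ∈ S) (h2 : ∃ v, nd ψ J v ∉ S) :
    ∃ d : Dr G ψ J, nu d ∈ S ∧ nu (tau μ hμ d) ∉ S ∧ κ d = c ∧ d ≠ s ∧ d ≠ tau μ hμ s ∧ d ≠ f ∧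
      d ≠ tau μ hμ f := by
  classical
  obtain ⟨v, hv⟩ := h1
  obtain ⟨w, hw⟩ := h2
  obtain ⟨d, a1, a2, a3⟩ := hsol.span c ((PP ψ J).filter (fun k => k ∈ S)) (filter_subset _ _)
    ⟨nd ψ J v, mem_filter.2 ⟨nd_mem_PP v, hv⟩⟩ (by
      intro e
      have := nd_mem_PP (ψ := ψ) (J := J) w
      rw [← e, mem_filter] at this
      exact hw this.2)
  refine ⟨d, (mem_filter.1 a1).2, ?_, a3⟩
  intro hcon
  exact a2 (mem_filter.2 ⟨nd_mem_PP _, hcon⟩)

open Classical in
theorem caseA (h : Blk G ψ J)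
    (hπ2 : ∀ d i (a : Fin 6), a.val < 4 → fst d = ψ i a → fst (π d) = ψ i (op a))
    {s f : Dr G ψ J} {κ : Dr G ψ J → Bool}
    (hsol : Sol nu π (PP ψ J) (tau μ hμ) s f κ) (hP : ∃ v, ¬ Cv ψ J v)
    (hs : ∃ u, s = Sum.inr u) (hf : ∃ u, f = Sum.inr u)
    (hr : ∀ u, (Sum.inr u : Dr G ψ J) = s ∨ (Sum.inr u : Dr G ψ J) = tau μ hμ s ∨
      (Sum.inr u : Dr G ψ J) = f ∨ (Sum.inr u : Dr G ψ J) = tau μ hμ f) :
    ∃ p q rc, Asm G ψ J ∅ p q rc := by
  obtain ⟨us, rfl⟩ := hs
  obtain ⟨uf, rfl⟩ := hf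
  obtain ⟨D, hD⟩ := h.corner_darts (Sum.inr us)
  have hpat : Pat nu π (PP ψ J) κ := by
    have := hsol.pat (κ (Sum.inr us))
    rwa [Function.update_eq_self] at this
  have hpq : ∀ i, ∃ p q : Bool, ∀ a : Fin 6, a.val < 4 → actI (J i) p q (κ (D i a)) a = true := by
    intro i
    refine h.pq_block hπ2 hD hpat i (inl_mem_PP h i) fun c => ?_
    obtain ⟨d, h1, h2, _⟩ := span_block h hsol hP i c
    exact ⟨d, h1, h2⟩
  choose p q hpq using hpq
  let rc : V → V → Bool := fun v w => if hh : G.Adj v w ∧ ¬ Itn ψ J v w then κ (od v w hh) else true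
  have rcv : ∀ v w (hh : G.Adj v w ∧ ¬ Itn ψ J v w), rc v w = κ (od v w hh) := by
    intro v w hh
    simp only [rc, dif_pos hh]
  refine ⟨p, q, rc, h, ?_, ?_, ?_, ?_⟩
  · intro v w
    by_cases hh : G.Adj v w ∧ ¬ Itn ψ J v w
    · have hh' : G.Adj w v ∧ ¬ Itn ψ J w v := ⟨hh.1.symm, fun e => hh.2 e.symm⟩
      rw [rcv v w hh, rcv w v hh', ← tau_od (μ := μ) (hμ := hμ) hh]
      symm
      apply hsol.mono _ (nd_mem_PP _)
      · intro e; cases e
      · intro e; rw [tau_inr] at e; cases e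
      · intro e; cases e
      · intro e; rw [tau_inr] at e; cases e
    · have hh' : ¬ (G.Adj w v ∧ ¬ Itn ψ J w v) := fun e => hh ⟨e.1.symm, fun e' => e.2 e'.symm⟩
      simp only [rc, dif_neg hh, dif_neg hh']
  · intro i a ha _ w hw hi
    rw [rcv _ _ ⟨hw, hi⟩, (hD i a ha).2 (od (ψ i a) w ⟨hw, hi⟩) rfl]
    exact hpq i a ha
  · intro x hx
    exact absurd hx (notMem_empty _)
  · intro c S h1 h2
    obtain ⟨d, a1, a2, a3, a4, a5, a6, a7⟩ := span_set h hsol c S h1 h2
    rcases d with ⟨⟨v, w⟩, hh⟩ | u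
    · exact ⟨v, w, hh.1, hh.2, notMem_empty _, notMem_empty _, a1, a2, (rcv v w hh).trans a3⟩
    · rcases hr u with e | e | e | e
      · exact absurd e a4
      · exact absurd e a5
      · exact absurd e a6
      · exact absurd e a7

open Classical in
theorem caseB (h : Blk G ψ J) (hμ2 : ∀ u, ¬ Cv ψ J u → μ (μ u) = u)
    (hπ2 : ∀ d i (a : Fin 6), a.val < 4 → fst d = ψ i a → fst (π d) = ψ i (op a))
    {x u : V} (hxu : G.Adj x u ∧ ¬ Itn ψ J x u) (hx : Cv ψ J x) (hu : ¬ Cv ψ J u)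
    {f : Dr G ψ J} {κ : Dr G ψ J → Bool}
    (hsol : Sol nu π (PP ψ J) (tau μ hμ) (od x u hxu) f κ) (hf : ∃ u, f = Sum.inr u)
    (hr : ∀ u, (Sum.inr u : Dr G ψ J) = f ∨ (Sum.inr u : Dr G ψ J) = tau μ hμ f) :
    ∃ p q rc, Asm G ψ J {x} p q rc := by
  obtain ⟨uf, rfl⟩ := hf
  set s : Dr G ψ J := od x u hxu with hsdef
  obtain ⟨D, hD⟩ := h.corner_darts s
  obtain ⟨i₀, a₀, ha₀v, hxi⟩ := hx
  have ha₀ : a₀.val < 4 := by
    by_contra hcon
    have h1 := hxu.1
    rw [hxi] at h1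
    exact hxu.2 (by rw [hxi]; exact h.no_outer ha₀v hcon h1)
  have hDs : D i₀ a₀ = s := ((hD i₀ a₀ ha₀).2 s hxi).symm
  have hpat : Pat nu π (PP ψ J) κ := by
    have := hsol.pat (κ s)
    rwa [Function.update_eq_self] at this
  have hspec := h.pq_special hπ2 hD i₀ (inl_mem_PP h i₀) ha₀ (κ := κ)
    (fun b => by rw [hDs]; exact hsol.pat b)
    (fun c => by rw [hDs]; exact span_block h hsol ⟨u, hu⟩ i₀ c)
  have hpq : ∀ i, ∃ p q : Bool, (∀ a : Fin 6, a.val < 4 → ¬ (i = i₀ ∧ a = a₀) →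
      actI (J i) p q (κ (D i a)) a = true) ∧
      (i = i₀ → actI (J i) p q (κ (D i (op a₀))) a₀ = false) := by
    intro i
    by_cases hi : i = i₀
    · subst hi
      obtain ⟨p, q, h1, h2⟩ := hspec
      exact ⟨p, q, fun a ha hne => h1 a ha (fun e => hne ⟨rfl, e⟩), fun _ => h2⟩
    · obtain ⟨p, q, h1⟩ := h.pq_block hπ2 hD hpat i (inl_mem_PP h i) (fun c => by
        obtain ⟨d, e1, e2, _⟩ := span_block h hsol ⟨u, hu⟩ i c
        exact ⟨d, e1, e2⟩)
      exact ⟨p, q, fun a ha _ => h1 a ha, fun e => absurd e hi⟩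
  choose p q hpq using hpq
  set e₀ : Bool := κ (D i₀ (op a₀)) with he₀
  let κ' : Dr G ψ J → Bool := fun d => if d = s ∨ d = tau μ hμ s then e₀ else κ d
  let rc : V → V → Bool := fun v w => if hh : G.Adj v w ∧ ¬ Itn ψ J v w then κ' (od v w hh) else true
  have rcv : ∀ v w (hh : G.Adj v w ∧ ¬ Itn ψ J v w), rc v w = κ' (od v w hh) := by
    intro v w hh
    simp only [rc, dif_pos hh]
  have hts : tau μ hμ s = od u x ⟨hxu.1.symm, fun e => hxu.2 e.symm⟩ := rfl
  have hκ' : ∀ d : Dr G ψ J, (∃ v w hh, d = od v w hh) → κ' (tau μ hμ d) = κ' d := by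
    rintro d ⟨v, w, hh, rfl⟩
    by_cases h1 : od v w hh = s
    · have : κ' (tau μ hμ (od v w hh)) = e₀ := by
        simp only [κ', h1, or_true, if_true]
      rw [this]
      simp only [κ', h1, true_or, if_true]
    · by_cases h2 : od v w hh = tau μ hμ s
      · have : κ' (tau μ hμ (od v w hh)) = e₀ := by
          simp only [κ', h2, tau_tau hμ2, true_or, if_true]
        rw [this]
        simp only [κ', h2, or_true, if_true]
      · have h3 : tau μ hμ (od v w hh) ≠ s := by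
          intro e
          apply h2
          rw [← e, tau_tau hμ2]
        have h4 : tau μ hμ (od v w hh) ≠ tau μ hμ s := by
          intro e
          apply h1
          rw [← tau_tau (hμ := hμ) hμ2 (od v w hh), e, tau_tau hμ2]
        simp only [κ', h1, h2, h3, h4, or_self, if_false]
        apply hsol.mono _ (nd_mem_PP _) h1 h2
        · intro e; cases e
        · intro e; rw [tau_inr] at e; cases e
  -- a dart at `x` is `s`
  have atx : ∀ d : Dr G ψ J, fst d = x → d = s := by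
    intro d hd
    rw [← hDs]
    exact (hD i₀ a₀ ha₀).2 d (hd.trans hxi)
  refine ⟨p, q, rc, h, ?_, ?_, ?_, ?_⟩
  · intro v w
    by_cases hh : G.Adj v w ∧ ¬ Itn ψ J v w
    · have hh' : G.Adj w v ∧ ¬ Itn ψ J w v := ⟨hh.1.symm, fun e => hh.2 e.symm⟩
      rw [rcv v w hh, rcv w v hh', ← tau_od (μ := μ) (hμ := hμ) hh]
      exact (hκ' _ ⟨v, w, hh, rfl⟩).symm
    · have hh' : ¬ (G.Adj w v ∧ ¬ Itn ψ J w v) := fun e => hh ⟨e.1.symm, fun e' => e.2 e'.symm⟩
      simp only [rc, dif_neg hh, dif_neg hh']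
  · intro i a ha hX w hw hi
    have hne : ¬ (i = i₀ ∧ a = a₀) := by
      rintro ⟨rfl, rfl⟩
      exact hX (by rw [mem_singleton]; exact hxi.symm)
    have e1 := (hD i a ha).2 (od (ψ i a) w ⟨hw, hi⟩) rfl
    have n1 : od (ψ i a) w ⟨hw, hi⟩ ≠ s := by
      intro e
      have := congrArg fst e
      rw [fst_od, hsdef, fst_od, hxi] at this
      exact hne (h.inj _ _ _ _ (vl_cn _ _ ha) (vl_cn _ _ ha₀) this)
    have n2 : od (ψ i a) w ⟨hw, hi⟩ ≠ tau μ hμ s := by
      intro e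
      rw [hts] at e
      have := congrArg fst e
      rw [fst_od, fst_od] at this
      exact hu ⟨i, a, vl_cn _ _ ha, this.symm⟩
    have : rc (ψ i a) w = κ (D i a) := by
      rw [rcv _ _ ⟨hw, hi⟩, ← e1]
      simp only [κ', n1, n2, or_self, if_false]
    rw [this]
    exact (hpq i).1 a ha hne
  · intro y hy
    rw [mem_singleton] at hy
    subst hy
    refine ⟨i₀, a₀, u, ha₀, hxi, hxu.1, hxu.2, hu, ?_⟩
    have : rc y u = e₀ := by
      rw [rcv _ _ hxu]
      have : od y u hxu = s := rfl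
      simp only [κ', this, true_or, if_true]
    rw [this, he₀]
    exact (hpq i₀).2 rfl
  · intro c S h1 h2
    obtain ⟨d, a1, a2, a3, a4, a5, a6, a7⟩ := span_set h hsol c S h1 h2
    rcases d with ⟨⟨v, w⟩, hh⟩ | u'
    · refine ⟨v, w, hh.1, hh.2, ?_, ?_, a1, a2, ?_⟩
      · intro hv
        rw [mem_singleton] at hv
        exact a4 (atx _ hv)
      · intro hw
        rw [mem_singleton] at hw
        have : tau μ hμ (Sum.inl ⟨(v, w), hh⟩) = s := atx _ hw
        apply a5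
        rw [← this, tau_tau hμ2]
      · rw [rcv v w hh]
        have e1 : od v w hh = (Sum.inl ⟨(v, w), hh⟩ : Dr G ψ J) := rfl
        rw [e1]
        simp only [κ', a4, a5, or_self, if_false]
        exact a3
    · rcases hr u' with e | e
      · exact absurd e a6
      · exact absurd e a7

include G in
open Classical in
/-- two or four uncovered vertices -/
theorem blk_split [Fintype ι] (h : Blk G ψ J)
    (hcyc : ∀ S : Finset V, HasCyc G S → HasCyc G Sᶜ → 4 ≤ (crs G S).card)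
    (hU : (univ.filter (fun u => ¬ Cv ψ J u)).card = 2 ∨ (univ.filter (fun u => ¬ Cv ψ J u)).card = 4) :
    ∃ T₁ T₂ : SimpleGraph V,
      T₁ ⊔ T₂ = G ∧ Disjoint T₁ T₂ ∧
      T₁.IsAcyclic ∧ T₂.IsAcyclic ∧
      (∀ u v, u ∈ T₁.support → v ∈ T₁.support → T₁.Reachable u v) ∧
      (∀ u v, u ∈ T₂.support → v ∈ T₂.support → T₂.Reachable u v) := by
  set U := univ.filter (fun u => ¬ Cv ψ J u) with hUdef
  have memU : ∀ u, u ∈ U ↔ ¬ Cv ψ J u := by
    intro u; simp [hUdef]
  obtain ⟨g, hg⟩ := inv_exists U (by rcases hU with e | e <;> rw [e] <;> decide)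
  have hμ : ∀ u, ¬ Cv ψ J u → ¬ Cv ψ J (g u) := fun u hu => (memU _).1 (hg u ((memU _).2 hu)).1
  have hμ2 : ∀ u, ¬ Cv ψ J u → g (g u) = u := fun u hu => (hg u ((memU _).2 hu)).2.1
  have hμ3 : ∀ u, ¬ Cv ψ J u → g u ≠ u := fun u hu => (hg u ((memU _).2 hu)).2.2
  have hst := st_blk (hμ := hμ) h hμ2 hμ3 hcyc
  obtain ⟨π, hπ, hπ2⟩ := pairing_blk h
  obtain ⟨u₁, hu₁⟩ := card_pos.1 (by omega : 0 < U.card)
  have hu₁' := (memU _).1 hu₁
  have hPc : (PP ψ J).card = ((PP ψ J).card - 1) + 1 := by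
    have : 0 < (PP ψ J).card := card_pos.2 ⟨_, nd_mem_PP u₁⟩
    omega
  rcases hU with hU | hU
  · -- two uncovered vertices
    have hsub : ({u₁, g u₁} : Finset V) ⊆ U := by
      intro v hv
      simp only [mem_insert, mem_singleton] at hv
      rcases hv with rfl | rfl
      · exact hu₁
      · exact (hg _ hu₁).1
    have hEq : ({u₁, g u₁} : Finset V) = U :=
      eq_of_subset_of_card_le hsub (by rw [hU, card_pair (hμ3 _ hu₁').symm])
    -- a neighbour outside
    have hx : ∃ x, G.Adj x u₁ ∧ Cv ψ J x := by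
      by_contra hcon
      push Not at hcon
      have h1 : G.neighborFinset u₁ ⊆ {g u₁} := by
        intro w hw
        rw [SimpleGraph.mem_neighborFinset] at hw
        have h2 := (memU _).2 (hcon w hw.symm)
        rw [← hEq] at h2
        simp only [mem_insert, mem_singleton] at h2
        rcases h2 with h2 | h2
        · exact absurd h2.symm hw.ne
        · exact mem_singleton.2 h2
      have h2 := card_le_card h1
      rw [SimpleGraph.card_neighborFinset_eq_degree, h.deg, card_singleton] at h2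
      omega
    obtain ⟨x, hx1, hx2⟩ := hx
    have hxu : G.Adj x u₁ ∧ ¬ Itn ψ J x u₁ := ⟨hx1, fun e => hu₁' e.cv'⟩
    obtain ⟨κ, hκ⟩ := exists_sol hπ _ (PP ψ J) (tau g hμ) (od x u₁ hxu) (Sum.inr ⟨u₁, hu₁'⟩) hPc hst
      (nd_mem_PP _) (nd_mem_PP _) (by intro e; cases e) (by intro e; rw [tau_od] at e; cases e)
    obtain ⟨p, q, rc, hA⟩ := caseB h hμ2 hπ2 hxu hx2 hu₁' hκ ⟨_, rfl⟩ (by
      rintro ⟨u, hu⟩
      have h1 := (memU _).2 hu
      rw [← hEq] at h1
      simp only [mem_insert, mem_singleton] at h1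
      rcases h1 with rfl | rfl
      · left; rfl
      · right; rfl)
    refine hA.final ?_ ?_
    · show 2 ≤ U.card
      omega
    · show 4 ≤ U.card + 2 * _
      rw [hU, card_singleton]
  · -- four uncovered vertices
    have hsub : ({u₁, g u₁} : Finset V) ⊆ U := by
      intro v hv
      simp only [mem_insert, mem_singleton] at hv
      rcases hv with rfl | rfl
      · exact hu₁
      · exact (hg _ hu₁).1
    have h3 : ∃ u₃ ∈ U, u₃ ∉ ({u₁, g u₁} : Finset V) := by
      by_contra hcon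
      push Not at hcon
      have := card_le_card (fun v hv => hcon v hv : U ⊆ ({u₁, g u₁} : Finset V))
      rw [hU, card_pair (hμ3 _ hu₁').symm] at this
      omega
    obtain ⟨u₃, hu₃, hne⟩ := h3
    simp only [mem_insert, mem_singleton, not_or] at hne
    have hu₃' := (memU _).1 hu₃
    have n1 : g u₃ ≠ u₁ := by
      intro e
      apply hne.2
      rw [← e, hμ2 _ hu₃']
    have n2 : g u₃ ≠ g u₁ := by
      intro e
      apply hne.1
      rw [← hμ2 _ hu₃', e, hμ2 _ hu₁']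
    have hEq : ({u₁, g u₁, u₃, g u₃} : Finset V) = U := by
      apply eq_of_subset_of_card_le
      · intro v hv
        simp only [mem_insert, mem_singleton] at hv
        rcases hv with rfl | rfl | rfl | rfl
        · exact hu₁
        · exact (hg _ hu₁).1
        · exact hu₃
        · exact (hg _ hu₃).1
      · rw [hU, card_insert_of_notMem, card_insert_of_notMem, card_pair (hμ3 _ hu₃').symm]
        · simp only [mem_insert, mem_singleton, not_or]
          exact ⟨fun e => hne.2 e.symm, fun e => n2 e.symm⟩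
        · simp only [mem_insert, mem_singleton, not_or]
          exact ⟨(hμ3 _ hu₁').symm, fun e => hne.1 e.symm, fun e => n1 e.symm⟩
    obtain ⟨κ, hκ⟩ := exists_sol hπ _ (PP ψ J) (tau g hμ) (Sum.inr ⟨u₁, hu₁'⟩) (Sum.inr ⟨u₃, hu₃'⟩) hPc hst
      (nd_mem_PP _) (nd_mem_PP _) (by
        intro e
        have := congrArg fst e
        exact hne.1 this) (by
        intro e
        rw [tau_inr] at e
        have := congrArg fst e
        exact hne.2 this)
    obtain ⟨p, q, rc, hA⟩ := caseA h hπ2 hκ ⟨u₁, hu₁'⟩ ⟨_, rfl⟩ ⟨_, rfl⟩ (by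
      rintro ⟨u, hu⟩
      have h1 := (memU _).2 hu
      rw [← hEq] at h1
      simp only [mem_insert, mem_singleton] at h1
      rcases h1 with rfl | rfl | rfl | rfl
      · left; rfl
      · right; left; rfl
      · right; right; left; rfl
      · right; right; right; rfl)
    refine hA.final ?_ ?_
    · show 2 ≤ U.card
      omega
    · show 4 ≤ U.card + 2 * _
      omega

end

end Pool.Agent.MP_fc2a59_co.Sq
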