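import Pool.Agent.Lib.MP_fc2a59_co.SqAsm

/-!
# From the colouring of the darts to the data of the assembly
-/

set_option autoImplicit false
set_option linter.unusedSectionVars false
set_option linter.unusedVariables false

namespace Pool.Agent.MP_fc2a59_co.Sq

open Finset

/-- next corner -/
def sc : Fin 6 → Fin 6 := ![1, 2, 3, 0, 4, 5]

lemma sc_cn : ∀ a : Fin 6, a.val < 4 → (sc a).val < 4 ∧ sc a ≠ a ∧ sc a ≠ op a ∧ op (sc a) ≠ a ∧
    ∀ b : Fin 6, b.val < 4 → b = a ∨ b = op a ∨ b = sc a ∨ b = op (sc a) := by decide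

lemma pq_gen : ∀ y0 y1 y2 y3 : Bool, ¬ (y0 = y1 ∧ y1 = y2 ∧ y2 = y3) →
    (y0 = y2 → y1 = y3 → y0 = y1) →
    ∃ p q : Bool, ∀ (J : Bool) (a : Fin 6), a.val < 4 →
      actI J p q (![y0, y1, y2, y3, false, false] a) a = true := by decide

lemma pq_spc : ∀ (y0 y1 y2 y3 : Bool) (a : Fin 6), a.val < 4 →
    (![y0, y1, y2, y3, false, false] (sc a) = ![y0, y1, y2, y3, false, false] (op (sc a)) →
      ![y0, y1, y2, y3, false, false] (op a) = ![y0, y1, y2, y3, false, false] (sc a)) →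
    (![y0, y1, y2, y3, false, false] (op a) ≠ ![y0, y1, y2, y3, false, false] (sc a) ∨
      ![y0, y1, y2, y3, false, false] (op a) ≠ ![y0, y1, y2, y3, false, false] (op (sc a))) →
    ∃ p q : Bool, ∀ (J : Bool), (∀ b : Fin 6, b.val < 4 → b ≠ a →
      actI J p q (![y0, y1, y2, y3, false, false] b) b = true) ∧
      actI J p q (![y0, y1, y2, y3, false, false] (op a)) a = false := by decide

lemma vec4 (y : Fin 6 → Bool) : ∀ a : Fin 6, a.val < 4 → 
    ![y 0, y 1, y 2, y 3, false, false] a = y a := by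
  intro a ha
  fin_cases a
  · rfl
  · rfl
  · rfl
  · rfl
  · exact absurd ha (by decide)
  · exact absurd ha (by decide)

section

variable {V ι : Type*} [Fintype V] [DecidableEq V] {G : SimpleGraph V} [DecidableRel G.Adj]
variable {ψ : ι → Fin 6 → V} {J : ι → Bool} [DecidableEq ι]

lemma Blk.corner_darts (h : Blk G ψ J) (s : Dr G ψ J) : ∃ D : ι → Fin 6 → Dr G ψ J,
    ∀ i (a : Fin 6), a.val < 4 → fst (D i a) = ψ i a ∧ ∀ d, fst d = ψ i a → d = D i a := by
  classical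
  obtain ⟨o, ho⟩ := h.outer
  refine ⟨fun i a => if ha : a.val < 4 then od (ψ i a) (o i a) (ho i a ha).1 else s, ?_⟩
  intro i a ha
  simp only [dif_pos ha]
  exact ⟨rfl, fun d hd => dart_unique ho ha hd⟩

section

variable {π : Dr G ψ J → Dr G ψ J} {D : ι → Fin 6 → Dr G ψ J}

lemma pi_D (hπ2 : ∀ d i (a : Fin 6), a.val < 4 → fst d = ψ i a → fst (π d) = ψ i (op a))
    (hD : ∀ i (a : Fin 6), a.val < 4 → fst (D i a) = ψ i a ∧ ∀ d, fst d = ψ i a → d = D i a)
    {i : ι} {a : Fin 6} (ha : a.val < 4) : π (D i a) = D i (op a) :=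
  (hD i (op a) (op_cn _ ha).1).2 _ (hπ2 _ i a ha (hD i a ha).1)

lemma Blk.nu_D (h : Blk G ψ J)
    (hD : ∀ i (a : Fin 6), a.val < 4 → fst (D i a) = ψ i a ∧ ∀ d, fst d = ψ i a → d = D i a)
    {i : ι} {a : Fin 6} (ha : a.val < 4) : nu (D i a) = Sum.inl i := by
  unfold nu
  rw [(hD i a ha).1]
  exact h.nd_pos (vl_cn _ _ ha)

lemma Blk.eq_D (h : Blk G ψ J)
    (hD : ∀ i (a : Fin 6), a.val < 4 → fst (D i a) = ψ i a ∧ ∀ d, fst d = ψ i a → d = D i a)
    {i : ι} {d : Dr G ψ J} (hd : nu d = Sum.inl i) : ∃ a : Fin 6, a.val < 4 ∧ d = D i a := by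
  obtain ⟨a, ha, hda⟩ := h.corner_of_dart hd
  exact ⟨a, ha, (hD i a ha).2 d hda⟩

/-- colours of the internal edges of an ordinary block -/
lemma Blk.pq_block (h : Blk G ψ J) 
    (hπ2 : ∀ d i (a : Fin 6), a.val < 4 → fst d = ψ i a → fst (π d) = ψ i (op a))
    (hD : ∀ i (a : Fin 6), a.val < 4 → fst (D i a) = ψ i a ∧ ∀ d, fst d = ψ i a → d = D i a)
    {κ : Dr G ψ J → Bool} (hpat : Pat nu π (PP ψ J) κ) (i : ι) (hi : (Sum.inl i : ι ⊕ V) ∈ PP ψ J)
    (hc : ∀ c, ∃ d, nu d = Sum.inl i ∧ κ d = c) :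
    ∃ p q : Bool, ∀ a : Fin 6, a.val < 4 → actI (J i) p q (κ (D i a)) a = true := by
  have h0 : (0 : Fin 6).val < 4 := by decide
  have h1 : (1 : Fin 6).val < 4 := by decide
  have k1 : ¬ (κ (D i 0) = κ (D i 1) ∧ κ (D i 1) = κ (D i 2) ∧ κ (D i 2) = κ (D i 3)) := by
    rintro ⟨e1, e2, e3⟩
    have hall : ∀ a : Fin 6, a.val < 4 → κ (D i a) = κ (D i 0) := by
      intro a ha
      fin_cases a
      · rfl
      · exact e1.symm
      · exact (e1.trans e2).symm
      · exact ((e1.trans e2).trans e3).symm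
      · exact absurd ha (by decide)
      · exact absurd ha (by decide)
    obtain ⟨d, hd, hd'⟩ := hc (!κ (D i 0))
    obtain ⟨a, ha, rfl⟩ := h.eq_D hD hd
    rw [hall a ha] at hd'
    cases hk : κ (D i 0) <;> rw [hk] at hd' <;> exact absurd hd' (by decide)
  have k2 : κ (D i 0) = κ (D i 2) → κ (D i 1) = κ (D i 3) → κ (D i 0) = κ (D i 1) := by
    intro e1 e2
    have := hpat (D i 0) (D i 1) (by rw [h.nu_D hD h0]; exact hi) (by rw [h.nu_D hD h0, h.nu_D hD h1])
    rw [pi_D hπ2 hD h0, pi_D hπ2 hD h1] at this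
    exact this e1 e2
  obtain ⟨p, q, hpq⟩ := pq_gen _ _ _ _ k1 k2
  refine ⟨p, q, fun a ha => ?_⟩
  have := hpq (J i) a ha
  rw [vec4 (fun a => κ (D i a)) a ha] at this
  exact this

/-- colours of the internal edges of the block with the free end -/
lemma Blk.pq_special (h : Blk G ψ J) 
    (hπ2 : ∀ d i (a : Fin 6), a.val < 4 → fst d = ψ i a → fst (π d) = ψ i (op a))
    (hD : ∀ i (a : Fin 6), a.val < 4 → fst (D i a) = ψ i a ∧ ∀ d, fst d = ψ i a → d = D i a)
    {κ : Dr G ψ J → Bool} (i : ι) (hi : (Sum.inl i : ι ⊕ V) ∈ PP ψ J) {a : Fin 6} (ha : a.val < 4)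
    (hpat : ∀ b, Pat nu π (PP ψ J) (Function.update κ (D i a) b)) 
    (hc : ∀ c, ∃ d, nu d = Sum.inl i ∧ κ d = c ∧ d ≠ D i a) :
    ∃ p q : Bool, (∀ b : Fin 6, b.val < 4 → b ≠ a → actI (J i) p q (κ (D i b)) b = true) ∧
      actI (J i) p q (κ (D i (op a))) a = false := by
  obtain ⟨s1, s2, s3, s4, s5⟩ := sc_cn a ha
  obtain ⟨o1, o2, o3⟩ := op_cn a ha
  obtain ⟨r1, r2, r3⟩ := op_cn (sc a) s1
  have neD : ∀ b b' : Fin 6, b.val < 4 → b'.val < 4 → b ≠ b' → D i b ≠ D i b' := by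
    intro b b' hb hb' hne e
    have e' := congrArg fst e
    rw [(hD i b hb).1, (hD i b' hb').1] at e'
    exact hne (h.inj i i b b' (vl_cn _ _ hb) (vl_cn _ _ hb') e').2
  have k1 : ![κ (D i 0), κ (D i 1), κ (D i 2), κ (D i 3), false, false] (sc a) =
      ![κ (D i 0), κ (D i 1), κ (D i 2), κ (D i 3), false, false] (op (sc a)) →
      ![κ (D i 0), κ (D i 1), κ (D i 2), κ (D i 3), false, false] (op a) =
      ![κ (D i 0), κ (D i 1), κ (D i 2), κ (D i 3), false, false] (sc a) := by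
    rw [vec4 (fun a => κ (D i a)) _ s1, vec4 (fun a => κ (D i a)) _ r1,
      vec4 (fun a => κ (D i a)) _ o1]
    intro e1
    have := hpat (κ (D i (op a))) (D i a) (D i (sc a)) (by rw [h.nu_D hD ha]; exact hi)
      (by rw [h.nu_D hD ha, h.nu_D hD s1])
    rw [pi_D hπ2 hD ha, pi_D hπ2 hD s1, Function.update_self,
      Function.update_of_ne (neD _ _ o1 ha o3), Function.update_of_ne (neD _ _ s1 ha s2),
      Function.update_of_ne (neD _ _ r1 ha s4)] at this
    exact this rfl e1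
  have k2 : ![κ (D i 0), κ (D i 1), κ (D i 2), κ (D i 3), false, false] (op a) ≠
      ![κ (D i 0), κ (D i 1), κ (D i 2), κ (D i 3), false, false] (sc a) ∨
      ![κ (D i 0), κ (D i 1), κ (D i 2), κ (D i 3), false, false] (op a) ≠
      ![κ (D i 0), κ (D i 1), κ (D i 2), κ (D i 3), false, false] (op (sc a)) := by
    rw [vec4 (fun a => κ (D i a)) _ s1, vec4 (fun a => κ (D i a)) _ r1,
      vec4 (fun a => κ (D i a)) _ o1]
    obtain ⟨d, hd, hd', hne⟩ := hc (!κ (D i (op a)))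
    obtain ⟨b, hb, rfl⟩ := h.eq_D hD hd
    rcases s5 b hb with rfl | rfl | rfl | rfl
    · exact absurd rfl hne
    · exfalso
      cases hk : κ (D i (op a)) <;> rw [hk] at hd' <;> exact absurd hd' (by decide)
    · left
      rw [hd']
      cases κ (D i (op a)) <;> decide
    · right
      rw [hd']
      cases κ (D i (op a)) <;> decide
  obtain ⟨p, q, hpq⟩ := pq_spc _ _ _ _ a ha k1 k2
  refine ⟨p, q, fun b hb hne => ?_, ?_⟩
  · have := (hpq (J i)).1 b hb hne
    rw [vec4 (fun a => κ (D i a)) b hb] at this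
    exact this
  · have := (hpq (J i)).2
    rw [vec4 (fun a => κ (D i a)) _ o1] at this
    exact this

end

end

end Pool.Agent.MP_fc2a59_co.Sq
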