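import Pool.Agent.Lib.MP_fc2a59_co.SqCut

/-!
# Two spanning trees with forbidden transitions and one free end
-/

set_option autoImplicit false
set_option linter.unusedSectionVars false
set_option linter.unusedVariables false

namespace Pool.Agent.MP_fc2a59_co.Sq

open Finset

section

variable {D N : Type*} [Fintype D] [DecidableEq D] [DecidableEq N]

/-- the forbidden pairing: a fixed-point free involution preserving the node -/
structure Pairing (ν : D → N) (π : D → D) : Prop where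
  inv : ∀ d, π (π d) = d
  fpf : ∀ d, π d ≠ d
  node : ∀ d, ν (π d) = ν d

/-- pattern condition at all active nodes -/
def Pat (ν : D → N) (π : D → D) (P : Finset N) (κ : D → Bool) : Prop :=
  ∀ d d', ν d ∈ P → ν d' = ν d → κ d = κ (π d) → κ d' = κ (π d') → κ d = κ d'

structure Sol (ν : D → N) (π : D → D) (P : Finset N) (τ : D → D) (s f : D) (κ : D → Bool) :
    Prop where
  mono : ∀ d, ν d ∈ P → d ≠ s → d ≠ τ s → d ≠ f → d ≠ τ f → κ (τ d) = κ d
  flip : κ (τ f) = !κ f
  span : ∀ c : Bool, ∀ S ⊆ P, S.Nonempty → S ≠ P →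
    ∃ d, ν d ∈ S ∧ ν (τ d) ∉ S ∧ κ d = c ∧ d ≠ s ∧ d ≠ τ s ∧ d ≠ f ∧ d ≠ τ f
  pat : ∀ b : Bool, Pat ν π P (Function.update κ s b)

lemma pat_node {ν : D → N} {π : D → D} (hπ : Pairing ν π) {q : N} {s w : D} {κ : D → Bool}
    (hall : ∀ d, ν d = q → d = s ∨ d = π s ∨ d = w ∨ d = π w) (hws : w ≠ s) (hwps : w ≠ π s)
    (hκ : κ w ≠ κ (π w)) (b : Bool) :
    ∀ d d', ν d = q → ν d' = ν d → Function.update κ s b d = Function.update κ s b (π d) →
      Function.update κ s b d' = Function.update κ s b (π d') →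
      Function.update κ s b d = Function.update κ s b d' := by
  have hπw : π w ≠ s := by
    intro h; apply hwps; rw [← h, hπ.inv]
  have key : ∀ d, ν d = q → Function.update κ s b d = Function.update κ s b (π d) →
      d = s ∨ d = π s := by
    intro d hd h
    rcases hall d hd with h1 | h1 | h1 | h1
    · exact Or.inl h1
    · exact Or.inr h1
    · exfalso
      subst h1
      rw [Function.update_of_ne hws, Function.update_of_ne hπw] at h
      exact hκ h
    · exfalso
      subst h1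
      rw [hπ.inv, Function.update_of_ne hws, Function.update_of_ne hπw] at h
      exact hκ h.symm
  intro d d' hd hd' h h'
  rcases key d hd h with h1 | h1 <;> rcases key d' (hd'.trans hd) h' with h2 | h2
  · rw [h1, h2]
  · subst h1; subst h2; exact h
  · subst h1; subst h2; rw [hπ.inv] at h; exact h
  · rw [h1, h2]

/-- combine: patterns at `q` and at the other nodes -/
lemma pat_combine {ν : D → N} {π : D → D} (hπ : Pairing ν π) {P : Finset N} {q : N} {s : D} {κ κ' : D → Bool}
    (hs : ν s = q)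
    (h1 : ∀ b : Bool, ∀ d d', ν d = q → ν d' = ν d → Function.update κ s b d = Function.update κ s b (π d) →
      Function.update κ s b d' = Function.update κ s b (π d') →
      Function.update κ s b d = Function.update κ s b d')
    (h2 : Pat ν π (P.erase q) κ') (h3 : ∀ d, ν d ∈ P.erase q → κ d = κ' d) (b : Bool) :
    Pat ν π P (Function.update κ s b) := by
  intro d d' hd hd' h h'
  by_cases hq : ν d = q
  · exact h1 b d d' hq hd' h h'
  · have e1 : ν d ∈ P.erase q := mem_erase.2 ⟨hq, hd⟩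
    have e2 : ∀ x, ν x ∈ P.erase q → Function.update κ s b x = κ' x := by
      intro x hx
      rw [Function.update_of_ne, h3 x hx]
      rintro rfl
      exact (mem_erase.1 hx).1 hs
    have e3 : ν d' ∈ P.erase q := hd' ▸ e1
    have e4 : ν (π d) ∈ P.erase q := by rw [hπ.node]; exact e1
    have e5 : ν (π d') ∈ P.erase q := by rw [hπ.node]; exact e3
    rw [e2 d e1, e2 (π d) e4] at h
    rw [e2 d' e3, e2 (π d') e5] at h'
    rw [e2 d e1, e2 d' e3]
    exact h2 d d' e1 hd' h h'

/-- lifting the spanning property -/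
lemma span_lift {ν : D → N} {P : Finset N} {τ : D → D} {q : N} (hq : q ∈ P) (h2 : 2 ≤ P.card)
    {κ : D → Bool} {X : D → Prop}
    (c : Bool)
    (hbig : ∀ S ⊆ P.erase q, S.Nonempty → S ≠ P.erase q → ∀ S' : Finset N,
      (S' = S ∨ S' = insert q S) → ∃ d, ν d ∈ S' ∧ ν (τ d) ∉ S' ∧ κ d = c ∧ X d)
    (w : D) (hw : ν w = q) (hw' : ν (τ w) ≠ q) (hwc : κ w = c) (hwX : X w)
    (u : D) (hu : ν (τ u) = q) (hu' : ν u ∈ P.erase q) (huc : κ u = c) (huX : X u) :
    ∀ S ⊆ P, S.Nonempty → S ≠ P → ∃ d, ν d ∈ S ∧ ν (τ d) ∉ S ∧ κ d = c ∧ X d := by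
  intro S hS hne hprop
  by_cases hqS : q ∈ S
  · by_cases hS1 : S.erase q = ∅
    · have : S = {q} := by
        rw [← insert_erase hqS, hS1]; rfl
      subst this
      exact ⟨w, by simpa using hw, by simpa using hw', hwc, hwX⟩
    · have h1 : S.erase q ⊆ P.erase q := erase_subset_erase _ hS
      have h3 : S.erase q ≠ P.erase q := by
        intro h
        apply hprop
        rw [← insert_erase hqS, h, insert_erase hq]
      exact hbig (S.erase q) h1 (nonempty_iff_ne_empty.2 hS1) h3 S (Or.inr (insert_erase hqS).symm)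
  · have h1 : S ⊆ P.erase q := fun v hv => mem_erase.2 ⟨fun h => hqS (h ▸ hv), hS hv⟩
    by_cases h3 : S = P.erase q
    · subst h3
      exact ⟨u, hu', by rw [hu]; exact hqS, huc, huX⟩
    · exact hbig S h1 hne h3 S (Or.inl rfl)

lemma Four.pair_cases {ν : D → N} {π : D → D} (hπ : Pairing ν π) {q : N} {s x y z : D}
    (h : Four ν q s x y z) (hx : x ≠ π s) :
    (π s = y ∧ π x = z) ∨ (π s = z ∧ π x = y) := by
  have h1 := h.all (π s) (by rw [hπ.node, h.hs])
  have h2 := h.all (π x) (by rw [hπ.node, h.ha])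
  have h3 : π x ≠ s := by
    intro e; apply hx; rw [← e, hπ.inv]
  have h4 : π x ≠ π s := by
    intro e; apply h.sa; rw [← hπ.inv s, ← e, hπ.inv]
  rcases h1 with h1 | h1 | h1 | h1
  · exact absurd h1 (hπ.fpf s)
  · exact absurd h1.symm hx
  · left; refine ⟨h1, ?_⟩
    rcases h2 with h2 | h2 | h2 | h2
    · exact absurd h2 h3
    · exact absurd h2 (hπ.fpf x)
    · exact absurd (h2.trans h1.symm) h4
    · exact h2
  · right; refine ⟨h1, ?_⟩
    rcases h2 with h2 | h2 | h2 | h2
    · exact absurd h2 h3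
    · exact absurd h2 (hπ.fpf x)
    · exact h2
    · exact absurd (h2.trans h1.symm) h4

/-- a non-active-node argument: far darts are not at `q` -/
lemma Spl.ne_of_far {ν : D → N} {P : Finset N} {τ : D → D} {q : N} {s a b c : D}
    (h : Spl ν P τ q s a b c) {d w : D} (hd : ν d = q) (hw : ν w = q) : τ d ≠ w := by
  intro e
  have := h.far hd
  rw [e, hw] at this
  exact (mem_erase.1 this).1 rfl

lemma Spl.generic {ν : D → N} {P : Finset N} {τ : D → D} {q : N} {s a b c : D}
    (h : Spl ν P τ q s a b c) {d : D} (hd : ν d ∈ P.erase q) (h1 : d ≠ τ s) (h2 : d ≠ τ a)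
    (h3 : d ≠ τ b) (h4 : d ≠ τ c) : ν (τ d) ≠ q := by
  intro hcon
  rcases h.near (mem_erase.1 hd).2 hcon with h | h | h | h <;> contradiction

lemma ne_of_node {ν : D → N} {P : Finset N} {q : N} {d w : D} (hd : ν d ∈ P.erase q)
    (hw : ν w = q) : d ≠ w := by
  rintro rfl
  exact (mem_erase.1 hd).1 hw

theorem stepA {ν : D → N} {π : D → D} (hπ : Pairing ν π) {P : Finset N} {τ : D → D} {q : N}
    {s x y z f : D} (h : Spl ν P τ q s x y z) (hx : x ≠ π s) (hfP : ν f ∈ P) (hf : ν f ≠ q)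
    (hf' : ν (τ f) ≠ q) (hfs : f ≠ τ s) {κ' : D → Bool}
    (hκ' : Sol ν π (P.erase q) (split τ s x y z) (τ x) f κ') : ∃ κ, Sol ν π P τ s f κ := by
  classical
  have F := h.four
  have hfE : ν f ∈ P.erase q := mem_erase.2 ⟨hf, hfP⟩
  have hfw : ∀ w, ν w = q → f ≠ τ w := by
    intro w hw e
    apply hf'
    rw [e, h.st.inv w (hw ▸ h.hq), hw]
  have hfw' : ∀ w, ν w = q → w ≠ τ f := by
    intro w hw e
    apply hf'
    rw [← e, hw]
  have htf : ∀ w, ν w = q → τ w ≠ τ f := by
    intro w hw e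
    have := h.inj (hw ▸ h.hq) hfP e
    exact hf (this ▸ hw)
  have hτf : split τ s x y z f = τ f :=
    split_else (hfw s F.hs) (hfw x F.ha) (hfw y F.hb) (hfw z F.hc)
  have hτx : split τ s x y z (τ x) = τ s := h.split_a
  obtain ⟨X, hX⟩ : ∃ X, κ' (τ y) = X := ⟨_, rfl⟩
  have hXz : κ' (τ z) = X := by
    have := hκ'.mono (τ y) h.fb h.tab.symm (by rw [hτx]; exact h.tsb.symm)
      (hfw y F.hb).symm (by rw [hτf]; exact htf y F.hb)
    rw [h.split_b] at this
    rw [this, hX]
  obtain ⟨κ, hκ⟩ : ∃ κ : D → Bool, ∀ d, κ d =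
      if d = x ∨ d = τ x then !X else if d = y ∨ d = z then X else κ' d := ⟨_, fun _ => rfl⟩
  have kx : κ x = !X := by rw [hκ]; simp
  have ktx : κ (τ x) = !X := by rw [hκ]; simp
  have ky : κ y = X := by
    rw [hκ, if_neg, if_pos (Or.inl rfl)]
    rintro (e | e)
    · exact F.ab e.symm
    · exact h.ne_of_far F.ha F.hb e.symm
  have kz : κ z = X := by
    rw [hκ, if_neg, if_pos (Or.inr rfl)]
    rintro (e | e)
    · exact F.ac e.symm
    · exact h.ne_of_far F.ha F.hc e.symm
  have ke : ∀ d, ν d ∈ P.erase q → d ≠ τ x → κ d = κ' d := by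
    intro d hd hdx
    rw [hκ, if_neg, if_neg]
    · rintro (e | e)
      · exact ne_of_node hd F.hb e
      · exact ne_of_node hd F.hc e
    · rintro (e | e)
      · exact ne_of_node hd F.ha e
      · exact hdx e
  have kty : κ (τ y) = X := by rw [ke _ h.fb h.tab.symm, hX]
  have ktz : κ (τ z) = X := by rw [ke _ h.fc h.tac.symm, hXz]
  have hpc := F.pair_cases hπ hx
  refine ⟨κ, ?_, ?_, ?_, ?_⟩
  · -- mono
    intro d hd h1 h2 h3 h4
    by_cases e1 : d = x
    · subst e1; rw [kx, ktx]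
    by_cases e2 : d = τ x
    · subst e2; rw [h.st.inv x h.ma, kx, ktx]
    by_cases e3 : d = y
    · subst e3; rw [ky, kty]
    by_cases e4 : d = z
    · subst e4; rw [kz, ktz]
    by_cases e5 : d = τ y
    · subst e5; rw [h.st.inv y h.mb, ky, kty]
    by_cases e6 : d = τ z
    · subst e6; rw [h.st.inv z h.mc, kz, ktz]
    have hdq : ν d ≠ q := by
      intro hq
      rcases F.all d hq with h | h | h | h <;> contradiction
    have hdE : ν d ∈ P.erase q := mem_erase.2 ⟨hdq, hd⟩
    have hgen := h.generic hdE h2 e2 e5 e6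
    have hτd : split τ s x y z d = τ d := split_else h2 e2 e5 e6
    have hm := hκ'.mono d hdE e2 (by rw [hτx]; exact h2) h3 (by rw [hτf]; exact h4)
    rw [hτd] at hm
    rw [ke d hdE e2, ke (τ d) (mem_erase.2 ⟨hgen, h.st.act d hd⟩) (by
      intro e; exact e1 (h.inj hd h.ma e))]
    exact hm
  · -- flip
    have hfl := hκ'.flip
    rw [hτf] at hfl
    rw [ke (τ f) (mem_erase.2 ⟨hf', h.st.act f hfP⟩) (htf x F.ha).symm, ke f hfE (hfw x F.ha), hfl]
  · -- span
    intro c
    have hbig : ∀ S ⊆ P.erase q, S.Nonempty → S ≠ P.erase q → ∀ S' : Finset N,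
      (S' = S ∨ S' = insert q S) → ∃ d, ν d ∈ S' ∧ ν (τ d) ∉ S' ∧ κ d = c ∧
        (d ≠ s ∧ d ≠ τ s ∧ d ≠ f ∧ d ≠ τ f) := by
      intro S hS hne hprop S' hS'
      have hqS : q ∉ S := fun hq => (mem_erase.1 (hS hq)).1 rfl
      obtain ⟨d, d1, d2, d3, d4, d5, d6, d7⟩ := hκ'.span c S hS hne hprop
      rw [hτx] at d5
      rw [hτf] at d7
      have hdE := hS d1
      have hSS' : ∀ v ∈ S, v ∈ S' := by
        rcases hS' with rfl | rfl
        · exact fun v hv => hv
        · exact fun v hv => mem_insert_of_mem hv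
      have hnS' : ∀ v, v ≠ q → v ∉ S → v ∉ S' := by
        rcases hS' with rfl | rfl
        · exact fun v _ hv => hv
        · intro v h1 h2 h3
          rcases mem_insert.1 h3 with h3 | h3 <;> contradiction
      by_cases e1 : d = τ y
      · subst e1
        rw [h.split_b] at d2
        have hcX : c = X := by rw [← d3, hX]
        rcases hS' with rfl | rfl
        · exact ⟨τ y, d1, by rw [h.st.inv y h.mb, F.hb]; exact hqS, by rw [kty, hcX],
            ne_of_node h.fb F.hs, h.tsb.symm, (hfw y F.hb).symm, htf y F.hb⟩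
        · exact ⟨z, by rw [F.hc]; exact mem_insert_self _ _, hnS' _ (mem_erase.1 h.fc).1 d2,
            by rw [kz, hcX], F.sc.symm, (h.ne_of_far F.hs F.hc).symm, fun e => hf (e ▸ F.hc),
            hfw' z F.hc⟩
      by_cases e2 : d = τ z
      · subst e2
        rw [h.split_c] at d2
        have hcX : c = X := by rw [← d3, hXz]
        rcases hS' with rfl | rfl
        · exact ⟨τ z, d1, by rw [h.st.inv z h.mc, F.hc]; exact hqS, by rw [ktz, hcX],
            ne_of_node h.fc F.hs, h.tsc.symm, (hfw z F.hc).symm, htf z F.hc⟩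
        · exact ⟨y, by rw [F.hb]; exact mem_insert_self _ _, hnS' _ (mem_erase.1 h.fb).1 d2,
            by rw [ky, hcX], F.sb.symm, (h.ne_of_far F.hs F.hb).symm, fun e => hf (e ▸ F.hb),
            hfw' y F.hb⟩
      rw [split_else d5 d4 e1 e2] at d2
      have hgen := h.generic hdE d5 d4 e1 e2
      exact ⟨d, hSS' _ d1, hnS' _ hgen d2, by rw [ke d hdE d4, d3], ne_of_node hdE F.hs, d5, d6, d7⟩
    by_cases hc : c = X
    · exact span_lift h.hq h.two c hbig y F.hb (mem_erase.1 h.fb).1 (by rw [ky, hc])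
        ⟨F.sb.symm, (h.ne_of_far F.hs F.hb).symm, fun e => hf (e ▸ F.hb), hfw' y F.hb⟩
        (τ y) (by rw [h.st.inv y h.mb, F.hb]) h.fb (by rw [kty, hc])
        ⟨ne_of_node h.fb F.hs, h.tsb.symm, (hfw y F.hb).symm, htf y F.hb⟩
    · have hc' : c = !X := by cases c <;> cases X <;> simp_all
      exact span_lift h.hq h.two c hbig x F.ha (mem_erase.1 h.fa).1 (by rw [kx, hc'])
        ⟨F.sa.symm, (h.ne_of_far F.hs F.ha).symm, fun e => hf (e ▸ F.ha), hfw' x F.ha⟩
        (τ x) (by rw [h.st.inv x h.ma, F.ha]) h.fa (by rw [ktx, hc'])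
        ⟨ne_of_node h.fa F.hs, h.tsa.symm, (hfw x F.ha).symm, htf x F.ha⟩
  · -- pat
    intro b
    refine pat_combine hπ F.hs ?_ (hκ'.pat (!X)) ?_ b
    · intro b
      refine pat_node hπ (w := x) ?_ F.sa.symm hx ?_ b
      · intro d hd
        rcases F.all d hd with e | e | e | e <;> rcases hpc with ⟨p1, p2⟩ | ⟨p1, p2⟩ <;>
          simp [e, p1, p2]
      · rcases hpc with ⟨p1, p2⟩ | ⟨p1, p2⟩
        · rw [p2, kx, kz]; cases X <;> simp
        · rw [p2, kx, ky]; cases X <;> simp
    · intro d hd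
      by_cases e : d = τ x
      · subst e; rw [ktx]; simp
      · rw [ke d hd e, Function.update_of_ne e]

theorem stepB0 {ν : D → N} {π : D → D} (hπ : Pairing ν π) {P : Finset N} {τ : D → D} {q : N}
    {s f y z : D} (h : Spl ν P τ q s f y z) {κ' : D → Bool}
    (hκ' : Sol ν π (P.erase q) (split τ s f y z) (τ f) (τ y) κ') : ∃ κ, Sol ν π P τ s f κ := by
  classical
  have F := h.four
  have hτf : split τ s f y z (τ f) = τ s := h.split_a
  have hτy : split τ s f y z (τ y) = τ z := h.split_b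
  obtain ⟨Y, hY⟩ : ∃ Y, κ' (τ y) = Y := ⟨_, rfl⟩
  have hYz : κ' (τ z) = !Y := by
    have := hκ'.flip
    rw [hτy, hY] at this
    exact this
  obtain ⟨c0, hc0⟩ : ∃ c0 : Bool, c0 = if π f = y then !Y else Y := ⟨_, rfl⟩
  obtain ⟨κ, hκ⟩ : ∃ κ : D → Bool, ∀ d, κ d =
      if d = f then c0 else if d = τ f then !c0 else if d = y then Y else if d = z then !Y
      else κ' d := ⟨_, fun _ => rfl⟩
  have kf : κ f = c0 := by rw [hκ]; simp
  have ktf : κ (τ f) = !c0 := by
    rw [hκ, if_neg (h.ne_of_far F.ha F.ha), if_pos rfl]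
  have ky : κ y = Y := by
    rw [hκ, if_neg F.ab.symm, if_neg (h.ne_of_far F.ha F.hb).symm, if_pos rfl]
  have kz : κ z = !Y := by
    rw [hκ, if_neg F.ac.symm, if_neg (h.ne_of_far F.ha F.hc).symm, if_neg F.bc.symm, if_pos rfl]
  have ke : ∀ d, ν d ∈ P.erase q → d ≠ τ f → κ d = κ' d := by
    intro d hd hdx
    rw [hκ, if_neg (ne_of_node hd F.ha), if_neg hdx, if_neg (ne_of_node hd F.hb),
      if_neg (ne_of_node hd F.hc)]
  have kty : κ (τ y) = Y := by rw [ke _ h.fb h.tab.symm, hY]
  have ktz : κ (τ z) = !Y := by rw [ke _ h.fc h.tac.symm, hYz]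
  refine ⟨κ, ?_, ?_, ?_, ?_⟩
  · intro d hd h1 h2 h3 h4
    by_cases e3 : d = y
    · subst e3; rw [ky, kty]
    by_cases e4 : d = z
    · subst e4; rw [kz, ktz]
    by_cases e5 : d = τ y
    · subst e5; rw [h.st.inv y h.mb, ky, kty]
    by_cases e6 : d = τ z
    · subst e6; rw [h.st.inv z h.mc, kz, ktz]
    have hdq : ν d ≠ q := by
      intro hq
      rcases F.all d hq with h | h | h | h <;> contradiction
    have hdE : ν d ∈ P.erase q := mem_erase.2 ⟨hdq, hd⟩
    have hgen := h.generic hdE h2 h4 e5 e6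
    have hτd : split τ s f y z d = τ d := split_else h2 h4 e5 e6
    have hm := hκ'.mono d hdE h4 (by rw [hτf]; exact h2) e5 (by rw [hτy]; exact e6)
    rw [hτd] at hm
    rw [ke d hdE h4, ke (τ d) (mem_erase.2 ⟨hgen, h.st.act d hd⟩) (by
      intro e; exact h3 (h.inj hd h.ma e))]
    exact hm
  · rw [ktf, kf]
  · intro c
    have hbig : ∀ S ⊆ P.erase q, S.Nonempty → S ≠ P.erase q → ∀ S' : Finset N,
      (S' = S ∨ S' = insert q S) → ∃ d, ν d ∈ S' ∧ ν (τ d) ∉ S' ∧ κ d = c ∧
        (d ≠ s ∧ d ≠ τ s ∧ d ≠ f ∧ d ≠ τ f) := by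
      intro S hS hne hprop S' hS'
      obtain ⟨d, d1, d2, d3, d4, d5, d6, d7⟩ := hκ'.span c S hS hne hprop
      rw [hτf] at d5
      rw [hτy] at d7
      have hdE := hS d1
      rw [split_else d5 d4 d6 d7] at d2
      have hgen := h.generic hdE d5 d4 d6 d7
      refine ⟨d, ?_, ?_, by rw [ke d hdE d4, d3], ne_of_node hdE F.hs, d5, ne_of_node hdE F.ha, d4⟩
      · rcases hS' with rfl | rfl
        · exact d1
        · exact mem_insert_of_mem d1
      · rcases hS' with rfl | rfl
        · exact d2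
        · intro h3
          rcases mem_insert.1 h3 with h3 | h3 <;> contradiction
    by_cases hc : c = Y
    · exact span_lift h.hq h.two c hbig y F.hb (mem_erase.1 h.fb).1 (by rw [ky, hc])
        ⟨F.sb.symm, (h.ne_of_far F.hs F.hb).symm, F.ab.symm, (h.ne_of_far F.ha F.hb).symm⟩
        (τ y) (by rw [h.st.inv y h.mb, F.hb]) h.fb (by rw [kty, hc])
        ⟨ne_of_node h.fb F.hs, h.tsb.symm, ne_of_node h.fb F.ha, h.tab.symm⟩
    · have hc' : c = !Y := by cases c <;> cases Y <;> simp_all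
      exact span_lift h.hq h.two c hbig z F.hc (mem_erase.1 h.fc).1 (by rw [kz, hc'])
        ⟨F.sc.symm, (h.ne_of_far F.hs F.hc).symm, F.ac.symm, (h.ne_of_far F.ha F.hc).symm⟩
        (τ z) (by rw [h.st.inv z h.mc, F.hc]) h.fc (by rw [ktz, hc'])
        ⟨ne_of_node h.fc F.hs, h.tsc.symm, ne_of_node h.fc F.ha, h.tac.symm⟩
  · intro b
    refine pat_combine hπ F.hs ?_ (hκ'.pat (!c0)) ?_ b
    · intro b
      by_cases hsf : π s = f
      · have hys : y ≠ π s := by rw [hsf]; exact F.ab.symm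
        have hpc := (h.swap_ab).four.pair_cases hπ hys
        have hyz : π y = z := by
          rcases hpc with ⟨p1, p2⟩ | ⟨p1, p2⟩
          · exact p2
          · exact absurd (p1.symm.trans hsf) F.ac.symm
        refine pat_node hπ (w := y) ?_ F.sb.symm hys ?_ b
        · intro d hd
          rcases F.all d hd with e | e | e | e <;> simp [e, hsf, hyz]
        · rw [hyz, ky, kz]; cases Y <;> simp
      · have hfs : f ≠ π s := fun e => hsf e.symm
        have hpc := F.pair_cases hπ hfs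
        refine pat_node hπ (w := f) ?_ F.sa.symm hfs ?_ b
        · intro d hd
          rcases F.all d hd with e | e | e | e <;> rcases hpc with ⟨p1, p2⟩ | ⟨p1, p2⟩ <;>
            simp [e, p1, p2]
        · rcases hpc with ⟨p1, p2⟩ | ⟨p1, p2⟩
          · rw [p2, kf, kz, hc0, p2, if_neg F.bc.symm]; cases Y <;> simp
          · rw [p2, kf, ky, hc0, p2, if_pos rfl]; cases Y <;> simp
    · intro d hd
      by_cases e : d = τ f
      · subst e; rw [ktf]; simp
      · rw [ke d hd e, Function.update_of_ne e]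

theorem stepB1 {ν : D → N} {π : D → D} (hπ : Pairing ν π) {P : Finset N} {τ : D → D} {q : N}
    {s f y z : D} (h : Spl ν P τ q s y f z) (hfz : π f ≠ z) {κ' : D → Bool}
    (hκ' : Sol ν π (P.erase q) (split τ s y f z) (τ y) (τ f) κ') : ∃ κ, Sol ν π P τ s f κ := by
  classical
  have F := h.four
  have hτy : split τ s y f z (τ y) = τ s := h.split_a
  have hτf : split τ s y f z (τ f) = τ z := h.split_b
  obtain ⟨Z, hZ⟩ : ∃ Z, κ' (τ z) = Z := ⟨_, rfl⟩
  have hZf : κ' (τ f) = !Z := by
    have := hκ'.flip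
    rw [hτf, hZ] at this
    rw [this]; simp
  obtain ⟨κ, hκ⟩ : ∃ κ : D → Bool, ∀ d, κ d =
      if d = f then Z else if d = y ∨ d = τ y then !Z else if d = z then Z
      else κ' d := ⟨_, fun _ => rfl⟩
  have kf : κ f = Z := by rw [hκ]; simp
  have ky : κ y = !Z := by
    rw [hκ, if_neg F.ab, if_pos (Or.inl rfl)]
  have kty : κ (τ y) = !Z := by
    rw [hκ, if_neg (h.ne_of_far F.ha F.hb), if_pos (Or.inr rfl)]
  have kz : κ z = Z := by
    rw [hκ, if_neg F.bc.symm, if_neg, if_pos rfl]
    rintro (e | e)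
    · exact F.ac e.symm
    · exact h.ne_of_far F.ha F.hc e.symm
  have ke : ∀ d, ν d ∈ P.erase q → d ≠ τ y → κ d = κ' d := by
    intro d hd hdx
    rw [hκ, if_neg (ne_of_node hd F.hb), if_neg, if_neg (ne_of_node hd F.hc)]
    rintro (e | e)
    · exact ne_of_node hd F.ha e
    · exact hdx e
  have ktf : κ (τ f) = !Z := by rw [ke _ h.fb h.tab.symm, hZf]
  have ktz : κ (τ z) = Z := by rw [ke _ h.fc h.tac.symm, hZ]
  refine ⟨κ, ?_, ?_, ?_, ?_⟩
  · intro d hd h1 h2 h3 h4
    by_cases e3 : d = y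
    · subst e3; rw [ky, kty]
    by_cases e4 : d = z
    · subst e4; rw [kz, ktz]
    by_cases e5 : d = τ y
    · subst e5; rw [h.st.inv y h.ma, ky, kty]
    by_cases e6 : d = τ z
    · subst e6; rw [h.st.inv z h.mc, kz, ktz]
    have hdq : ν d ≠ q := by
      intro hq
      rcases F.all d hq with h | h | h | h <;> contradiction
    have hdE : ν d ∈ P.erase q := mem_erase.2 ⟨hdq, hd⟩
    have hgen := h.generic hdE h2 e5 h4 e6
    have hτd : split τ s y f z d = τ d := split_else h2 e5 h4 e6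
    have hm := hκ'.mono d hdE e5 (by rw [hτy]; exact h2) h4 (by rw [hτf]; exact e6)
    rw [hτd] at hm
    rw [ke d hdE e5, ke (τ d) (mem_erase.2 ⟨hgen, h.st.act d hd⟩) (by
      intro e; exact e3 (h.inj hd h.ma e))]
    exact hm
  · rw [ktf, kf]
  · intro c
    have hbig : ∀ S ⊆ P.erase q, S.Nonempty → S ≠ P.erase q → ∀ S' : Finset N,
      (S' = S ∨ S' = insert q S) → ∃ d, ν d ∈ S' ∧ ν (τ d) ∉ S' ∧ κ d = c ∧
        (d ≠ s ∧ d ≠ τ s ∧ d ≠ f ∧ d ≠ τ f) := by
      intro S hS hne hprop S' hS'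
      obtain ⟨d, d1, d2, d3, d4, d5, d6, d7⟩ := hκ'.span c S hS hne hprop
      rw [hτy] at d5
      rw [hτf] at d7
      have hdE := hS d1
      rw [split_else d5 d4 d6 d7] at d2
      have hgen := h.generic hdE d5 d4 d6 d7
      refine ⟨d, ?_, ?_, by rw [ke d hdE d4, d3], ne_of_node hdE F.hs, d5, ne_of_node hdE F.hb, d6⟩
      · rcases hS' with rfl | rfl
        · exact d1
        · exact mem_insert_of_mem d1
      · rcases hS' with rfl | rfl
        · exact d2
        · intro h3
          rcases mem_insert.1 h3 with h3 | h3 <;> contradiction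
    by_cases hc : c = Z
    · exact span_lift h.hq h.two c hbig z F.hc (mem_erase.1 h.fc).1 (by rw [kz, hc])
        ⟨F.sc.symm, (h.ne_of_far F.hs F.hc).symm, F.bc.symm, (h.ne_of_far F.hb F.hc).symm⟩
        (τ z) (by rw [h.st.inv z h.mc, F.hc]) h.fc (by rw [ktz, hc])
        ⟨ne_of_node h.fc F.hs, h.tsc.symm, ne_of_node h.fc F.hb, h.tbc.symm⟩
    · have hc' : c = !Z := by cases c <;> cases Z <;> simp_all
      exact span_lift h.hq h.two c hbig y F.ha (mem_erase.1 h.fa).1 (by rw [ky, hc'])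
        ⟨F.sa.symm, (h.ne_of_far F.hs F.ha).symm, F.ab, (h.ne_of_far F.hb F.ha).symm⟩
        (τ y) (by rw [h.st.inv y h.ma, F.ha]) h.fa (by rw [kty, hc'])
        ⟨ne_of_node h.fa F.hs, h.tsa.symm, ne_of_node h.fa F.hb, h.tab⟩
  · intro b
    refine pat_combine hπ F.hs ?_ (hκ'.pat (!Z)) ?_ b
    · intro b
      by_cases hsf : π s = f
      · have hys : y ≠ π s := by rw [hsf]; exact F.ab
        have hpc := F.pair_cases hπ hys
        have hyz : π y = z := by
          rcases hpc with ⟨p1, p2⟩ | ⟨p1, p2⟩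
          · exact p2
          · exact absurd (hsf.symm.trans p1) F.bc
        refine pat_node hπ (w := y) ?_ F.sa.symm hys ?_ b
        · intro d hd
          rcases F.all d hd with e | e | e | e <;> simp [e, hsf, hyz]
        · rw [hyz, ky, kz]; cases Z <;> simp
      · have hfs : f ≠ π s := fun e => hsf e.symm
        have hpc := (h.swap_ab).four.pair_cases hπ hfs
        have hfy : π f = y ∧ π s = z := by
          rcases hpc with ⟨p1, p2⟩ | ⟨p1, p2⟩
          · exact absurd p2 hfz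
          · exact ⟨p2, p1⟩
        refine pat_node hπ (w := f) ?_ F.sb.symm hfs ?_ b
        · intro d hd
          rcases F.all d hd with e | e | e | e <;> simp [e, hfy.1, hfy.2]
        · rw [hfy.1, kf, ky]; cases Z <;> simp
    · intro d hd
      by_cases e : d = τ y
      · subst e; rw [kty]; simp
      · rw [ke d hd e, Function.update_of_ne e]

end

end Pool.Agent.MP_fc2a59_co.Sq
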