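import Pool.Agent.Lib.MP_fc2a59_co.SqMain

/-!
# Existence of two spanning trees with forbidden transitions and one free end
-/

set_option autoImplicit false
set_option linter.unusedSectionVars false
set_option linter.unusedVariables false

namespace Pool.Agent.MP_fc2a59_co.Sq

open Finset

section

variable {D N : Type*} [Fintype D] [DecidableEq D] [DecidableEq N]

lemma Spl.split_comm {ν : D → N} {P : Finset N} {τ : D → D} {q : N} {s a b c : D}
    (h : Spl ν P τ q s a b c) : split τ s a b c = split τ s a c b := by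
  funext d
  by_cases h1 : d = τ s
  · subst h1; rw [split_s, split_s]
  by_cases h2 : d = τ a
  · subst h2; rw [h.split_a, h.swap_bc.split_a]
  by_cases h3 : d = τ b
  · subst h3; rw [h.split_b, h.swap_bc.split_c]
  by_cases h4 : d = τ c
  · subst h4; rw [h.split_c, h.swap_bc.split_b]
  rw [split_else h1 h2 h3 h4, split_else h1 h2 h4 h3]

lemma Sol.swap {ν : D → N} {π : D → D} {P : Finset N} {τ : D → D} {s f : D} {κ : D → Bool}
    (hinv : τ (τ f) = f) (h : Sol ν π P τ s (τ f) κ) : Sol ν π P τ s f κ where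
  mono := fun d hd h1 h2 h3 h4 => h.mono d hd h1 h2 h4 (by rw [hinv]; exact h3)
  flip := by
    have := h.flip
    rw [hinv] at this
    rw [this]; simp
  span := fun c S hS hne hp => by
    obtain ⟨d, d1, d2, d3, d4, d5, d6, d7⟩ := h.span c S hS hne hp
    rw [hinv] at d7
    exact ⟨d, d1, d2, d3, d4, d5, d7, d6⟩
  pat := h.pat

lemma sol_base {ν : D → N} {π : D → D} (hπ : Pairing ν π) {P : Finset N} {τ : D → D}
    {s f : D} (hP : P.card = 1) (h : St ν P τ) (hs : ν s ∈ P) (hf : ν f ∈ P) (hfs : f ≠ s)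
    (hfs' : f ≠ τ s) : ∃ κ, Sol ν π P τ s f κ := by
  classical
  obtain ⟨q, rfl⟩ := card_eq_one.1 hP
  have m : ∀ d, ν d ∈ ({q} : Finset N) ↔ ν d = q := fun d => mem_singleton
  have hs' : ν s = q := (m s).1 hs
  have hf' : ν f = q := (m f).1 hf
  have hts : ν (τ s) = q := (m _).1 (h.act s hs)
  have htf : ν (τ f) = q := (m _).1 (h.act f hf)
  have F : Four ν q s (τ s) f (τ f) := by
    refine Four.mk' (h.four q (mem_singleton_self q)) hs' hts hf' htf (h.fpf s hs).symm hfs.symm ?_
      hfs'.symm ?_ (h.fpf f hf).symm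
    · intro e; apply hfs'; rw [e, h.inv f hf]
    · intro e; apply hfs; rw [← h.inv f hf, ← e, h.inv s hs]
  obtain ⟨κ, hκ⟩ : ∃ κ : D → Bool, ∀ d, κ d =
      if d = f then true else if d = τ f then false else if π s = τ f then false else true :=
    ⟨_, fun _ => rfl⟩
  have kf : κ f = true := by rw [hκ]; simp
  have ktf : κ (τ f) = false := by rw [hκ, if_neg F.bc.symm, if_pos rfl]
  refine ⟨κ, ?_, ?_, ?_, ?_⟩
  · intro d hd h1 h2 h3 h4
    rcases F.all d ((m d).1 hd) with e | e | e | e <;> contradiction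
  · rw [ktf, kf]; rfl
  · intro c S hS hne hp
    exact absurd (Finset.Subset.antisymm hS (by
      intro v hv
      rw [mem_singleton] at hv
      obtain ⟨w, hw⟩ := hne
      have := mem_singleton.1 (hS hw)
      rw [hv, ← this]; exact hw)) hp
  · intro b d d' hd hd' h1 h2
    have key : ∀ w, (∀ d, ν d = q → d = s ∨ d = π s ∨ d = w ∨ d = π w) → w ≠ s → w ≠ π s →
        κ w ≠ κ (π w) → Function.update κ s b d = Function.update κ s b d' :=
      fun w a1 a2 a3 a4 => pat_node hπ a1 a2 a3 a4 b d d' ((m d).1 hd) hd' h1 h2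
    by_cases e1 : π s = τ s
    · have hfps : f ≠ π s := by rw [e1]; exact hfs'
      have hpc := (F.swap_ab).pair_cases hπ hfps
      have hff : π f = τ f := by
        rcases hpc with ⟨p1, p2⟩ | ⟨p1, p2⟩
        · exact p2
        · exact absurd (p1.symm.trans e1) F.ac.symm
      refine key f ?_ hfs hfps ?_
      · intro d hd
        rcases F.all d hd with e | e | e | e <;> simp [e, e1, hff]
      · rw [hff, kf, ktf]; simp
    · have e1' : τ s ≠ π s := fun e => e1 e.symm
      have hpc := F.pair_cases hπ e1'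
      refine key (τ s) ?_ F.sa.symm e1' ?_
      · intro d hd
        rcases F.all d hd with e | e | e | e <;> rcases hpc with ⟨p1, p2⟩ | ⟨p1, p2⟩ <;>
          simp [e, p1, p2]
      · rcases hpc with ⟨p1, p2⟩ | ⟨p1, p2⟩
        · rw [p2, ktf, hκ, if_neg F.ab, if_neg F.ac, p1, if_neg F.bc]; simp
        · rw [p2, kf, hκ, if_neg F.ab, if_neg F.ac, if_pos p1]; simp

theorem exists_sol {ν : D → N} {π : D → D} (hπ : Pairing ν π) (n : ℕ) :
    ∀ (P : Finset N) (τ : D → D) (s f : D), P.card = n + 1 → St ν P τ → ν s ∈ P → ν f ∈ P →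
      f ≠ s → f ≠ τ s → ∃ κ, Sol ν π P τ s f κ := by
  induction n with
  | zero =>
    intro P τ s f hP h hs hf hfs hfs'
    exact sol_base hπ hP h hs hf hfs hfs'
  | succ n ih =>
    intro P τ s f hP h hs hf hfs hfs'
    have h2 : 2 ≤ P.card := by omega
    obtain ⟨q, hq⟩ : ∃ q, ν s = q := ⟨_, rfl⟩
    have hqP : q ∈ P := hq ▸ hs
    have hcard : (P.erase q).card = n + 1 := by rw [card_erase_of_mem hqP]; omega
    obtain ⟨p, hp, hps, hpps⟩ : ∃ p, ν p = q ∧ p ≠ s ∧ p ≠ π s := by
      by_contra hcon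
      push Not at hcon
      have hsub : univ.filter (fun d => ν d = q) ⊆ {s, π s} := by
        intro d hd
        have hd' : ν d = q := by simpa using hd
        by_cases e : d = s
        · simp [e]
        · simp [hcon d hd' e]
      have := card_le_card hsub
      rw [h.four q hqP] at this
      have h3 : ({s, π s} : Finset D).card ≤ 2 := card_le_two
      omega
    have F : Four ν q s p (π p) (π s) := by
      refine Four.mk' (h.four q hqP) hq hp (by rw [hπ.node, hp]) (by rw [hπ.node, hq]) hps.symm ?_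
        (hπ.fpf s).symm (hπ.fpf p).symm hpps ?_
      · intro e; apply hpps; rw [e, hπ.inv]
      · intro e; apply hps; rw [← hπ.inv p, e, hπ.inv]
    have S0 : Spl ν P τ q s p (π p) (π s) := ⟨h, h2, hqP, F⟩
    -- the case where the second special edge has its dart `f` at `q`
    have caseB : ∀ f, ν f = q → f ≠ s → f ≠ τ s → ∃ κ, Sol ν π P τ s f κ := by
      intro f hfq hfs hfs'
      have hfP : ν f ∈ P := hfq ▸ hqP
      by_cases e : f = π s
      · -- pairings `{s,p},{πp,f}` and `{s,πp},{p,f}`
        have hfp : π f = s := by rw [e, hπ.inv]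
        rcases S0.good with hg | hg
        · rw [← e] at hg
          have S1 : Spl ν P τ q s p f (π p) := by rw [e]; exact S0.swap_bc
          rw [show split τ s p (π p) f = split τ s p f (π p) from by
            rw [S1.split_comm]] at hg
          obtain ⟨κ', hκ'⟩ := ih (P.erase q) (split τ s p f (π p)) (τ p) (τ f) hcard hg S1.fa
            (S1.far hfq) S1.tab.symm (by rw [S1.split_a]; exact S1.tsb.symm)
          exact stepB1 hπ S1 (by rw [hfp]; exact F.sb) hκ'
        · rw [← e] at hg
          have S1 : Spl ν P τ q s (π p) f p := by rw [e]; exact S0.swap_ab.swap_bc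
          rw [show split τ s (π p) p f = split τ s (π p) f p from by
            rw [S1.split_comm]] at hg
          obtain ⟨κ', hκ'⟩ := ih (P.erase q) (split τ s (π p) f p) (τ (π p)) (τ f) hcard hg S1.fa
            (S1.far hfq) S1.tab.symm (by rw [S1.split_a]; exact S1.tsb.symm)
          exact stepB1 hπ S1 (by rw [hfp]; exact F.sa) hκ'
      · have F1 : Four ν q s f (π f) (π s) := by
          refine Four.mk' (h.four q hqP) hq hfq (by rw [hπ.node, hfq]) (by rw [hπ.node, hq])
            hfs.symm ?_ (hπ.fpf s).symm (hπ.fpf f).symm e ?_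
          · intro e'; apply e; rw [e', hπ.inv]
          · intro e'; apply hfs; rw [← hπ.inv f, e', hπ.inv]
        have S1 : Spl ν P τ q s f (π f) (π s) := ⟨h, h2, hqP, F1⟩
        rcases S1.good with hg | hg
        · obtain ⟨κ', hκ'⟩ := ih (P.erase q) (split τ s f (π f) (π s)) (τ f) (τ (π f)) hcard hg
            S1.fa S1.fb S1.tab.symm (by rw [S1.split_a]; exact S1.tsb.symm)
          exact stepB0 hπ S1 hκ'
        · have S2 := S1.swap_ab
          obtain ⟨κ', hκ'⟩ := ih (P.erase q) (split τ s (π f) f (π s)) (τ (π f)) (τ f) hcard hg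
            S2.fa S2.fb S2.tab.symm (by rw [S2.split_a]; exact S2.tsb.symm)
          exact stepB1 hπ S2 F1.bc hκ'
    by_cases hfq : ν f = q
    · exact caseB f hfq hfs hfs'
    by_cases hfq' : ν (τ f) = q
    · obtain ⟨κ, hκ⟩ := caseB (τ f) hfq' (by
        intro e; apply hfs'; rw [← e, h.inv f hf]) (by
        intro e; apply hfs; rw [← h.inv f hf, e, h.inv s hs])
      exact ⟨κ, hκ.swap (h.inv f hf)⟩
    have hfw : ∀ w, ν w = q → f ≠ τ w := by
      intro w hw e
      apply hfq'
      rw [e, h.inv w (hw ▸ hqP), hw]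
    have hfE : ν f ∈ P.erase q := mem_erase.2 ⟨hfq, hf⟩
    rcases S0.good with hg | hg
    · obtain ⟨κ', hκ'⟩ := ih (P.erase q) (split τ s p (π p) (π s)) (τ p) f hcard hg S0.fa hfE
        (hfw p hp) (by rw [S0.split_a]; exact hfs')
      exact stepA hπ S0 hpps hf hfq hfq' hfs' hκ'
    · have S1 := S0.swap_ab
      obtain ⟨κ', hκ'⟩ := ih (P.erase q) (split τ s (π p) p (π s)) (τ (π p)) f hcard hg S1.fa hfE
        (hfw _ F.hb) (by rw [S1.split_a]; exact hfs')
      exact stepA hπ S1 F.bc hf hfq hfq' hfs' hκ'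

end

end Pool.Agent.MP_fc2a59_co.Sq
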