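import Pool.Agent.Lib.MP_fc2a59_co.SqEnd
import Pool.Agent.Lib.MP_fc2a59_co.SqCfg
import Pool.Agent.Lib.MP_fc2a59_co.Jg.Asm

/-!
# At most four vertices lie on no 4-cycle
-/

set_option autoImplicit false
set_option linter.unusedSectionVars false
set_option linter.unusedVariables false

namespace Pool.Agent.MP_fc2a59_co.Sq

open Finset Pool.Jg

section

variable {V : Type} [Fintype V] [DecidableEq V] {G : SimpleGraph V} [DecidableRel G.Adj]

/-- positions -/
def psi {ι : Type} (g : ι → Fin 4 → V) (q q' : ι → V) (i : ι) : Fin 6 → V :=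
  ![g i 0, g i 1, g i 2, g i 3, q i, q' i]

lemma psi_cases {ι : Type} (g : ι → Fin 4 → V) (q q' : ι → V) (a : Fin 6) :
    (∃ k : Fin 4, a.val = k.val ∧ ∀ i, psi g q q' i a = g i k) ∨
      (a = 4 ∧ ∀ i, psi g q q' i a = q i) ∨ (a = 5 ∧ ∀ i, psi g q q' i a = q' i) := by
  fin_cases a
  · exact Or.inl ⟨0, rfl, fun i => rfl⟩
  · exact Or.inl ⟨1, rfl, fun i => rfl⟩
  · exact Or.inl ⟨2, rfl, fun i => rfl⟩
  · exact Or.inl ⟨3, rfl, fun i => rfl⟩
  · exact Or.inr (Or.inl ⟨rfl, fun i => rfl⟩)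
  · exact Or.inr (Or.inr ⟨rfl, fun i => rfl⟩)

open Classical in
/-- blocks from a configuration -/
lemma CfgP.blk {ι : Type} {g : ι → Fin 4 → V} {J : ι → Prop} {q q' : ι → V}
    (h : CfgP G g J q q') (h3 : ∀ v, G.degree v = 3) :
    Blk G (psi g q q') (fun i => decide (J i)) where
  deg := h3
  inj := by
    intro i j a b ha hb e
    have hv : ∀ (J : Bool), (vl J 4 = true → J = true) ∧ (vl J 5 = true → J = true) := by decide
    rcases psi_cases g q q' a with ⟨k, hk, ea⟩ | ⟨rfl, ea⟩ | ⟨rfl, ea⟩ <;>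
      rcases psi_cases g q q' b with ⟨l, hl, eb⟩ | ⟨rfl, eb⟩ | ⟨rfl, eb⟩ <;>
      rw [ea, eb] at e
    · obtain ⟨e1, e2⟩ := h.inj _ _ _ _ e
      exact ⟨e1, Fin.ext (by rw [hk, hl, e2])⟩
    · have hj := of_decide_eq_true ((hv _).1 hb)
      exact absurd e.symm (h.qc j hj i k)
    · have hj := of_decide_eq_true ((hv _).2 hb)
      exact absurd e.symm (h.q'c j hj i k)
    · have hi := of_decide_eq_true ((hv _).1 ha)
      exact absurd e (h.qc i hi j l)
    · have hi := of_decide_eq_true ((hv _).1 ha)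
      have hj := of_decide_eq_true ((hv _).1 hb)
      exact ⟨h.qi i j hi hj e, rfl⟩
    · have hi := of_decide_eq_true ((hv _).1 ha)
      have hj := of_decide_eq_true ((hv _).2 hb)
      exact absurd e (h.qq' i j hi hj)
    · have hi := of_decide_eq_true ((hv _).2 ha)
      exact absurd e (h.q'c i hi j l)
    · have hi := of_decide_eq_true ((hv _).2 ha)
      have hj := of_decide_eq_true ((hv _).1 hb)
      exact absurd e.symm (h.qq' j i hj hi)
    · have hi := of_decide_eq_true ((hv _).2 ha)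
      have hj := of_decide_eq_true ((hv _).2 hb)
      exact ⟨h.q'i i j hi hj e, rfl⟩
  adj := by
    have key : ∀ i (a b : Fin 6), a.val < b.val → nbT (decide (J i)) a b = true →
        G.Adj (psi g q q' i a) (psi g q q' i b) := by
      intro i a b hlt hab
      by_cases hi : J i
      · rw [decide_eq_true hi] at hab
        have hc : ∀ a b : Fin 6, a.val < b.val → nbT true a b = true →
            (a = 0 ∧ b = 1) ∨ (a = 0 ∧ b = 4) ∨ (a = 1 ∧ b = 5) ∨ (a = 2 ∧ b = 3) ∨
              (a = 2 ∧ b = 5) ∨ (a = 3 ∧ b = 4) ∨ (a = 4 ∧ b = 5) := by decide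
        rcases hc a b hlt hab with ⟨rfl, rfl⟩ | ⟨rfl, rfl⟩ | ⟨rfl, rfl⟩ | ⟨rfl, rfl⟩ | ⟨rfl, rfl⟩ |
          ⟨rfl, rfl⟩ | ⟨rfl, rfl⟩
        · exact h.l3 i hi
        · exact (h.l2 i hi).symm
        · exact h.l4 i hi
        · exact h.l6 i hi
        · exact (h.l5 i hi).symm
        · exact h.l1 i hi
        · exact h.l7 i hi
      · rw [decide_eq_false hi] at hab
        have hc : ∀ a b : Fin 6, a.val < b.val → nbT false a b = true →
            (a = 0 ∧ b = 1) ∨ (a = 0 ∧ b = 3) ∨ (a = 1 ∧ b = 2) ∨ (a = 2 ∧ b = 3) := by decide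
        rcases hc a b hlt hab with ⟨rfl, rfl⟩ | ⟨rfl, rfl⟩ | ⟨rfl, rfl⟩ | ⟨rfl, rfl⟩
        · exact h.sq i hi 0
        · exact (h.sq i hi 3).symm
        · exact h.sq i hi 1
        · exact h.sq i hi 2
    intro i a b hab
    have hne : ∀ J (a b : Fin 6), nbT J a b = true → a.val < b.val ∨ b.val < a.val := by decide
    rcases hne _ _ _ hab with h1 | h1
    · exact key i a b h1 hab
    · exact (key i b a h1 (by rw [nbT_symm]; exact hab)).symm

/-- covered vertices are on 4-cycles -/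
lemma Blk.onC4 {ι : Type} {ψ : ι → Fin 6 → V} {J : ι → Bool} (h : Blk G ψ J) {v : V}
    (hv : Cv ψ J v) : OnC4 G v := by
  obtain ⟨i, a, ha, rfl⟩ := hv
  have hex : ∀ J (a : Fin 6), vl J a = true → ∃ b c d, a ≠ c ∧ b ≠ d ∧ nbT J a b = true ∧
      nbT J b c = true ∧ nbT J c d = true ∧ nbT J d a = true := by decide
  obtain ⟨b, c, d, h1, h2, h3, h4, h5, h6⟩ := hex _ _ ha
  refine ⟨ψ i b, ψ i c, ψ i d, ?_, ?_, h.adj _ _ _ h3, h.adj _ _ _ h4, h.adj _ _ _ h5,
    h.adj _ _ _ h6⟩
  · intro e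
    exact h1 (h.inj _ _ _ _ ha (nbT_vl _ _ _ h4).2 e).2
  · intro e
    exact h2 (h.inj _ _ _ _ (nbT_vl _ _ _ h3).2 (nbT_vl _ _ _ h5).2 e).2

open Classical in
/-- the number of the uncovered vertices is even -/
lemma Blk.even_unc {ι : Type} [Fintype ι] {ψ : ι → Fin 6 → V} {J : ι → Bool} (h : Blk G ψ J) :
    Even (univ.filter (fun u => ¬ Cv ψ J u)).card := by
  have h1 := Pool.Jg.even_card3 h.deg
  set Pv : Finset (ι × Fin 6) := univ.filter (fun x => vl (J x.1) x.2 = true) with hPv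
  have e1 : Pv.card = ∑ i, (univ.filter (fun a => vl (J i) a = true)).card := by
    rw [hPv, card_filter, Fintype.sum_prod_type]
    exact sum_congr rfl fun i _ => by rw [card_filter]
  have e2 : Even Pv.card := by
    rw [e1]
    have : ∀ J, Even (univ.filter (fun a => vl J a = true)).card := by decide
    exact even_sum _ fun i _ => this _
  have injv : Set.InjOn (fun x : ι × Fin 6 => ψ x.1 x.2) (Pv : Set (ι × Fin 6)) := by
    intro x hx y hy hxy
    have hx' := (mem_filter.1 (mem_coe.1 hx)).2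
    have hy' := (mem_filter.1 (mem_coe.1 hy)).2
    obtain ⟨a1, a2⟩ := h.inj _ _ _ _ hx' hy' hxy
    exact Prod.ext a1 a2
  have e3 : Fintype.card V = (univ.filter (fun u => ¬ Cv ψ J u)).card + Pv.card := by
    rw [← card_image_of_injOn injv, ← card_union_of_disjoint, ← card_univ]
    · congr 1
      ext v
      simp only [mem_univ, true_iff, mem_union, mem_image, mem_filter, true_and, hPv, Prod.exists]
      by_cases hv : Cv ψ J v
      · right
        obtain ⟨i, a, ha, rfl⟩ := hv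
        exact ⟨i, a, ha, rfl⟩
      · exact Or.inl hv
    · rw [disjoint_left]
      intro v hv hv'
      rw [mem_filter] at hv
      obtain ⟨x, hx, rfl⟩ := mem_image.1 hv'
      rw [hPv, mem_filter] at hx
      exact hv.2 ⟨x.1, x.2, hx.2, rfl⟩
  rw [e3, Nat.even_add] at h1
  exact h1.2 e2

open Classical in
/-- **Main theorem.** -/
theorem split_of_four_off (h2 : 2 < Fintype.card V) (h3 : ∀ v, G.degree v = 3) (hc : CutHyp G)
    (h4 : ∃ U : Finset V, U.card ≤ 4 ∧ ∀ v, v ∉ U → OnC4 G v) :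
    ∃ T₁ T₂ : SimpleGraph V,
      T₁ ⊔ T₂ = G ∧ Disjoint T₁ T₂ ∧
      T₁.IsAcyclic ∧ T₂.IsAcyclic ∧
      (∀ u v, u ∈ T₁.support → v ∈ T₁.support → T₁.Reachable u v) ∧
      (∀ u v, u ∈ T₂.support → v ∈ T₂.support → T₂.Reachable u v) := by
  obtain ⟨r, hr⟩ := even_card3 h3
  rcases (by omega : Fintype.card V = 4 ∨ Fintype.card V = 6 ∨ 8 ≤ Fintype.card V) with
    e | e | h8
  · obtain ⟨χ, hχ⟩ := good_card4 h3 e
    exact split_of_good G h3 h2 χ hχ
  · obtain ⟨χ, hχ⟩ := good_card6 h3 hc e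
    exact split_of_good G h3 h2 χ hχ
  · obtain ⟨ι, hι, g, J, q, q', hC⟩ := exists_cfgP h3 hc h8
    have hB := hC.blk h3
    set U := univ.filter (fun u => ¬ Cv (psi g q q') (fun i => decide (J i)) u) with hU
    have hle : U.card ≤ 4 := by
      obtain ⟨U', hU', hU''⟩ := h4
      refine le_trans (card_le_card ?_) hU'
      intro v hv
      by_contra hcon
      rw [hU, mem_filter] at hv
      apply hv.2
      rcases hC.cov v (hU'' v hcon) with ⟨i, k, rfl⟩ | ⟨i, hi, rfl | rfl⟩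
      · fin_cases k
        · exact ⟨i, 0, vl_cn _ _ (by decide), rfl⟩
        · exact ⟨i, 1, vl_cn _ _ (by decide), rfl⟩
        · exact ⟨i, 2, vl_cn _ _ (by decide), rfl⟩
        · exact ⟨i, 3, vl_cn _ _ (by decide), rfl⟩
      · exact ⟨i, 4, by simp [vl, hi], rfl⟩
      · exact ⟨i, 5, by simp [vl, hi], rfl⟩
    have hev : Even U.card := hB.even_unc
    obtain ⟨k, hk⟩ := hev
    by_cases h0 : U.card = 0
    · have hall : ∀ v, OnC4 G v := by
        intro v
        apply hB.onC4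
        by_contra hcon
        have : v ∈ U := by rw [hU, mem_filter]; exact ⟨mem_univ _, hcon⟩
        rw [card_eq_zero.1 h0] at this
        exact absurd this (notMem_empty _)
      obtain ⟨χ, hχ⟩ := good_of_c4 h3 h2 hc hall
      exact split_of_good G h3 h2 χ hχ
    · refine blk_split hB ?_ (by show U.card = 2 ∨ U.card = 4; omega)
      intro S hS hS'
      apply hc S hS
      obtain ⟨v, w, h1, h2⟩ := hS'
      exact ⟨v, w, h1, fun x hx => mem_compl.1 (h2 x hx)⟩

end

end Pool.Agent.MP_fc2a59_co.Sq
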